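import Mathlib
import Pool.Agent.CH.Stmts
import Pool.Agent.CAE.Stmts2
import Pool.Agent.GV.Stmts

set_option autoImplicit false

/-!
# RVC: reversed theorem of Chen type for `⌊(n - a)/m⌋`, `m ≤ (log n)^A₀` (MP_4011c3_nt, Q2)

`a = n' - m q` is a product of at most two primes, `q` is PRIME, `q^2 - 2` has at most `R` prime factors.
Mirror image of `Pool/Agent/CH` (helper51): the roles of `q` and `n' - m q` are exchanged.

Everything is as in `CH` (`Sit`, `OmA`, `OmB`, `gA`, `gB`, `VV`, `bt`, `B0`, `etaR`, `zN`, `yN`, `wN`, `lam`, `pr`), but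
the sieve lives at the scale `M = m N` of `a`: `z = zN (m * N)`, `y = yN (m * N)`, `w = wN δ (m * N)`, the level is
`(m * N)^(1/2 - τ)`, and the weight is `η (q / N)`.  `q` prime: the removed classes of `q` modulo `l` are `OmB w m n' l`
(`c ≠ 0`, and `c^2 = 2` with `l ≤ w`, or `m c = n'`), the density is `gB` (`/ (l - 1)`); `a = p₁ p₂ p₃` (switched
sum): the removed classes are `OmA w m n' l`, the density is `gA`.  `VV gA z = φ(m)/m VV gB z` (`CH.St_Dens`).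

Convention: module XXX is the file `Pool/Agent/RVC/XXX.lean` with `theorem thm_XXX (hypotheses as listed) : St_XXX`,
namespace `Pool.Agent.RVC`.  Each module is a copy of one file of `CH` (or `CAE`); import that file and reuse all its
lemmas that do not change (the lemmas of `CH` are public).

For `N → ∞` and `1 ≤ m ≤ (log N)^A₀` we have `N ≤ m N ≤ N^(1 + ε)`; a statement that holds for all large `X` holds for
`X = m * N` (`N ≤ m * N`).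
-/

namespace Pool.Agent.RVC

open Finset Filter Pool.Agent.MT Pool.Agent.CH

/-- `∑ bt(n' - m q) η(q/N)` over `q = c mod d`, `q ≤ N` -/
noncomputable def BBP (η : ℝ → ℝ) (N m n' z y d c : ℕ) : ℝ :=
  ∑ q ∈ (range (N + 1)).filter (fun q => q % d = c % d), bt z y (n' - m * q) * η ((q : ℝ) / N)

/-- the unit of measure of all main terms -/
noncomputable def UR (η : ℝ → ℝ) (δ : ℝ) (N m n' : ℕ) : ℝ :=
  (∫ t in (0 : ℝ)..1, η t) * N * VV (gB (wN δ (m * N)) m n') (zN (m * N))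

/-- [BVM] Bombieri-Vinogradov for `q`, with the level as a power of `m N`.

PROOF.  `GV.St_BVW` for `θ' = (θ + 1/2)/2` and `A`, `K`.  `(m N)^θ ≤ N^θ'` for large `N` (`m ≤ (log N)^A₀ ≤ N^ε`), so
`(Icc 1 (m * N)).filter (d ≤ (m N)^θ) ⊆ (Icc 1 N).filter (d ≤ N^θ')` (`d ≤ N^θ' ≤ N`).  `psiAP η N d c` is the sum over
`n % d = c % d`, `c < d`: `Nat.mod_eq_of_lt`; `lam` is `ArithmeticFunction.vonMangoldt`. -/
def St_BVM : Prop := ∀ η : ℝ → ℝ, IsWt η → ∀ θ : ℝ, 0 < θ → θ < 1 / 2 → ∀ A A₀ K : ℕ,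
  ∀ᶠ N : ℕ in atTop, ∀ m : ℕ, 1 ≤ m → (m : ℝ) ≤ Real.log N ^ A₀ → ∃ E : ℕ → ℝ, (∀ d, 0 ≤ E d) ∧
    (∀ d c : ℕ, 1 ≤ d → (d : ℝ) ≤ ((m * N : ℕ) : ℝ) ^ θ → c < d → c.Coprime d →
      |∑ q ∈ (range (N + 1)).filter (fun q => q % d = c), lam q * η ((q : ℝ) / N) -
        psi0 η N / (d.totient : ℝ)| ≤ E d) ∧
    ∑ d ∈ (Icc 1 (m * N)).filter (fun d : ℕ => (d : ℝ) ≤ ((m * N : ℕ) : ℝ) ^ θ),
      (K : ℝ) ^ d.primeFactors.card * E d ≤ N / Real.log N ^ A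

/-- [BBV] Bombieri-Vinogradov for `a = n' - m q = p₁ p₂ p₃`, in terms of `q`.

PROOF = copy of `Pool/Agent/CH/ABV.lean` (`bt` for `lam`, `CH.St_PBVW` for `GV.St_BVW`).  `a = n' - m q` runs through
the `a ≤ n'` with `a = n' (mod m)`; `q = c (mod d)` iff `a = n' - m c (mod m d)` (`abv_bij`), this class is coprime to
`m d` (`n'` coprime to `m`; `n' - m c` coprime to `d`); `St_PBVW` at `m * N` for `etaR η` and the modulus `m d`,
`θ' > θ` (`m d ≤ (m N)^θ'`), `A` increased by `A₀ + 1` (`m N ≤ N (log N)^A₀`); `Par (m * N) (zN (m * N)) (yN (m * N))` for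
large `N` (`zN X ≥ X^(1/10)`, `yN X ≤ X^(2/5)`).  The difference of the weights: `η (q/N) = etaR η (1 - q/N)`,
`|1 - q/N - a/(m N)| ≤ 1/N`, Lipschitz (`abv_diff`); `bt ≤ 1` (in ABV: `lam ≤ log`), and the terms with `a > m N` have
`q < 1`.  `K^ω(d) E d`: `ω(d) ≤ ω(m d)`, and for a given `m` the map `d ↦ m d` is injective. -/
def St_BBV : Prop := ∀ η : ℝ → ℝ, IsWt η → ∀ θ : ℝ, 0 < θ → θ < 1 / 2 → ∀ A A₀ K : ℕ,
  ∀ᶠ N : ℕ in atTop, ∀ m n' : ℕ, 1 ≤ m → (m : ℝ) ≤ Real.log N ^ A₀ → n'.Coprime m →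
  m * N ≤ n' → n' < m * (N + 1) → ∃ E : ℕ → ℝ, (∀ d, 0 ≤ E d) ∧
    (∀ d c : ℕ, 1 ≤ d → (d : ℝ) ≤ ((m * N : ℕ) : ℝ) ^ θ → c < d → (n' - m * c).Coprime d →
      |BBP η N m n' (zN (m * N)) (yN (m * N)) d c -
        B0 (etaR η) (m * N) (zN (m * N)) (yN (m * N)) / ((m * d).totient : ℝ)| ≤ E d) ∧
    ∑ d ∈ (Icc 1 (m * N)).filter (fun d : ℕ => (d : ℝ) ≤ ((m * N : ℕ) : ℝ) ^ θ),
      (K : ℝ) ^ d.primeFactors.card * E d ≤ N / Real.log N ^ A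

/-- [RA] `q` prime, `a` without prime factors up to `z`, `q^2 - 2` without prime factors up to `w`.

HYPS: `(A0 : ℝ) (hA0 : 0 < A0) (h0 : CH.St_LinL A0) (h1 : St_BVM) (h2 : CH.St_Gen) (h3 : CH.St_VLow) (h4 : CH.St_Dens)
(h5 : CH.St_P1)`.
PROOF = copy of `Pool/Agent/CH/SA.lean` at the scale `X = m * N`, easier: the sum over `q = a (mod d)` of `lam q η(q/N)` has
the main term `psi0 η N / φ(d)` (`BVM`), and for squarefree `d`
`1/φ(d) ∏_{l ∣ d} |OmB l| = ∏_{l ∣ d} gB l` (simpler than `sa_local`; no `m`).  A class `a` with `a % l ∈ OmB` for all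
`l ∣ d` is coprime to `d` (`c ≠ 0` in `OmB`).  `St_Gen` with `c`, `h d = 1/φ(d)`, `Om l = OmB w m n' l`, `P = pr z`,
`N`, `D = (m N)^2`, `κ = 3`, `M = psi0 η N`.  Sieve (`St_LinL`) at `X = m * N`, `z = zN X`, `D = X^(1/2 - τ)`,
`g = gB (wN δ X) m n'`: `Dns ⌊X^δ⌋ z ⌈2/δ⌉ g` as in `sa_dns` (`gB` for `gA`: `CH.St_Dens`, first and second part;
`n' ≤ m (N + 1) ≤ X^2`).  `sa_sieve`, `sa_sift`, `sa_err`, `sa_int`, `sa_floor` are used with `X` for `N`; `sa_final` without the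
division by `m`. -/
def St_RA (A0 : ℝ) : Prop := ∀ η : ℝ → ℝ, IsWt η → ∀ ε : ℝ, 0 < ε → ∃ δ₁ : ℝ, 0 < δ₁ ∧
  ∀ δ : ℝ, 0 < δ → δ ≤ δ₁ → ∀ A₀ : ℕ, ∀ᶠ N : ℕ in atTop, ∀ m n' : ℕ, Sit N m n' A₀ →
  (A0 * (Real.log 3 / 4) - ε) * UR η δ N m n' ≤
    ∑ q ∈ (range (N + 1)).filter (fun q => ∀ l ∈ pr (zN (m * N)), q % l ∉ OmB (wN δ (m * N)) m n' l),
      lam q * η ((q : ℝ) / N)

/-- [RP] the same with `p ∣ a`, `z < p ≤ y`, `p` not a divisor of `n'`.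

HYPS: `(A0 : ℝ) (hA0 : 0 < A0) (h0 : CH.St_LinU A0) (h1 : St_BVM) (h2 : CH.St_Gen) (h3 : CH.St_VLow) (h4 : CH.St_Dens)
(h5 : CH.St_P1) (h6 : CH.St_ASum)`.
PROOF = copy of `Pool/Agent/CH/SP.lean` at the scale `X = m * N` (`zN X`, `yN X`, `wN δ X`, `D = X^(1/2 - τ)/p`; `SP_sizes`,
`St_ASum` for `X`), with `BVM` and the density `gB` (as in RA; `psi0 η N / φ(p d) = psi0 η N / ((p - 1) φ(d))`).  `p > z > m`, so
`p` does not divide `m`; `m q = n' (mod p)` is one class `c_p` modulo `p`, not `0` because `p` does not divide `n'`; with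
`q = a (mod d)`, `d` a product of primes `≤ z < p`: one class modulo `p d`, coprime to `p d` (`SP_crt` with `c_p` for
`0`).  There are no bad `p` (no `SP_bad`). -/
def St_RP (A0 : ℝ) : Prop := ∀ η : ℝ → ℝ, IsWt η → ∀ ε : ℝ, 0 < ε → ∃ δ₁ : ℝ, 0 < δ₁ ∧
  ∀ δ : ℝ, 0 < δ → δ ≤ δ₁ → ∀ A₀ : ℕ, ∀ᶠ N : ℕ in atTop, ∀ m n' : ℕ, Sit N m n' A₀ →
  ∑ p ∈ (pr (yN (m * N))).filter (fun p => zN (m * N) < p ∧ ¬ p ∣ n'),
    ∑ q ∈ (range (N + 1)).filter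
      (fun q => (∀ l ∈ pr (zN (m * N)), q % l ∉ OmB (wN δ (m * N)) m n' l) ∧ (m * q) % p = n' % p),
      lam q * η ((q : ℝ) / N) ≤ (A0 * (Real.log 6 / 4) + ε) * UR η δ N m n'

/-- [RB] the switched sum: `a = p₁ p₂ p₃`, `q` without prime factors up to `y`.

HYPS: `(A0 : ℝ) (hA0 : 0 < A0) (h0 : CH.St_LinU A0) (h1 : St_BBV) (h2 : CH.St_Gen) (h3 : CH.St_VLow) (h4 : CH.St_Dens)
(h5 : CH.St_BMass) (h6 : CH.St_VR)`.
PROOF = copy of `Pool/Agent/CH/SB.lean` at the scale `X = m * N` (`zN X`, `yN X`, `wN δ X`, `D = X^(1/2 - τ)`) with `BBV`, the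
classes `OmA` and the density `gA`: `1/φ(m d) ∏ |OmA l| = 1/φ(m) ∏ gA l` (`sa_local`), a class `a` with `a % l ∈ OmA` for all
`l ∣ d` satisfies `(n' - m a).Coprime d` (`sa_coprime`).  Upper bound:
`B0 (etaR η) X / φ(m) * VV gA (yN X) * (A0 log y / log D + ε)`, `B0 ≤ (cB + ε) ∫η X / log X` (`St_BMass` for `etaR η`,
`∫ etaR η = ∫ η`), `VV gA y ≤ (3/8 + ε) VV gA z` (`St_VR`), `VV gA z = φ(m)/m VV gB z` (`St_Dens`): together
`(cB + ε) ∫η N (3/8 + ε) VV gB z (2/3 A0 + ε) / log X`. -/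
def St_RB (A0 : ℝ) : Prop := ∀ η : ℝ → ℝ, IsWt η → ∀ ε : ℝ, 0 < ε → ∃ δ₁ : ℝ, 0 < δ₁ ∧
  ∀ δ : ℝ, 0 < δ → δ ≤ δ₁ → ∀ A₀ : ℕ, ∀ᶠ N : ℕ in atTop, ∀ m n' : ℕ, Sit N m n' A₀ →
  ∑ q ∈ (range (N + 1)).filter (fun q => ∀ l ∈ pr (yN (m * N)), q % l ∉ OmA (wN δ (m * N)) m n' l),
      bt (zN (m * N)) (yN (m * N)) (n' - m * q) * η ((q : ℝ) / N) ≤
    (A0 * (cB / 4) + ε) * UR η δ N m n' / Real.log ((m * N : ℕ) : ℝ)

/-- [RFinE] the main argument, with an exceptional set `E` of `q`.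

HYPS: `(h0 : ∃ A0 : ℝ, 0 < A0 ∧ St_RA A0 ∧ St_RP A0 ∧ St_RB A0) (h1 : CH.St_cB) (h2 : CH.St_Wt) (h3 : CAE.St_V2A)
(h4 : CH.St_Dens)`.
PROOF = copy of `fin_ineqE`, `fin_goodE`, `fin_coreE` in `Pool/Agent/CAE/RobC.lean` (and of the lemmas of `CH/Fin.lean`) with
`q` and `a = n' - m q` exchanged.  `Q` = the `q ≤ N` with `q % l ∉ OmB w m n' l` for `l ∈ pr z`; weight of `q ∈ Q`:
`lam q η(q/N) (1 - 1/2 #{z < p ≤ y : ¬ p ∣ n', (m q) % p = n' % p} - 1/2 bt z y a)`.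
* On the support `N/8 < q < 7N/8`, so `q > y`, `a ≥ m N/8`, `a < m N ≤ y^3` (`yN X ≥ X^(1/3)`).
* Errors (each times `log (m N)`): `lam q ≠ 0`, `q` not prime: at most `3 √N log N` (`GBQ.bad_card_pp` directly); `p^2 ∣ a`
  for some `z < p ≤ y`: `p` does not divide `m` (`p > m`), so `q` is in one class modulo `p^2`: at most
  `∑ (N/p^2 + 1) ≤ N/z + y` of the `q`; `q ∈ E`: `|E|`.
* `q` prime, in the support, `q ∈ Q`: a prime `l ≤ z` which divides `a` satisfies `(m (q % l)) % l = n' % l`, `q % l ≠ 0`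
  (`q` prime, `q > l`), so `q % l ∈ OmB`: no.  So all primes dividing `a` are `> z`.  A prime `p ≤ y` which divides `a` does
  not divide `n'`: otherwise `p ∣ m q`, `p ∣ m` (no, `p > z ≥ w ≥ m`) or `p = q > y`.  So the sum in the weight counts the
  primes `≤ y` dividing `a` and `St_Wt` applies to `a`.  `q^2 - 2` has no prime factor `≤ w` (`OmB`, `l ≤ w ≤ z`), so at
  most `⌈2/δ⌉` prime factors (`fin_Omega`: `q^2 - 2 ≤ N^2 ≤ X^2`, `X^δ ≤ w + 1`).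
* Switched part: `lam q ≤ log X`; for a prime `q` of `Q` in the support, `q % l ∉ OmA w m n' l` for all `l ∈ pr y`
  (`q % l ≠ 0`; `l ≤ w` and `q^2 = 2 (mod l)` would give `q % l ∈ OmB`).
* `κ = A0 log3/4 - A0 log6/8 - A0 cB/8 > 0` (`fin_kappa`); `UR ≥ 1/2 N (m/φ(m)) c/(log X)^2` by `St_V2A`, `St_Dens` (last part),
  `log X ≤ 2 log N`. -/
def St_RFinE : Prop := ∃ (R : ℕ) (c₃ : ℝ), 0 < c₃ ∧ ∀ A₀ : ℕ, ∀ᶠ N : ℕ in atTop, ∀ m n' : ℕ,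
  Sit N m n' A₀ → ∀ E : Finset ℕ, (E.card : ℝ) ≤ c₃ * ((m : ℝ) / m.totient * N / Real.log N ^ 3) →
  ∃ q : ℕ, q.Prime ∧ q ≤ N ∧ q ∉ E ∧ Nat.IsAtMostAlmostPrime 2 (n' - m * q) ∧
    Nat.IsAtMostAlmostPrime R (q ^ 2 - 2)

/-- there is a reversed solution `a ∉ E` for the pair `(m, n)` -/
def SolRE (R m n : ℕ) (E : Finset ℕ) : Prop :=
  ∃ a : ℕ, a ∉ E ∧ a < n ∧ Nat.IsAtMostAlmostPrime 2 a ∧ ((n - a) / m).Prime ∧
    Nat.IsAtMostAlmostPrime R (((n - a) / m) ^ 2 - 2)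

/-- [RC3] `m ≤ (log n)^A₀`, robust form of the expected order.

HYPS: `(h0 : St_RFinE) (h1 : CAE.St_RedM)`.
PROOF = copy of `thm_CH3` in `Pool/Agent/CAE/RobC.lean` (`pigeon` is reused): `a = n - r - m q` for `x`. -/
def St_RC3 : Prop := ∃ (R : ℕ) (c : ℝ), 0 < c ∧ ∀ A₀ : ℕ, ∀ᶠ n : ℕ in atTop, ∀ m : ℕ,
  Admissible m n → (m : ℝ) ≤ Real.log n ^ A₀ →
  ∀ E : Finset ℕ, (E.card : ℝ) ≤ c * (n / Real.log n ^ 3) → SolRE R m n E

end Pool.Agent.RVC
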