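import Mathlib
import Pool.Agent.RVC.Stmts

set_option autoImplicit false

/-!
# RVC: the number of reversed solutions, `m ≤ (log n)^A₀`

`G` is the set of the solutions in the problem (any set which contains the good `a` outside of
`badOm`).
-/

namespace Pool.Agent.RVC

open Finset Filter Pool.Agent.MT Pool.Agent.CH

/-- the conclusion for `m ≤ (log n)^A₀`: every finite set `G` that contains all good `a` has at least
the expected order of elements -/
theorem all_rev (h : St_RC3) (h8 : CAE.St_Om8) : ∃ (R : ℕ) (c : ℝ), 0 < c ∧ ∀ A₀ : ℕ,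
    ∀ᶠ n : ℕ in atTop, ∀ m : ℕ, Admissible m n → (m : ℝ) ≤ Real.log n ^ A₀ →
    ∀ G : Finset ℕ, (∀ a : ℕ, 2 ≤ a → a < n → ArithmeticFunction.cardFactors a ≤ 2 →
      ((n - a) / m).Prime →
      ArithmeticFunction.cardFactors (((n - a) / m) ^ 2 - 2) ≤ R →
      (ArithmeticFunction.cardFactors
        (Nat.nth Nat.Prime ((n - a) / m - 1) - (n - a) / m + 1) : ℝ) ≤
          8 * Real.log (Real.log n) → a ∈ G) → c * (n / Real.log n ^ 3) < (G.card : ℝ) := by
  classical
  obtain ⟨R, c, hc, h⟩ := h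
  refine ⟨R, c / 3, by positivity, fun A₀ => ?_⟩
  have hlarge : ∀ᶠ n : ℕ in atTop, 1 ≤ c / 3 * ((n : ℝ) / Real.log n ^ 3) := by
    have h1 := (isLittleO_log_rpow_rpow_atTop (3 : ℝ) (show (0 : ℝ) < 1 by norm_num)).def
      (show (0 : ℝ) < c / 3 by positivity)
    have h2 := tendsto_natCast_atTop_atTop.eventually h1
    filter_upwards [h2, eventually_ge_atTop 3] with n hn hn3
    have hn3' : (3 : ℝ) ≤ n := by exact_mod_cast hn3
    have hlog : 0 < Real.log n := Real.log_pos (by linarith)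
    rw [Real.rpow_one, Real.norm_of_nonneg (Real.rpow_nonneg hlog.le _),
      Real.norm_of_nonneg (by linarith)] at hn
    have e : Real.log (n : ℝ) ^ (3 : ℝ) = Real.log n ^ 3 := by
      rw [← Real.rpow_natCast]
      norm_num
    rw [e] at hn
    rw [mul_div_assoc', le_div_iff₀ (pow_pos hlog 3), one_mul]
    exact hn
  filter_upwards [h A₀, h8 (c / 3) (by positivity), hlarge] with n h h8 h1 m hm hmA G hG
  by_contra hlt
  rw [not_lt] at hlt
  have h8 := h8 m hm.1
  have hE : (((insert 1 (G ∪ CAE.badOm m n)).card : ℕ) : ℝ) ≤ c * (n / Real.log n ^ 3) := by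
    have h5 : (((insert 1 (G ∪ CAE.badOm m n)).card : ℕ) : ℝ) ≤
        ((G.card : ℝ) + ((CAE.badOm m n).card : ℝ)) + 1 := by
      have h6 := card_insert_le 1 (G ∪ CAE.badOm m n)
      have h7 := card_union_le G (CAE.badOm m n)
      exact_mod_cast h6.trans (Nat.add_le_add_right h7 1)
    linarith
  obtain ⟨a, haE, han, ha2, hq, hR⟩ := h m hm hmA (insert 1 (G ∪ CAE.badOm m n)) hE
  rw [mem_insert, mem_union, not_or, not_or] at haE
  obtain ⟨ha1, haG, hab⟩ := haE
  apply haG
  have ha0 : a ≠ 0 := ha2.1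
  refine hG a (by omega) han ha2.2 hq hR.2 ?_
  by_contra hΩ
  apply hab
  rw [CAE.badOm, mem_filter, mem_range]
  exact ⟨han, hq.two_le, not_le.1 hΩ⟩

end Pool.Agent.RVC
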