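import Mathlib
import Pool.Agent.RVC.Stmts
import Pool.Agent.CH.ABV

set_option autoImplicit false

/-!
# RVC / BBV

Bombieri-Vinogradov for `a = n' - m q = p₁ p₂ p₃` in terms of `q`: `CH.St_PBVW` for the reflected
weight at `m N`.  Copy of `Pool/Agent/CH/ABV.lean`, `bt` for `lam`.
-/

namespace Pool.Agent.RVC

open Finset Filter Pool.Agent.MT Pool.Agent.CH

/-- change of variable `a = n' - m q` -/
theorem bbv_bij (η : ℝ → ℝ) (hη : IsWt η) (N m n' z y d c : ℕ) (hN : 1 ≤ N) (hm : 1 ≤ m)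
    (h1 : m * N ≤ n') (h2 : n' < m * (N + 1)) (hc : c ≤ N) :
    BAP (etaR η) (m * N) z y (m * d) (n' - m * c) =
      ∑ q ∈ (range (N + 1)).filter (fun q => q % d = c % d),
        bt z y (n' - m * q) * etaR η (((n' - m * q : ℕ) : ℝ) / ((m * N : ℕ) : ℝ)) := by
  classical
  have hmc : m * c ≤ n' := (Nat.mul_le_mul_left m hc).trans h1
  have hpos : (0 : ℝ) < ((m * N : ℕ) : ℝ) := by
    have : 0 < m * N := Nat.mul_pos hm hN
    exact_mod_cast this
  unfold BAP
  symm
  have hfil : ∑ q ∈ (range (N + 1)).filter (fun q => q % d = c % d),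
        bt z y (n' - m * q) * etaR η (((n' - m * q : ℕ) : ℝ) / ((m * N : ℕ) : ℝ)) =
      ∑ q ∈ ((range (N + 1)).filter (fun q => q % d = c % d)).filter
          (fun q => n' - m * q ≤ m * N),
        bt z y (n' - m * q) * etaR η (((n' - m * q : ℕ) : ℝ) / ((m * N : ℕ) : ℝ)) := by
    symm
    apply Finset.sum_subset (Finset.filter_subset _ _)
    intro q hq hq'
    have hgt : m * N < n' - m * q := by
      by_contra hcon
      exact hq' (Finset.mem_filter.2 ⟨hq, not_lt.1 hcon⟩)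
    have h3 : (1 : ℝ) ≤ ((n' - m * q : ℕ) : ℝ) / ((m * N : ℕ) : ℝ) := by
      rw [le_div_iff₀ hpos, one_mul]
      exact_mod_cast hgt.le
    have h4 : etaR η (((n' - m * q : ℕ) : ℝ) / ((m * N : ℕ) : ℝ)) = 0 := by
      unfold etaR
      apply wt_zero_of_small η hη
      linarith
    rw [h4, mul_zero]
  rw [hfil]
  have hcast : ∀ q : ℕ, q ≤ N → ((n' - m * q : ℕ) : ℤ) = (n' : ℤ) - m * q := by
    intro q hq
    rw [Nat.cast_sub ((Nat.mul_le_mul_left m hq).trans h1)]
    push_cast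
    ring
  refine Finset.sum_bij (fun q _ => n' - m * q) ?_ ?_ ?_ ?_
  · intro q hq
    rw [Finset.mem_filter, Finset.mem_filter, Finset.mem_range] at hq
    obtain ⟨⟨hq1, hq2⟩, hq3⟩ := hq
    rw [Finset.mem_filter, Finset.mem_range]
    refine ⟨by omega, ?_⟩
    have h5 : q ≡ c [MOD d] := hq2
    have h6 := Nat.modEq_iff_dvd.1 h5
    obtain ⟨t, ht⟩ := h6
    have h7 : n' - m * q ≡ n' - m * c [MOD (m * d)] := by
      rw [Nat.modEq_iff_dvd, hcast q (by omega), hcast c hc]
      refine ⟨-t, ?_⟩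
      push_cast
      linear_combination (-(m : ℤ)) * ht
    exact h7
  · intro a ha b hb hab
    rw [Finset.mem_filter, Finset.mem_filter, Finset.mem_range] at ha hb
    have ha1 : a ≤ N := by omega
    have hb1 : b ≤ N := by omega
    have h5 : ((n' - m * a : ℕ) : ℤ) = ((n' - m * b : ℕ) : ℤ) := by exact_mod_cast hab
    rw [hcast a ha1, hcast b hb1] at h5
    have hm0 : (m : ℤ) ≠ 0 := by exact_mod_cast (by omega : m ≠ 0)
    have h6 : (m : ℤ) * a = m * b := by linarith
    have h7 := mul_left_cancel₀ hm0 h6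
    exact_mod_cast h7
  · intro x hx
    rw [Finset.mem_filter, Finset.mem_range] at hx
    obtain ⟨hx1, hx2⟩ := hx
    have h5 : x ≡ n' - m * c [MOD (m * d)] := hx2
    have h6 := Nat.modEq_iff_dvd.1 h5
    obtain ⟨t, ht⟩ := h6
    rw [hcast c hc] at ht
    have hxn : x ≤ n' := by omega
    have h7 : ((n' - x : ℕ) : ℤ) = m * (c + d * t) := by
      rw [Nat.cast_sub hxn]
      push_cast at ht
      linear_combination ht
    have hdvd : m ∣ n' - x := by
      have : (m : ℤ) ∣ ((n' - x : ℕ) : ℤ) := ⟨_, h7⟩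
      exact_mod_cast this
    obtain ⟨q, hq⟩ := hdvd
    have hqc : (q : ℤ) = c + d * t := by
      rw [hq] at h7
      push_cast at h7
      have hm0 : (m : ℤ) ≠ 0 := by exact_mod_cast (by omega : m ≠ 0)
      exact mul_left_cancel₀ hm0 h7
    have hqN : q < N + 1 := by
      have : m * q < m * (N + 1) := by omega
      exact Nat.lt_of_mul_lt_mul_left this
    have hx3 : n' - m * q = x := by omega
    refine ⟨q, ?_, hx3⟩
    rw [Finset.mem_filter, Finset.mem_filter, Finset.mem_range]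
    refine ⟨⟨hqN, ?_⟩, by omega⟩
    have h8 : q ≡ c [MOD d] := by
      rw [Nat.modEq_iff_dvd, hqc]
      exact ⟨-t, by ring⟩
    exact h8
  · intro q _
    rfl

theorem bbv_near (η : ℝ → ℝ) (hη : IsWt η) (C : ℝ) (hC : ∀ x y : ℝ, |η x - η y| ≤ C * |x - y|)
    (hC0 : 0 ≤ C) (N m n' z y d c : ℕ) (hN : 1 ≤ N) (hm : 1 ≤ m)
    (h1 : m * N ≤ n') (h2 : n' < m * (N + 1)) (hd : 1 ≤ d) (hdN : d ≤ N) (hc : c ≤ N) :
    |BBP η N m n' z y d c - BAP (etaR η) (m * N) z y (m * d) (n' - m * c)| ≤ 2 * C / d := by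
  classical
  have hNR : (0 : ℝ) < N := by exact_mod_cast hN
  have hdR : (0 : ℝ) < d := by exact_mod_cast hd
  rw [bbv_bij η hη N m n' z y d c hN hm h1 h2 hc]
  unfold BBP
  rw [← Finset.sum_sub_distrib]
  refine (Finset.abs_sum_le_sum_abs _ _).trans ?_
  have hterm : ∀ q ∈ (range (N + 1)).filter (fun q => q % d = c % d),
      |bt z y (n' - m * q) * η ((q : ℝ) / N) -
        bt z y (n' - m * q) * etaR η (((n' - m * q : ℕ) : ℝ) / ((m * N : ℕ) : ℝ))| ≤ C / N := by
    intro q hq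
    rw [Finset.mem_filter, Finset.mem_range] at hq
    have h3 := abv_diff η C hC hC0 N m n' q hN hm h1 h2 (by omega)
    have h4 : (0 : ℝ) ≤ C / N := by positivity
    unfold bt
    split_ifs
    · rw [one_mul, one_mul]
      exact h3
    · rw [zero_mul, zero_mul, sub_zero, abs_zero]
      exact h4
  refine (Finset.sum_le_sum hterm).trans ?_
  rw [Finset.sum_const, nsmul_eq_mul]
  have hcard := Pool.Agent.GV.bvw_count N d c hd hdN
  calc ((((range (N + 1)).filter (fun n => n % d = c % d)).card : ℕ) : ℝ) * (C / N) ≤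
        (2 * N / d) * (C / N) := mul_le_mul_of_nonneg_right hcard (by positivity)
    _ = 2 * C / d := by
        field_simp

private lemma bbv_rpow_large (a c : ℝ) (ha : 0 < a) : ∀ᶠ N : ℕ in atTop, c ≤ (N : ℝ) ^ a :=
  tendsto_natCast_atTop_atTop.eventually ((tendsto_rpow_atTop ha).eventually_ge_atTop c)

/-- the limits of the products are admissible -/
theorem bbv_par : ∀ᶠ N : ℕ in atTop, Par N (zN N) (yN N) := by
  filter_upwards [bbv_rpow_large (1 / 40) 2 (by norm_num), bbv_rpow_large (1 / 15) 2 (by norm_num),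
    bbv_rpow_large (1 / 10) 2 (by norm_num), eventually_ge_atTop 16] with N e1 e2 e3 hN
  have hN0 : (0 : ℝ) < N := by exact_mod_cast (by omega : 0 < N)
  have hz : (N : ℝ) ^ (1 / 10 : ℝ) ≤ zN N := by
    have h1 : (N : ℝ) ^ (1 / 8 : ℝ) = (N : ℝ) ^ (1 / 40 : ℝ) * (N : ℝ) ^ (1 / 10 : ℝ) := by
      rw [← Real.rpow_add hN0]
      norm_num
    have h2 : (N : ℝ) ^ (1 / 8 : ℝ) < zN N + 1 := Nat.lt_floor_add_one _
    nlinarith [mul_le_mul_of_nonneg_right e1 (by positivity : (0 : ℝ) ≤ (N : ℝ) ^ (1 / 10 : ℝ))]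
  have hy1 : (yN N : ℝ) ≤ 2 * (N : ℝ) ^ (1 / 3 : ℝ) := by
    have h1 : (yN N : ℝ) < (N : ℝ) ^ (1 / 3 : ℝ) + 1 := Nat.ceil_lt_add_one (by positivity)
    have h2 : (1 : ℝ) ≤ (N : ℝ) ^ (1 / 3 : ℝ) :=
      Real.one_le_rpow (by exact_mod_cast (by omega : 1 ≤ N)) (by norm_num)
    linarith
  refine ⟨hz, ?_⟩
  have h1 : (N : ℝ) ^ (2 / 5 : ℝ) = (N : ℝ) ^ (1 / 15 : ℝ) * (N : ℝ) ^ (1 / 3 : ℝ) := by
    rw [← Real.rpow_add hN0]
    norm_num
  rw [h1]
  refine hy1.trans ?_
  exact mul_le_mul_of_nonneg_right e2 (by positivity)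

/-- **BBV.** -/
theorem thm_BBV (h0 : CH.St_PBVW) : St_BBV := by
  intro η hη θ hθ0 hθ1 A A₀ K
  classical
  obtain ⟨C, hC0, hC⟩ := wt_lipschitz η hη
  have hev := (h0 (etaR η) (abv_wt η hη) ((θ + 1 / 2) / 2) (by linarith)
    (by linarith) (A + A₀ + 1) (K + 1)).and bbv_par
  rw [eventually_atTop] at hev
  obtain ⟨N0, hN0⟩ := hev
  filter_upwards [eventually_ge_atTop (max N0 9), abv_log_pow A₀ ((1 / 2 - θ) / 2) 1 (by linarith)
    one_pos, abv_log_pow (K + 1 + A) 1 (4 * C * 2 ^ (K + 1)) one_pos (by positivity)]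
    with N hN hN2 hN3
  have hNN0 : N0 ≤ N := (le_max_left _ _).trans hN
  have hN9 : 9 ≤ N := (le_max_right _ _).trans hN
  have hN1 : 1 ≤ N := by omega
  have hN9R : (9 : ℝ) ≤ N := by exact_mod_cast hN9
  have hNR : (0 : ℝ) < N := by linarith
  have hL2 : 2 ≤ Real.log N := by
    rw [Real.le_log_iff_exp_le hNR]
    have h1 := Real.exp_one_lt_d9
    have h2 : Real.exp 2 = Real.exp 1 * Real.exp 1 := by
      rw [← Real.exp_add]
      norm_num
    rw [h2]
    have h3 := Real.exp_pos 1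
    nlinarith
  set L := Real.log N with hLdef
  have hL0 : 0 < L := by linarith
  rw [Real.rpow_one] at hN3
  intro m n' hm hmL hcop h1 h2
  have hmR : (0 : ℝ) < m := by exact_mod_cast hm
  have hmN : N ≤ m * N := Nat.le_mul_of_pos_left N hm
  have hmNR : (N : ℝ) ≤ ((m * N : ℕ) : ℝ) := by exact_mod_cast hmN
  have hX0 : (0 : ℝ) < ((m * N : ℕ) : ℝ) := hNR.trans_le hmNR
  obtain ⟨hbv, hpar⟩ := hN0 (m * N) (hNN0.trans hmN)
  obtain ⟨E', hE0, hE1, hE2⟩ := hbv _ _ hpar
  have hm_small : (m : ℝ) ≤ (N : ℝ) ^ ((1 / 2 - θ) / 2) := by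
    rw [one_mul] at hN2
    exact hmL.trans hN2
  -- the level is at most `N`
  have hdN' : ∀ d : ℕ, (d : ℝ) ≤ ((m * N : ℕ) : ℝ) ^ θ → d ≤ N := by
    intro d hd
    have h3 : ((m * N : ℕ) : ℝ) ≤ (N : ℝ) ^ (2 : ℝ) := by
      have h4 : (m : ℝ) ≤ N := by
        refine hm_small.trans ?_
        calc (N : ℝ) ^ ((1 / 2 - θ) / 2) ≤ (N : ℝ) ^ (1 : ℝ) :=
              Real.rpow_le_rpow_of_exponent_le (by linarith) (by linarith)
          _ = N := Real.rpow_one _
      push_cast
      calc (m : ℝ) * N ≤ N * N := by gcongr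
        _ = (N : ℝ) ^ (2 : ℝ) := by
            rw [Real.rpow_two]
            ring
    have h5 : (d : ℝ) ≤ N := by
      calc (d : ℝ) ≤ ((m * N : ℕ) : ℝ) ^ θ := hd
        _ ≤ ((N : ℝ) ^ (2 : ℝ)) ^ θ := Real.rpow_le_rpow hX0.le h3 hθ0.le
        _ = (N : ℝ) ^ (2 * θ) := by rw [← Real.rpow_mul hNR.le]
        _ ≤ (N : ℝ) ^ (1 : ℝ) :=
            Real.rpow_le_rpow_of_exponent_le (by linarith) (by linarith)
        _ = N := Real.rpow_one _
    exact_mod_cast h5
  -- the modulus `m d`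
  have hmd : ∀ d : ℕ, (d : ℝ) ≤ ((m * N : ℕ) : ℝ) ^ θ →
      ((m * d : ℕ) : ℝ) ≤ ((m * N : ℕ) : ℝ) ^ ((θ + 1 / 2) / 2) := by
    intro d hd
    have h3 : (m : ℝ) ≤ ((m * N : ℕ) : ℝ) ^ ((1 / 2 - θ) / 2) :=
      hm_small.trans (Real.rpow_le_rpow hNR.le hmNR (by linarith))
    calc ((m * d : ℕ) : ℝ) = (m : ℝ) * d := by push_cast; ring
      _ ≤ ((m * N : ℕ) : ℝ) ^ ((1 / 2 - θ) / 2) * ((m * N : ℕ) : ℝ) ^ θ := by gcongr
      _ = ((m * N : ℕ) : ℝ) ^ ((θ + 1 / 2) / 2) := by
          rw [← Real.rpow_add hX0]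
          congr 1
          ring
  refine ⟨fun d => E' (m * d) + 2 * C / d, ?_, ?_, ?_⟩
  · intro d
    have := hE0 (m * d)
    positivity
  · intro d c hd hdN hc hcd
    have hdN1 : d ≤ N := hdN' d hdN
    have hcN : c ≤ N := by omega
    have hA := bbv_near η hη C hC hC0.le N m n' (zN (m * N)) (yN (m * N)) d c hN1 hm h1 h2 hd hdN1
      hcN
    have hB := hE1 (m * d) (n' - m * c) (Nat.mul_pos hm hd) (hmd d hdN)
      (Nat.Coprime.mul_right (abv_coprime N m n' c h1 hcN hcop) hcd)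
    calc |BBP η N m n' (zN (m * N)) (yN (m * N)) d c -
            B0 (etaR η) (m * N) (zN (m * N)) (yN (m * N)) / ((m * d).totient : ℝ)| ≤
          |BBP η N m n' (zN (m * N)) (yN (m * N)) d c -
            BAP (etaR η) (m * N) (zN (m * N)) (yN (m * N)) (m * d) (n' - m * c)| +
          |BAP (etaR η) (m * N) (zN (m * N)) (yN (m * N)) (m * d) (n' - m * c) -
            B0 (etaR η) (m * N) (zN (m * N)) (yN (m * N)) / ((m * d).totient : ℝ)| :=
          abs_sub_le _ _ _
      _ ≤ 2 * C / d + E' (m * d) := add_le_add hA hB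
      _ = E' (m * d) + 2 * C / d := add_comm _ _
  · set F := (Icc 1 (m * N)).filter (fun d : ℕ => (d : ℝ) ≤ ((m * N : ℕ) : ℝ) ^ θ) with hF
    have hFN : F ⊆ Icc 1 N := by
      intro d hd
      rw [hF, Finset.mem_filter, Finset.mem_Icc] at hd
      rw [Finset.mem_Icc]
      exact ⟨hd.1.1, hdN' d hd.2⟩
    have hK : ∀ j : ℕ, (K : ℝ) ^ j ≤ ((K + 1 : ℕ) : ℝ) ^ j := by
      intro j
      apply pow_le_pow_left₀ (by positivity)
      push_cast
      linarith
    have hK1 : (1 : ℝ) ≤ ((K + 1 : ℕ) : ℝ) := by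
      push_cast
      have : (0 : ℝ) ≤ K := by positivity
      linarith
    have hsplit : ∑ d ∈ F, (K : ℝ) ^ d.primeFactors.card * (E' (m * d) + 2 * C / d) ≤
        ∑ d ∈ F, ((K + 1 : ℕ) : ℝ) ^ (m * d).primeFactors.card * E' (m * d) +
        2 * C * ∑ d ∈ F, ((K + 1 : ℕ) : ℝ) ^ d.primeFactors.card / d := by
      rw [Finset.mul_sum, ← Finset.sum_add_distrib]
      apply Finset.sum_le_sum
      intro d hd
      rw [hF, Finset.mem_filter, Finset.mem_Icc] at hd
      have hd0 : d ≠ 0 := by omega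
      have hdR : (0 : ℝ) < d := by exact_mod_cast hd.1.1
      have h3 : (K : ℝ) ^ d.primeFactors.card ≤
          ((K + 1 : ℕ) : ℝ) ^ (m * d).primeFactors.card := by
        refine (hK _).trans ?_
        apply pow_le_pow_right₀ hK1
        apply Finset.card_le_card
        exact Nat.primeFactors_mono (Dvd.intro_left m rfl) (Nat.mul_ne_zero (by omega) hd0)
      have h4 := hE0 (m * d)
      have h5 := hK d.primeFactors.card
      calc (K : ℝ) ^ d.primeFactors.card * (E' (m * d) + 2 * C / d) =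
            (K : ℝ) ^ d.primeFactors.card * E' (m * d) +
            2 * C * ((K : ℝ) ^ d.primeFactors.card / d) := by
              field_simp
        _ ≤ ((K + 1 : ℕ) : ℝ) ^ (m * d).primeFactors.card * E' (m * d) +
            2 * C * (((K + 1 : ℕ) : ℝ) ^ d.primeFactors.card / d) := by
              gcongr
    have hfirst : ∑ d ∈ F, ((K + 1 : ℕ) : ℝ) ^ (m * d).primeFactors.card * E' (m * d) ≤
        ((m * N : ℕ) : ℝ) / Real.log ((m * N : ℕ) : ℝ) ^ (A + A₀ + 1) := by
      refine le_trans ?_ hE2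
      have hinj : Set.InjOn (fun d => m * d) (F : Set ℕ) := by
        intro a _ b _ hab
        exact Nat.eq_of_mul_eq_mul_left hm hab
      have himg : ∑ d ∈ F, ((K + 1 : ℕ) : ℝ) ^ (m * d).primeFactors.card * E' (m * d) =
          ∑ q ∈ F.image (fun d => m * d), ((K + 1 : ℕ) : ℝ) ^ q.primeFactors.card * E' q := by
        rw [Finset.sum_image hinj]
      rw [himg]
      apply Finset.sum_le_sum_of_subset_of_nonneg
      · intro q hq
        rw [Finset.mem_image] at hq
        obtain ⟨d, hd, rfl⟩ := hq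
        have hd' := hFN hd
        rw [Finset.mem_Icc] at hd'
        rw [hF, Finset.mem_filter, Finset.mem_Icc] at hd
        rw [Finset.mem_filter, Finset.mem_Icc]
        exact ⟨⟨Nat.mul_pos hm hd'.1, Nat.mul_le_mul_left m hd'.2⟩, hmd d hd.2⟩
      · intro q _ _
        have := hE0 q
        positivity
    have hfirst2 : ((m * N : ℕ) : ℝ) / Real.log ((m * N : ℕ) : ℝ) ^ (A + A₀ + 1) ≤
        N / (2 * L ^ A) := by
      have h3 : L ≤ Real.log ((m * N : ℕ) : ℝ) := by
        apply Real.log_le_log hNR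
        exact_mod_cast hmN
      have h4 : L ^ (A + A₀ + 1) ≤ Real.log ((m * N : ℕ) : ℝ) ^ (A + A₀ + 1) :=
        pow_le_pow_left₀ hL0.le h3 _
      calc ((m * N : ℕ) : ℝ) / Real.log ((m * N : ℕ) : ℝ) ^ (A + A₀ + 1) ≤
            (L ^ A₀ * N) / L ^ (A + A₀ + 1) := by
              push_cast at h4 ⊢
              apply div_le_div₀ (by positivity) _ (by positivity) h4
              gcongr
        _ = N / (L ^ A * L) := by
              rw [pow_succ, pow_add]
              field_simp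
        _ ≤ N / (2 * L ^ A) := by
              apply div_le_div_of_nonneg_left hNR.le (by positivity)
              have : 0 < L ^ A := by positivity
              nlinarith
    have hsecond : 2 * C * ∑ d ∈ F, ((K + 1 : ℕ) : ℝ) ^ d.primeFactors.card / d ≤
        N / (2 * L ^ A) := by
      have h3 : ∑ d ∈ F, ((K + 1 : ℕ) : ℝ) ^ d.primeFactors.card / d ≤ (1 + L) ^ (K + 1) := by
        refine le_trans ?_ (Pool.Agent.GV.bvw_omega_sum N hN1 (K + 1))
        apply Finset.sum_le_sum_of_subset_of_nonneg hFN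
        intro q _ _
        positivity
      have h4 : (1 + L) ^ (K + 1) ≤ (2 * L) ^ (K + 1) :=
        pow_le_pow_left₀ (by linarith) (by linarith) _
      have h5 : 0 < L ^ A := by positivity
      rw [le_div_iff₀ (by positivity)]
      calc 2 * C * (∑ d ∈ F, ((K + 1 : ℕ) : ℝ) ^ d.primeFactors.card / d) * (2 * L ^ A) ≤
            2 * C * (2 * L) ^ (K + 1) * (2 * L ^ A) := by
              gcongr
              exact h3.trans h4
        _ = 4 * C * 2 ^ (K + 1) * L ^ (K + 1 + A) := by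
              rw [mul_pow]
              ring
        _ ≤ N := hN3
    have hhalf : (N : ℝ) / (2 * L ^ A) + N / (2 * L ^ A) = N / L ^ A := by
      field_simp
      ring
    calc _ ≤ _ := hsplit
      _ ≤ N / (2 * L ^ A) + N / (2 * L ^ A) := add_le_add (hfirst.trans hfirst2) hsecond
      _ = N / L ^ A := hhalf

end Pool.Agent.RVC
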