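import Mathlib
import Pool.Agent.RVC.Stmts
import Pool.Agent.GV.Asm
import Pool.Agent.CH.SA

set_option autoImplicit false

/-!
# RVC / BVM

Bombieri-Vinogradov for `q`, with the level as a power of `m N`.
-/

namespace Pool.Agent.RVC

open Finset Filter Pool.Agent.MT Pool.Agent.CH

/-- `(m N)^θ ≤ N^θ'` -/
theorem bvm_pow {N m A₀ : ℕ} {θ θ' : ℝ} (hN : 1 ≤ N) (hm : 1 ≤ m) (hθ0 : 0 < θ) (hθ1 : θ < 1)
    (hlog : (m : ℝ) ≤ Real.log N ^ A₀) (h : 1 * Real.log N ^ A₀ ≤ (N : ℝ) ^ (θ' - θ)) :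
    ((m * N : ℕ) : ℝ) ^ θ ≤ (N : ℝ) ^ θ' := by
  have hNR : (0 : ℝ) < N := by exact_mod_cast hN
  have hmR : (1 : ℝ) ≤ m := by exact_mod_cast hm
  push_cast
  rw [Real.mul_rpow (by linarith) hNR.le]
  have h1 : (m : ℝ) ^ θ ≤ (N : ℝ) ^ (θ' - θ) := by
    calc (m : ℝ) ^ θ ≤ (m : ℝ) ^ (1 : ℝ) := Real.rpow_le_rpow_of_exponent_le hmR hθ1.le
      _ = m := Real.rpow_one _
      _ ≤ (N : ℝ) ^ (θ' - θ) := by linarith
  calc (m : ℝ) ^ θ * (N : ℝ) ^ θ ≤ (N : ℝ) ^ (θ' - θ) * (N : ℝ) ^ θ := by gcongr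
    _ = (N : ℝ) ^ θ' := by
        rw [← Real.rpow_add hNR]
        congr 1
        ring

theorem thm_BVM : St_BVM := by
  intro η hη θ hθ0 hθ1 A A₀ K
  have hB := Pool.Agent.GV.bvw η hη ((θ + 1 / 2) / 2) (by linarith) (by linarith) A K
  filter_upwards [hB, sa_log_pow A₀ ((1 / 2 - θ) / 2) 1 (by linarith) one_pos,
    eventually_ge_atTop 1] with N hN hlog hN1 m hm hmL
  obtain ⟨E, hE0, hE1, hE2⟩ := hN
  have hpow : ((m * N : ℕ) : ℝ) ^ θ ≤ (N : ℝ) ^ ((θ + 1 / 2) / 2) := by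
    apply bvm_pow hN1 hm hθ0 (by linarith) hmL
    have h1 : (θ + 1 / 2) / 2 - θ = (1 / 2 - θ) / 2 := by ring
    rw [h1]
    exact hlog
  have hNR : (1 : ℝ) ≤ N := by exact_mod_cast hN1
  refine ⟨E, hE0, ?_, ?_⟩
  · intro d c hd hdN hc hcop
    have h1 := hE1 d c hd (hdN.trans hpow) hcop
    unfold psiAP at h1
    rw [Nat.mod_eq_of_lt hc] at h1
    exact h1
  · refine le_trans ?_ hE2
    apply sum_le_sum_of_subset_of_nonneg
    · intro d hd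
      rw [mem_filter, mem_Icc] at hd ⊢
      have h2 : (d : ℝ) ≤ (N : ℝ) ^ ((θ + 1 / 2) / 2) := hd.2.trans hpow
      refine ⟨⟨hd.1.1, ?_⟩, h2⟩
      have h3 : (N : ℝ) ^ ((θ + 1 / 2) / 2) ≤ (N : ℝ) ^ (1 : ℝ) :=
        Real.rpow_le_rpow_of_exponent_le hNR (by linarith)
      rw [Real.rpow_one] at h3
      exact_mod_cast h2.trans h3
    · intro d _ _
      have := hE0 d
      positivity

end Pool.Agent.RVC
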