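import Mathlib
import Pool.Agent.RVC.Stmts
import Pool.Agent.CH.SA

set_option autoImplicit false

/-!
# RVC / RA

Lower bound for the number of primes `q` with `n' - m q` without prime factors up to `z` and
`q ^ 2 - 2` without prime factors up to `w`, from the linear sieve (`s = 4`).
-/

namespace Pool.Agent.RVC

open Finset Filter Pool.Agent.MT Pool.Agent.CH

theorem ra_local (w m n' d : ℕ) (hd : Squarefree d) :
    (1 / (d.totient : ℝ)) * ∏ l ∈ d.primeFactors, ((OmB w m n' l).card : ℝ) =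
      ∏ l ∈ d.primeFactors, gB w m n' l := by
  classical
  have h1 := sa_phi 1 d.primeFactors (fun l hl => Nat.prime_of_mem_primeFactors hl)
  rw [Nat.prod_primeFactors_of_squarefree hd, one_mul, Nat.totient_one, Nat.cast_one, one_mul] at h1
  have h3 : ∏ l ∈ d.primeFactors, (if l ∣ 1 then (l : ℝ) else (l : ℝ) - 1) =
      ∏ l ∈ d.primeFactors, ((l : ℝ) - 1) := by
    apply Finset.prod_congr rfl
    intro l hl
    rw [if_neg]
    intro h
    exact (Nat.prime_of_mem_primeFactors hl).one_lt.ne' (Nat.dvd_one.1 h)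
  rw [h3] at h1
  rw [h1]
  unfold gB
  rw [Finset.prod_div_distrib]
  ring

theorem ra_coprime (w m n' d a : ℕ) (h : ∀ l ∈ d.primeFactors, a % l ∈ OmB w m n' l)
    (hd : d ≠ 0) : a.Coprime d := by
  classical
  apply Nat.coprime_of_dvd
  intro l hl h1 h2
  have h3 := h l (Nat.mem_primeFactors.2 ⟨hl, h2, hd⟩)
  unfold OmB at h3
  rw [Finset.mem_filter] at h3
  exact h3.2.1 (Nat.mod_eq_zero_of_dvd h1)

/-- the density satisfies the hypotheses of the sieve -/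
theorem ra_dns (h4 : St_Dens) (X m n' y : ℕ) (δ : ℝ) (hδ : 0 < δ) (hX : 2 ≤ X) (hm : 1 ≤ m)
    (hmw : (m : ℝ) ≤ (X : ℝ) ^ δ) (hcop : n'.Coprime m) (hpar : (n' + m) % 2 = 1)
    (hn1 : 1 ≤ n') (hn' : (n' : ℝ) ≤ (X : ℝ) ^ 2) :
    Dns ⌊(X : ℝ) ^ δ⌋₊ y ⌈2 / δ⌉₊ (gB (wN δ X) m n') := by
  classical
  obtain ⟨hD1, hD2, hD3⟩ := h4 (wN δ X) m n' hm hcop hpar
  have hmw' : m ≤ wN δ X := Nat.le_floor hmw
  have hnm : ∀ l : ℕ, wN δ X < l → ¬ l ∣ m := by
    intro l hl h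
    have := Nat.le_of_dvd (by omega) h
    omega
  refine ⟨fun l hl => ⟨(hD1 l hl).2.2.2.2.2.1, (hD1 l hl).2.2.2.2.2.2.1,
    (hD1 l hl).2.2.2.2.2.2.2⟩, ?_, ?_⟩
  · intro l hl hwl _
    have h5 := hD2 l hl hwl (hnm l hwl)
    rw [h5.1]
    by_cases h6 : l ∣ n'
    · exact Or.inl (h5.2.1 h6)
    · exact Or.inr (h5.2.2 h6)
  · apply sa_count X n' δ hδ hX hn1 hn'
    · intro l hl
      rw [Finset.mem_filter] at hl
      have hlp : l.Prime := by
        have := hl.1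
        unfold pr at this
        exact (Finset.mem_filter.1 this).2
      refine ⟨hlp, ?_⟩
      by_contra hcon
      have h5 := hD2 l hlp hl.2.1 (hnm l hl.2.1)
      have h8 := h5.2.2 hcon
      rw [← h5.1, hl.2.2] at h8
      have h6 : (0 : ℝ) < 1 / ((l : ℝ) - 1) := by
        have h7 : (2 : ℝ) ≤ l := by exact_mod_cast hlp.two_le
        apply one_div_pos.2
        linarith
      linarith
    · intro l hl
      rw [Finset.mem_filter] at hl
      have h5 := Nat.lt_floor_add_one ((X : ℝ) ^ δ)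
      have h6 : ((wN δ X : ℕ) : ℝ) + 1 ≤ l := by exact_mod_cast hl.2.1
      unfold wN at h6
      linarith

/-- `n' ≤ X ^ 2` -/
theorem ra_nn (N m n' : ℕ) (hN : 2 ≤ N) (hm : 1 ≤ m) (h2 : n' < m * (N + 1)) :
    (n' : ℝ) ≤ ((m * N : ℕ) : ℝ) ^ 2 := by
  have h3 : m * (N + 1) ≤ (m * N) ^ 2 := by
    have h4 : m * N ≤ (m * N) * (m * N) := Nat.le_mul_self _
    have h5 : m * (N + 1) ≤ m * N * 2 := by nlinarith
    have h6 : m * N * 2 ≤ m * N * (m * N) := by
      apply Nat.mul_le_mul_left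
      nlinarith
    calc m * (N + 1) ≤ m * N * 2 := h5
      _ ≤ m * N * (m * N) := h6
      _ = (m * N) ^ 2 := by ring
  exact_mod_cast h2.le.trans h3

/-- `log (m N) ≤ 2 log N` -/
theorem ra_log (N m : ℕ) (hN : 1 ≤ N) (hm : 1 ≤ m) (h : (m : ℝ) ≤ (N : ℝ) ^ (1 / 4 : ℝ)) :
    Real.log ((m * N : ℕ) : ℝ) ≤ 2 * Real.log N := by
  have hNR : (1 : ℝ) ≤ N := by exact_mod_cast hN
  have hmR : (0 : ℝ) < m := by exact_mod_cast hm
  have h1 : (m : ℝ) ≤ N := by
    calc (m : ℝ) ≤ (N : ℝ) ^ (1 / 4 : ℝ) := h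
      _ ≤ (N : ℝ) ^ (1 : ℝ) := Real.rpow_le_rpow_of_exponent_le hNR (by norm_num)
      _ = N := Real.rpow_one _
  have h2 : ((m * N : ℕ) : ℝ) ≤ (N : ℝ) ^ (2 : ℕ) := by
    push_cast
    nlinarith
  have h3 := Real.log_le_log (by push_cast; positivity) h2
  rw [Real.log_pow] at h3
  exact_mod_cast h3

/-- keep this signature -/
theorem thm_RA (A0 : ℝ) (hA0 : 0 < A0) (h0 : CH.St_LinL A0) (h1 : St_BVM) (h2 : CH.St_Gen)
    (h3 : CH.St_VLow) (h4 : CH.St_Dens) (h5 : CH.St_P1) : St_RA A0 := by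
  classical
  intro η hη ε hε
  set τ : ℝ := min (1 / 16) (ε / (16 * (A0 + 1))) with hτdef
  have hA1 : 0 < A0 + 1 := by linarith
  have hτ0 : 0 < τ := lt_min (by norm_num) (by positivity)
  have hτ1 : τ ≤ 1 / 16 := min_le_left _ _
  have hτ2 : τ ≤ ε / (16 * (A0 + 1)) := min_le_right _ _
  set ε' : ℝ := min (τ / 2) (ε / 4) with hε'def
  have hε'0 : 0 < ε' := lt_min (by positivity) (by positivity)
  have hε'1 : ε' ≤ τ / 2 := min_le_left _ _
  have hε'2 : ε' ≤ ε / 4 := min_le_right _ _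
  set ε₁ : ℝ := ε / (16 * (A0 + 1)) with hε₁def
  have hε₁0 : 0 < ε₁ := by positivity
  set ε₂ : ℝ := ε / 8 with hε₂def
  have hε₂0 : 0 < ε₂ := by positivity
  obtain ⟨hI1, hI2, hI3⟩ := sa_int η hη
  set I := ∫ t in (0 : ℝ)..1, η t with hIdef
  obtain ⟨δ₀, C, hδ₀, hL⟩ := h0 ε' hε'0
  obtain ⟨cV, kV, hcV, hV⟩ := h3
  refine ⟨min δ₀ (1 / 8), lt_min hδ₀ (by norm_num), ?_⟩
  intro δ hδ hδ1 A₀
  have hδ2 : δ ≤ δ₀ := hδ1.trans (min_le_left _ _)
  have hδ3 : δ ≤ 1 / 8 := hδ1.trans (min_le_right _ _)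
  have hLδ := hL δ hδ hδ2 ⌈2 / δ⌉₊
  have hAB := h1 η hη (1 / 2 - τ / 2) (by linarith) (by linarith) (kV + 1) A₀ (3 * C)
  have hP := h5 η hη ε₁ hε₁0
  obtain ⟨X1, hX1⟩ := eventually_atTop.1 (hLδ.and
    ((sa_floor (1 / 10) (1 / 8) (by norm_num) (by norm_num)).and
    (sa_floor ((1 / 2 - τ) / 4) (1 / 8) (by linarith) (by linarith))))
  filter_upwards [hAB, hP, eventually_ge_atTop (max X1 256),
    sa_log_pow A₀ δ 1 hδ one_pos, sa_log_pow A₀ (1 / 4) 1 (by norm_num) one_pos,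
    sa_log_large (2 * C / (ε₂ * cV) + 1)] with N hABN hPm hN hmd hm4 hlarge
  have hNX1 : X1 ≤ N := (le_max_left _ _).trans hN
  have hN256 : 256 ≤ N := (le_max_right _ _).trans hN
  have hNR : (256 : ℝ) ≤ N := by exact_mod_cast hN256
  have hNpos : (0 : ℝ) < N := by linarith
  intro m n' hSit
  obtain ⟨hm, hmL, hcop, hpar, hmn1, hmn2⟩ := hSit
  have hmR : (1 : ℝ) ≤ m := by exact_mod_cast hm
  rw [one_mul] at hmd hm4
  have hmδ : (m : ℝ) ≤ (N : ℝ) ^ δ := hmL.trans hmd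
  have hm4' : (m : ℝ) ≤ (N : ℝ) ^ (1 / 4 : ℝ) := hmL.trans hm4
  have hmN : N ≤ m * N := Nat.le_mul_of_pos_left N hm
  -- the scale
  have hlogX := ra_log N m (by omega) hm hm4'
  have hnn := ra_nn N m n' (by omega) hm hmn2
  obtain ⟨X, hX⟩ : ∃ X : ℕ, X = m * N := ⟨_, rfl⟩
  rw [← hX] at hlogX hnn hmN hmn1 ⊢
  obtain ⟨hLN, hz1, hz2⟩ := hX1 X (hNX1.trans hmN)
  have hXR : (256 : ℝ) ≤ X := by
    have : ((N : ℕ) : ℝ) ≤ X := by exact_mod_cast hmN
    linarith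
  have hXpos : (0 : ℝ) < X := by linarith
  have hNX : (N : ℝ) ≤ X := by exact_mod_cast hmN
  have hmδX : (m : ℝ) ≤ (X : ℝ) ^ δ := hmδ.trans (Real.rpow_le_rpow hNpos.le hNX hδ.le)
  have hn1 : 1 ≤ n' := by omega
  have hdns := ra_dns h4 X m n' (zN X) δ hδ (by omega) hm hmδX hcop hpar hn1 hnn
  obtain ⟨hD1, hD2, hD3⟩ := h4 (wN δ X) m n' hm hcop hpar
  -- the parameters of the sieve
  set z := zN X with hzdef
  have hz1' : (X : ℝ) ^ (1 / 10 : ℝ) ≤ z := hz1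
  have hz2' : (X : ℝ) ^ ((1 / 2 - τ) / 4) ≤ z := hz2
  have hzup : (z : ℝ) ≤ (X : ℝ) ^ (1 / 8 : ℝ) := Nat.floor_le (by positivity)
  have hzone : (1 : ℝ) ≤ z := by
    have h6 : 1 ≤ (X : ℝ) ^ (1 / 10 : ℝ) := Real.one_le_rpow (by linarith) (by norm_num)
    linarith
  set D := (X : ℝ) ^ (1 / 2 - τ) with hDdef
  have hDz2 : (z : ℝ) ^ 2 ≤ D := by
    calc (z : ℝ) ^ 2 ≤ ((X : ℝ) ^ (1 / 8 : ℝ)) ^ 2 := by gcongr
      _ = (X : ℝ) ^ (1 / 4 : ℝ) := by
          rw [← Real.rpow_natCast, ← Real.rpow_mul hXpos.le]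
          norm_num
      _ ≤ D := Real.rpow_le_rpow_of_exponent_le (by linarith) (by linarith)
  have hDz4 : D ≤ (z : ℝ) ^ 4 := by
    calc D = ((X : ℝ) ^ ((1 / 2 - τ) / 4)) ^ 4 := by
          rw [← Real.rpow_natCast, ← Real.rpow_mul hXpos.le, hDdef]
          congr 1
          push_cast
          ring
      _ ≤ (z : ℝ) ^ 4 := by gcongr
  have hDN : D ≤ X := by
    calc D ≤ (X : ℝ) ^ (1 : ℝ) := Real.rpow_le_rpow_of_exponent_le (by linarith) (by linarith)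
      _ = X := Real.rpow_one _
  obtain ⟨c, hc1, hc2, hc3, hc4⟩ := hLN z D hz1' hDz2 hDz4 hDN (gB (wN δ X) m n') hdns
  -- logarithms
  set L := Real.log X with hLdef
  have hL0 : 0 < L := Real.log_pos (by linarith)
  set l := Real.log N with hldef
  have hl0 : 0 < l := Real.log_pos (by linarith)
  have hlogD : Real.log D = (1 / 2 - τ) * L := by
    rw [hDdef, Real.log_rpow hXpos]
  have hlz1 : Real.log z ≤ L / 8 := by
    calc Real.log z ≤ Real.log ((X : ℝ) ^ (1 / 8 : ℝ)) := Real.log_le_log (by linarith) hzup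
      _ = L / 8 := by rw [Real.log_rpow hXpos]; ring
  have hlz2 : (1 / 2 - τ) * L ≤ 4 * Real.log z := by
    rw [← hlogD]
    calc Real.log D ≤ Real.log ((z : ℝ) ^ 4) := Real.log_le_log (by positivity) hDz4
      _ = 4 * Real.log z := by rw [Real.log_pow]; push_cast; ring
  obtain ⟨hf1, hf2, hf3⟩ := sa_sieve L (Real.log z) τ hL0 hτ0.le hτ1 hlz1 hlz2
  rw [hlogD] at hc3
  -- Bombieri-Vinogradov
  obtain ⟨E, hE0, hE1, hE2⟩ := hABN m hm hmL
  rw [← hX] at hE1 hE2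
  have hcsupp : ∀ d, c d ≠ 0 → (d : ℝ) ≤ (X : ℝ) ^ (1 / 2 - τ / 2) := by
    intro d hd
    refine (hc1 d hd).2.2.trans ?_
    rw [hDdef, ← Real.rpow_add hXpos]
    exact Real.rpow_le_rpow_of_exponent_le (by linarith) (by linarith)
  have hcN : ∀ d, c d ≠ 0 → d < X := by
    intro d hd
    have h6 := hcsupp d hd
    have h7 : (X : ℝ) ^ (1 / 2 - τ / 2) < (X : ℝ) ^ (1 : ℝ) :=
      Real.rpow_lt_rpow_of_exponent_lt (by linarith) (by linarith)
    rw [Real.rpow_one] at h7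
    exact_mod_cast h6.trans_lt h7
  set ϖ : ℕ → ℝ := fun q => lam q * η ((q : ℝ) / N) with hϖdef
  have hϖ0 : ∀ q, 0 ≤ ϖ q := fun q =>
    mul_nonneg ArithmeticFunction.vonMangoldt_nonneg (hη.nonneg _)
  have hgen := h2 ϖ c (fun d => 1 / (d.totient : ℝ)) E (fun l => OmB (wN δ X) m n' l)
    (pr z) N (X ^ 2) 3 (psi0 η N)
    (fun l hl => by unfold pr at hl; exact (Finset.mem_filter.1 hl).2)
    (fun l hl => by
      have hlp : l.Prime := by unfold pr at hl; exact (Finset.mem_filter.1 hl).2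
      exact ⟨Finset.filter_subset _ _, (hD1 l hlp).2.1⟩)
    (fun d hd => by
      refine ⟨(hc1 d hd).1, ?_, ?_⟩
      · intro p hp
        unfold pr
        rw [Finset.mem_filter, Finset.mem_range]
        refine ⟨?_, Nat.prime_of_mem_primeFactors hp⟩
        have h6 := (hc1 d hd).2.1 p hp
        omega
      · have h6 := hcN d hd
        have h7 : X ≤ X ^ 2 := Nat.le_self_pow (by norm_num) X
        omega)
    hE0
    (fun d hd a ha hal => by
      have hd0 : d ≠ 0 := (hc1 d hd).1.ne_zero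
      have h6 := hE1 d a (by omega) (hcsupp d hd) ha
        (ra_coprime (wN δ X) m n' d a hal hd0)
      rw [mul_one_div]
      exact h6)
  -- the main term
  have hmain : psi0 η N * ∑ d ∈ Icc 1 (X ^ 2), c d *
      (1 / (d.totient : ℝ) * ∏ l ∈ d.primeFactors, ((OmB (wN δ X) m n' l).card : ℝ)) =
      psi0 η N * ∑ d ∈ Icc 1 (X ^ 2), c d * ∏ p ∈ d.primeFactors, gB (wN δ X) m n' p := by
    congr 1
    apply Finset.sum_congr rfl
    intro d _
    by_cases hd : c d = 0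
    · rw [hd]
      ring
    · rw [ra_local (wN δ X) m n' d (hc1 d hd).1]
  have herr := sa_err X C (1 / 2 - τ / 2) (N / l ^ (kV + 1)) (by linarith) (by omega) c E hcsupp
    hc2 hE0 hE2
  have hsift := sa_sift ϖ c hϖ0 (fun l => OmB (wN δ X) m n' l) z N hc4
  have hVpos : 0 ≤ VV (gB (wN δ X) m n') z := by
    unfold VV
    apply Finset.prod_nonneg
    intro l hl
    have hlp : l.Prime := by unfold pr at hl; exact (Finset.mem_filter.1 hl).2
    have := (hD1 l hlp).2.2.2.2.2.2.1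
    linarith
  have hpsi0 : 0 ≤ psi0 η N := by
    unfold psi0
    apply Finset.sum_nonneg
    intro q _
    exact mul_nonneg ArithmeticFunction.vonMangoldt_nonneg (hη.nonneg _)
  -- assemble
  have hlow : psi0 η N * VV (gB (wN δ X) m n') z *
      (A0 * (Real.log ((1 / 2 - τ) * L / Real.log z - 1) * Real.log z / ((1 / 2 - τ) * L)) - ε') ≤
      psi0 η N * ∑ d ∈ Icc 1 (X ^ 2), c d * ∏ p ∈ d.primeFactors, gB (wN δ X) m n' p := by
    have h6 := mul_le_mul_of_nonneg_left hc3 hpsi0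
    refine le_trans (le_of_eq ?_) h6
    ring
  have hgen2 := (abs_sub_le_iff.1 hgen).2
  rw [hmain] at hgen2
  have hErrUU : C * (N / l ^ (kV + 1)) ≤ ε₂ * (I * N * VV (gB (wN δ X) m n') z) := by
    have hz2n : 2 ≤ z := by
      have h6 : (256 : ℝ) ^ (1 / 8 : ℝ) = 2 := by
        have h7 : (256 : ℝ) = 2 ^ (8 : ℝ) := by norm_num
        rw [h7, ← Real.rpow_mul (by norm_num)]
        norm_num
      have h7 : (2 : ℝ) ≤ (X : ℝ) ^ (1 / 8 : ℝ) := by
        rw [← h6]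
        exact Real.rpow_le_rpow (by norm_num) hXR (by norm_num)
      exact Nat.le_floor h7
    have h6 := hV z (gB (wN δ X) m n') hz2n
      (fun l hl => ⟨(hD1 l hl).2.2.2.2.2.1, (hD1 l hl).2.2.2.2.2.2.1, (hD1 l hl).2.2.2.2.2.2.2⟩)
    have hlz0 : 0 < Real.log z := Real.log_pos (by exact_mod_cast hz2n)
    have h7 : cV / l ^ kV ≤ VV (gB (wN δ X) m n') z := by
      refine le_trans ?_ h6
      apply div_le_div_of_nonneg_left hcV.le (by positivity)
      apply pow_le_pow_left₀ hlz0.le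
      linarith
    have h8 : (C : ℝ) * (N / l ^ (kV + 1)) ≤ ε₂ * (1 / 2 * N * (cV / l ^ kV)) := by
      have h9 : 2 * C / (ε₂ * cV) ≤ l := by linarith
      rw [div_le_iff₀ (by positivity)] at h9
      have h10 : (C : ℝ) * (N / l ^ (kV + 1)) = (2 * C) * (N / (2 * l ^ kV * l)) := by
        rw [pow_succ]
        field_simp
      rw [h10]
      calc (2 * C) * (N / (2 * l ^ kV * l)) ≤ (l * (ε₂ * cV)) * (N / (2 * l ^ kV * l)) := by
            gcongr
        _ = ε₂ * (1 / 2 * N * (cV / l ^ kV)) := by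
            field_simp
    refine h8.trans ?_
    have h11 : 0 ≤ cV / l ^ kV := by positivity
    gcongr
  have hUU : UR η δ N m n' = I * N * VV (gB (wN δ X) m n') z := by
    unfold UR
    rw [← hX]
  rw [hUU]
  have hPm' : |psi0 η N - 1 * N * I| ≤ ε₁ * (1 * N) := by
    rw [one_mul]
    exact hPm
  refine sa_final A0 ε τ ε' ε₁ ε₂ I N (VV (gB (wN δ X) m n') z) (psi0 η N) 1
    (A0 * (Real.log ((1 / 2 - τ) * L / Real.log z - 1) * Real.log z / ((1 / 2 - τ) * L)) - ε')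
    (Real.log ((1 / 2 - τ) * L / Real.log z - 1) * Real.log z / ((1 / 2 - τ) * L))
    (C * (N / l ^ (kV + 1))) _ hA0 hI1 hNpos hVpos one_pos hPm' rfl hf1 hf2 hf3 hε'0.le
    (by linarith) hε₁0.le ?_ hErrUU ?_
  · have h6 : 4 * A0 * τ ≤ ε / 4 := by
      have h7 : τ * (16 * (A0 + 1)) ≤ ε := by
        rw [le_div_iff₀ (by positivity)] at hτ2
        exact hτ2
      nlinarith
    have h8 : 2 * ε₁ * (A0 + 1) = ε / 8 := by
      rw [hε₁def]
      field_simp
      norm_num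
    rw [h8, hε₂def]
    linarith
  · have h6 : ∑ d ∈ Icc 1 (X ^ 2), |c d| * (((3 : ℕ) : ℝ) ^ d.primeFactors.card * E d) ≤
        C * (N / l ^ (kV + 1)) := herr
    have h7 : ∑ q ∈ range (N + 1), ϖ q *
      ∑ T ∈ ((pr z).filter (fun l => q % l ∈ OmB (wN δ X) m n' l)).powerset, c (∏ l ∈ T, l) ≤
      ∑ q ∈ (range (N + 1)).filter (fun q => ∀ l ∈ pr z, q % l ∉ OmB (wN δ X) m n' l), ϖ q :=
      hsift
    rw [div_one]
    exact ((sub_le_sub hlow h6).trans (sub_le_comm.1 hgen2)).trans h7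

end Pool.Agent.RVC
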