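import Mathlib
import Pool.Agent.RVC.Stmts
import Pool.Agent.CH.SA

set_option autoImplicit false

/-!
# RVC / RB

The switched sum: `a = n' - m q = p₁ p₂ p₃`, `q` without prime factors up to `y`.  Copy of `Pool/Agent/CH/SB.lean` at the
scale `X = m * N`, with the classes `OmA` and the density `gA`.
-/

namespace Pool.Agent.RVC

open Finset Filter Pool.Agent.MT Pool.Agent.CH

theorem rb_ev (P : ℕ → Prop) (h : ∀ᶠ X : ℕ in atTop, P X) :
    ∀ᶠ N : ℕ in atTop, ∀ m : ℕ, 1 ≤ m → P (m * N) := by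
  rw [eventually_atTop] at h ⊢
  obtain ⟨a, ha⟩ := h
  exact ⟨a, fun N hN m hm => ha _ (hN.trans (Nat.le_mul_of_pos_left N hm))⟩

theorem rb_choose (A0 ε : ℝ) (hε : 0 < ε) : ∃ t : ℝ, 0 < t ∧ t ≤ 1 ∧
    (cB + t) * (3 / 8 + t) * (A0 * (2 / 3 + t) + t) ≤ A0 * (cB / 4) + ε / 2 := by
  have hf : Continuous (fun t : ℝ => (cB + t) * (3 / 8 + t) * (A0 * (2 / 3 + t) + t)) := by
    fun_prop
  have h0 : (fun t : ℝ => (cB + t) * (3 / 8 + t) * (A0 * (2 / 3 + t) + t)) 0 <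
      A0 * (cB / 4) + ε / 2 := by
    show (cB + 0) * (3 / 8 + 0) * (A0 * (2 / 3 + 0) + 0) < A0 * (cB / 4) + ε / 2
    linarith
  have h1 : ∀ᶠ t in nhds (0 : ℝ), (fun t : ℝ => (cB + t) * (3 / 8 + t) *
      (A0 * (2 / 3 + t) + t)) t < A0 * (cB / 4) + ε / 2 :=
    hf.continuousAt.eventually_lt continuousAt_const h0
  have h2 : ∀ᶠ t in nhdsWithin (0 : ℝ) (Set.Ioi 0), 0 < t ∧ t < 1 :=
    Ioo_mem_nhdsGT (by norm_num)
  obtain ⟨t, ht1, ht2⟩ := ((h1.filter_mono nhdsWithin_le_nhds).and h2).exists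
  exact ⟨t, ht2.1, ht2.2.le, ht1.le⟩

theorem rb_rpow_large (a c : ℝ) (ha : 0 < a) : ∀ᶠ N : ℕ in atTop, c ≤ (N : ℝ) ^ a :=
  tendsto_natCast_atTop_atTop.eventually ((tendsto_rpow_atTop ha).eventually_ge_atTop c)

theorem rb_num : ∀ᶠ N : ℕ in atTop, Par N (zN N) (yN N) ∧ 2 ≤ zN N ∧
    (yN N : ℝ) ≤ 2 * (N : ℝ) ^ (1 / 3 : ℝ) ∧ 16 ≤ N := by
  filter_upwards [rb_rpow_large (1 / 40) 2 (by norm_num), rb_rpow_large (1 / 15) 2 (by norm_num),
    rb_rpow_large (1 / 10) 2 (by norm_num), eventually_ge_atTop 16] with N e1 e2 e3 hN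
  have hN0 : (0 : ℝ) < N := by exact_mod_cast (by omega : 0 < N)
  have hz : (N : ℝ) ^ (1 / 10 : ℝ) ≤ zN N := by
    have h1 : (N : ℝ) ^ (1 / 8 : ℝ) = (N : ℝ) ^ (1 / 40 : ℝ) * (N : ℝ) ^ (1 / 10 : ℝ) := by
      rw [← Real.rpow_add hN0]
      norm_num
    have h2 : (N : ℝ) ^ (1 / 8 : ℝ) < zN N + 1 := Nat.lt_floor_add_one _
    nlinarith [mul_le_mul_of_nonneg_right e1 (by positivity : (0 : ℝ) ≤ (N : ℝ) ^ (1 / 10 : ℝ))]
  have hy1 : (yN N : ℝ) ≤ 2 * (N : ℝ) ^ (1 / 3 : ℝ) := by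
    have h1 : (yN N : ℝ) < (N : ℝ) ^ (1 / 3 : ℝ) + 1 := Nat.ceil_lt_add_one (by positivity)
    have h2 : (1 : ℝ) ≤ (N : ℝ) ^ (1 / 3 : ℝ) :=
      Real.one_le_rpow (by exact_mod_cast (by omega : 1 ≤ N)) (by norm_num)
    linarith
  refine ⟨⟨hz, ?_⟩, ?_, hy1, hN⟩
  · have h1 : (N : ℝ) ^ (2 / 5 : ℝ) = (N : ℝ) ^ (1 / 15 : ℝ) * (N : ℝ) ^ (1 / 3 : ℝ) := by
      rw [← Real.rpow_add hN0]
      norm_num
    rw [h1]
    refine hy1.trans ?_
    exact mul_le_mul_of_nonneg_right e2 (by positivity)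
  · have : (2 : ℝ) ≤ zN N := e3.trans hz
    exact_mod_cast this

/-- the density satisfies the hypotheses of the sieve -/
theorem rb_dns (h4 : St_Dens) (X m n' z : ℕ) (δ : ℝ) (hδ : 0 < δ) (hX : 2 ≤ X) (hm : 1 ≤ m)
    (hmw : (m : ℝ) ≤ (X : ℝ) ^ δ) (hcop : n'.Coprime m) (hpar : (n' + m) % 2 = 1)
    (hn1 : 1 ≤ n') (hn' : (n' : ℝ) ≤ (X : ℝ) ^ 2) :
    Dns ⌊(X : ℝ) ^ δ⌋₊ z ⌈2 / δ⌉₊ (gA (wN δ X) m n') := by
  classical
  obtain ⟨hD1, hD2, hD3⟩ := h4 (wN δ X) m n' hm hcop hpar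
  have hmw' : m ≤ wN δ X := Nat.le_floor hmw
  have hnm : ∀ l : ℕ, wN δ X < l → ¬ l ∣ m := by
    intro l hl h
    have := Nat.le_of_dvd (by omega) h
    omega
  refine ⟨fun l hl => ⟨(hD1 l hl).2.2.1, (hD1 l hl).2.2.2.1, (hD1 l hl).2.2.2.2.1⟩, ?_, ?_⟩
  · intro l hl hwl _
    have h5 := (hD2 l hl hwl (hnm l hwl)).2
    by_cases h6 : l ∣ n'
    · exact Or.inl (h5.1 h6)
    · exact Or.inr (h5.2 h6)
  · apply sa_count X n' δ hδ hX hn1 hn'
    · intro l hl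
      rw [Finset.mem_filter] at hl
      have hlp : l.Prime := by
        have := hl.1
        unfold pr at this
        exact (Finset.mem_filter.1 this).2
      refine ⟨hlp, ?_⟩
      by_contra hcon
      have h5 := (hD2 l hlp hl.2.1 (hnm l hl.2.1)).2.2 hcon
      rw [hl.2.2] at h5
      have h6 : (0 : ℝ) < 1 / ((l : ℝ) - 1) := by
        have h7 : (2 : ℝ) ≤ l := by exact_mod_cast hlp.two_le
        apply one_div_pos.2
        linarith
      linarith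
    · intro l hl
      rw [Finset.mem_filter] at hl
      have h5 := Nat.lt_floor_add_one ((X : ℝ) ^ δ)
      have h6 : ((wN δ X : ℕ) : ℝ) + 1 ≤ l := by exact_mod_cast hl.2.1
      unfold wN at h6
      linarith

theorem rb_bt (z y q : ℕ) : 0 ≤ bt z y q := by
  unfold bt
  split_ifs <;> norm_num

theorem rb_B0 (η : ℝ → ℝ) (hη : IsWt η) (N z y : ℕ) : 0 ≤ B0 η N z y :=
  Finset.sum_nonneg (fun _ _ => mul_nonneg (rb_bt _ _ _) (hη.nonneg _))

/-- the sieve with remainder -/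
theorem rb_sieve (h2 : St_Gen) (X N m n' z y C : ℕ) (D θ V F T : ℝ) (η : ℝ → ℝ) (hη : IsWt η)
    (w : ℕ) (c E : ℕ → ℝ) (hm : 1 ≤ m) (hX : 1 ≤ X) (hmn : m * N ≤ n') (hθ : θ ≤ 1)
    (hκ : ∀ l : ℕ, l.Prime → (OmA w m n' l).card ≤ 3)
    (hDθ : D ≤ (X : ℝ) ^ θ) (hθN : (X : ℝ) ^ θ ≤ N)
    (c1 : ∀ d, c d ≠ 0 → Squarefree d ∧ (∀ p ∈ d.primeFactors, p ≤ y) ∧ (d : ℝ) ≤ D)
    (c2 : ∀ d, |c d| ≤ C * (C : ℝ) ^ d.primeFactors.card)
    (c3 : ∑ d ∈ Icc 1 (X ^ 2), c d * ∏ p ∈ d.primeFactors, gA w m n' p ≤ V * F)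
    (c4 : ∀ S : Finset ℕ, S ⊆ pr y → (if S = ∅ then (1 : ℝ) else 0) ≤
      ∑ T ∈ S.powerset, c (∏ l ∈ T, l))
    (E1 : ∀ q, 0 ≤ E q)
    (E2 : ∀ d c : ℕ, 1 ≤ d → (d : ℝ) ≤ (X : ℝ) ^ θ → c < d → (n' - m * c).Coprime d →
      |BBP η N m n' z y d c - B0 (etaR η) X z y / ((m * d).totient : ℝ)| ≤ E d)
    (E3 : ∑ d ∈ (Icc 1 X).filter (fun d : ℕ => (d : ℝ) ≤ (X : ℝ) ^ θ),
      ((3 * C : ℕ) : ℝ) ^ d.primeFactors.card * E d ≤ T) :
    ∑ q ∈ (range (N + 1)).filter (fun q => ∀ l ∈ pr y, q % l ∉ OmA w m n' l),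
      bt z y (n' - m * q) * η ((q : ℝ) / N) ≤
      B0 (etaR η) X z y / (m.totient : ℝ) * (V * F) + C * T := by
  classical
  have hXR : (1 : ℝ) ≤ X := by exact_mod_cast hX
  have hϖ : ∀ q : ℕ, 0 ≤ bt z y (n' - m * q) * η ((q : ℝ) / N) :=
    fun q => mul_nonneg (rb_bt _ _ _) (hη.nonneg _)
  have hcsupp : ∀ d, c d ≠ 0 → (d : ℝ) ≤ (X : ℝ) ^ θ := fun d hd => (c1 d hd).2.2.trans hDθ
  have hcN : ∀ d, c d ≠ 0 → d ≤ N := by
    intro d hd
    exact_mod_cast (hcsupp d hd).trans hθN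
  have hcX : ∀ d, c d ≠ 0 → d ≤ X := by
    intro d hd
    have h6 : (X : ℝ) ^ θ ≤ (X : ℝ) ^ (1 : ℝ) := Real.rpow_le_rpow_of_exponent_le hXR hθ
    rw [Real.rpow_one] at h6
    exact_mod_cast (hcsupp d hd).trans h6
  have hgen := h2 (fun q => bt z y (n' - m * q) * η ((q : ℝ) / N)) c
    (fun d => 1 / ((m * d).totient : ℝ)) E (fun l => OmA w m n' l)
    (pr y) N (X ^ 2) 3 (B0 (etaR η) X z y)
    (fun l hl => by unfold pr at hl; exact (Finset.mem_filter.1 hl).2)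
    (fun l hl => by
      have hlp : l.Prime := by unfold pr at hl; exact (Finset.mem_filter.1 hl).2
      exact ⟨Finset.filter_subset _ _, hκ l hlp⟩)
    (fun d hd => by
      refine ⟨(c1 d hd).1, ?_, ?_⟩
      · intro p hp
        unfold pr
        rw [Finset.mem_filter, Finset.mem_range]
        refine ⟨?_, Nat.prime_of_mem_primeFactors hp⟩
        have h6 := (c1 d hd).2.1 p hp
        omega
      · have h6 := hcX d hd
        have h7 : X ≤ X ^ 2 := Nat.le_self_pow (by norm_num) X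
        omega)
    E1
    (fun d hd a ha hal => by
      have hd0 : d ≠ 0 := (c1 d hd).1.ne_zero
      have hdN := hcN d hd
      have hma : m * a ≤ n' := by
        calc m * a ≤ m * N := Nat.mul_le_mul_left m (by omega)
          _ ≤ n' := hmn
      have h6 := E2 d a (by omega) (hcsupp d hd) ha
        (sa_coprime w m n' d a hal hd0 hma)
      unfold BBP at h6
      rw [Nat.mod_eq_of_lt ha] at h6
      rw [mul_one_div]
      exact h6)
  -- the main term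
  have hmain : B0 (etaR η) X z y * ∑ d ∈ Icc 1 (X ^ 2), c d *
      (1 / ((m * d).totient : ℝ) * ∏ l ∈ d.primeFactors, ((OmA w m n' l).card : ℝ)) =
      B0 (etaR η) X z y / (m.totient : ℝ) *
        ∑ d ∈ Icc 1 (X ^ 2), c d * ∏ p ∈ d.primeFactors, gA w m n' p := by
    rw [div_mul_eq_mul_div, mul_div_assoc, Finset.sum_div]
    congr 1
    apply Finset.sum_congr rfl
    intro d _
    by_cases hd : c d = 0
    · rw [hd]
      ring
    · rw [sa_local w m n' d hm (c1 d hd).1]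
      ring
  have herr := sa_err X C θ T hθ hX c E hcsupp c2 E1 E3
  -- upper bound for the indicator
  have hind : ∑ q ∈ (range (N + 1)).filter (fun q => ∀ l ∈ pr y, q % l ∉ OmA w m n' l),
      bt z y (n' - m * q) * η ((q : ℝ) / N) ≤
      ∑ q ∈ range (N + 1), bt z y (n' - m * q) * η ((q : ℝ) / N) *
        ∑ T ∈ ((pr y).filter (fun l => q % l ∈ OmA w m n' l)).powerset, c (∏ l ∈ T, l) := by
    rw [Finset.sum_filter]
    apply Finset.sum_le_sum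
    intro q _
    have h5 := c4 ((pr y).filter (fun l => q % l ∈ OmA w m n' l)) (Finset.filter_subset _ _)
    split_ifs with hq
    · have he : (pr y).filter (fun l => q % l ∈ OmA w m n' l) = ∅ :=
        Finset.filter_eq_empty_iff.mpr (fun l hl => hq l hl)
      rw [if_pos he] at h5
      have := mul_le_mul_of_nonneg_left h5 (hϖ q)
      rwa [mul_one] at this
    · have h6 : (0 : ℝ) ≤ ∑ T ∈ ((pr y).filter (fun l => q % l ∈ OmA w m n' l)).powerset,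
          c (∏ l ∈ T, l) := by
        refine le_trans ?_ h5
        split_ifs <;> norm_num
      exact mul_nonneg (hϖ q) h6
  have hB0 : 0 ≤ B0 (etaR η) X z y := rb_B0 _ (sa_wt η hη) _ _ _
  have htot : (0 : ℝ) < (m.totient : ℝ) := by exact_mod_cast Nat.totient_pos.2 hm
  have h6 := (abs_le.mp hgen).2
  rw [hmain] at h6
  have h7 : B0 (etaR η) X z y / (m.totient : ℝ) *
      ∑ d ∈ Icc 1 (X ^ 2), c d * ∏ p ∈ d.primeFactors, gA w m n' p ≤
      B0 (etaR η) X z y / (m.totient : ℝ) * (V * F) :=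
    mul_le_mul_of_nonneg_left c3 (div_nonneg hB0 htot.le)
  refine hind.trans ((sub_le_iff_le_add.mp h6).trans ?_)
  rw [add_comm]
  exact add_le_add h7 herr

/-- the main term -/
theorem rb_main (A0 ε t B φ M N I L Vy Vz Vb F F' K : ℝ) (hB : 0 ≤ B)
    (hφ : 0 < φ) (hM : 0 < M) (hI : 0 ≤ I) (hN : 0 ≤ N) (hL : 0 < L) (hVy : 0 ≤ Vy)
    (hVb : 0 ≤ Vb) (hF : F ≤ F') (hF' : 0 ≤ F')
    (hBle : B ≤ (K + t) * I * (M * N) / L) (hyz : Vy ≤ (3 / 8 + t) * Vz) (hz : Vz = φ / M * Vb)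
    (hft : (K + t) * (3 / 8 + t) * F' ≤ A0 * (K / 4) + ε / 2) :
    B / φ * (Vy * F) ≤ (A0 * (K / 4) + ε / 2) * (I * N * Vb) / L := by
  have hX : 0 ≤ (K + t) * I * (M * N) / L := hB.trans hBle
  have b1 : B / φ * (Vy * F) ≤ B / φ * (Vy * F') :=
    mul_le_mul_of_nonneg_left (mul_le_mul_of_nonneg_left hF hVy) (div_nonneg hB hφ.le)
  have b2 : B / φ * (Vy * F') ≤ ((K + t) * I * (M * N) / L) / φ * (Vy * F') :=
    mul_le_mul_of_nonneg_right (div_le_div_of_nonneg_right hBle hφ.le) (mul_nonneg hVy hF')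
  have b3 : ((K + t) * I * (M * N) / L) / φ * (Vy * F') ≤
      ((K + t) * I * (M * N) / L) / φ * (((3 / 8 + t) * Vz) * F') :=
    mul_le_mul_of_nonneg_left (mul_le_mul_of_nonneg_right hyz hF') (div_nonneg hX hφ.le)
  have b4 : ((K + t) * I * (M * N) / L) / φ * (((3 / 8 + t) * Vz) * F') =
      ((K + t) * (3 / 8 + t) * F') * ((I * N * Vb) / L) := by
    rw [hz]
    field_simp
  have b5 : ((K + t) * (3 / 8 + t) * F') * ((I * N * Vb) / L) ≤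
      (A0 * (K / 4) + ε / 2) * ((I * N * Vb) / L) := by
    apply mul_le_mul_of_nonneg_right hft
    positivity
  calc _ ≤ _ := b1
    _ ≤ _ := b2
    _ ≤ _ := b3
    _ = _ := b4
    _ ≤ _ := b5
    _ = _ := by ring

/-- the error term -/
theorem rb_error (C k : ℕ) (ε c₀ N I Lx Ln Vb : ℝ) (hε : 0 < ε) (hc₀ : 0 < c₀) (hN : 0 < N)
    (hI : 1 / 2 ≤ I) (hLn : 0 < Ln) (hLx : 0 < Lx) (hL2 : Lx ≤ 2 * Ln)
    (hV : c₀ / Lx ^ k ≤ Vb) (hC : (C : ℝ) / (ε * c₀ / (4 * 2 ^ (k + 1))) ≤ Ln) :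
    (C : ℝ) * (N / Ln ^ (k + 2)) ≤ (ε / 2) * (I * N * Vb) / Lx := by
  have v0 : 0 < c₀ / Lx ^ k := by positivity
  have v3 : (ε / 2) * ((1 / 2) * N * (c₀ / Lx ^ k)) / Lx ≤ (ε / 2) * (I * N * Vb) / Lx := by
    apply div_le_div_of_nonneg_right _ hLx.le
    apply mul_le_mul_of_nonneg_left _ (by positivity)
    apply mul_le_mul _ hV v0.le (by positivity)
    exact mul_le_mul_of_nonneg_right hI hN.le
  refine le_trans ?_ v3
  have e1 : (ε / 2) * ((1 / 2) * N * (c₀ / Lx ^ k)) / Lx = ε * c₀ / 4 * N / Lx ^ (k + 1) := by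
    rw [pow_succ]
    field_simp
    ring
  rw [e1]
  have e2 : Lx ^ (k + 1) ≤ 2 ^ (k + 1) * Ln ^ (k + 1) := by
    rw [← mul_pow]
    exact pow_le_pow_left₀ hLx.le hL2 _
  have e3 : ε * c₀ / 4 * N / (2 ^ (k + 1) * Ln ^ (k + 1)) ≤ ε * c₀ / 4 * N / Lx ^ (k + 1) :=
    div_le_div_of_nonneg_left (by positivity) (by positivity) e2
  refine le_trans ?_ e3
  have e4 : (C : ℝ) ≤ Ln * (ε * c₀ / (4 * 2 ^ (k + 1))) := by
    rwa [div_le_iff₀ (by positivity)] at hC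
  have e5 : ε * c₀ / 4 * N / (2 ^ (k + 1) * Ln ^ (k + 1)) =
      (Ln * (ε * c₀ / (4 * 2 ^ (k + 1)))) * (N / Ln ^ (k + 2)) := by
    rw [pow_succ Ln (k + 1)]
    field_simp
  rw [e5]
  exact mul_le_mul_of_nonneg_right e4 (by positivity)

/-- the quotient of the logarithms -/
theorem rb_F (A0 t X y : ℝ) (hA0 : 0 < A0) (ht : 0 < t) (ht1 : t ≤ 1) (hX : 1 < X)
    (hy3 : X ^ (1 / 3 : ℝ) ≤ y) (hy1 : y ≤ 2 * X ^ (1 / 3 : ℝ))
    (hL : 12 * Real.log 2 / t ≤ Real.log X) :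
    A0 * Real.log y / Real.log (X ^ (1 / 2 - t / 12 : ℝ)) + t / 24 ≤ A0 * (2 / 3 + t) + t := by
  have hX0 : 0 < X := by linarith
  have hlog : 0 < Real.log X := Real.log_pos hX
  have a1 : A0 * Real.log y / Real.log (X ^ (1 / 2 - t / 12 : ℝ)) ≤ A0 * (2 / 3 + t) := by
    rw [Real.log_rpow hX0]
    have hpos : 0 < (1 / 2 - t / 12) * Real.log X := mul_pos (by linarith) hlog
    rw [div_le_iff₀ hpos]
    have a2 : Real.log y ≤ Real.log 2 + (1 / 3) * Real.log X := by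
      have hyp : (0 : ℝ) < y := lt_of_lt_of_le (by positivity) hy3
      calc Real.log y ≤ Real.log (2 * X ^ (1 / 3 : ℝ)) := Real.log_le_log hyp hy1
        _ = Real.log 2 + (1 / 3) * Real.log X := by
          rw [Real.log_mul (by norm_num) (by positivity), Real.log_rpow hX0]
    have a3 : 12 * Real.log 2 ≤ t * Real.log X := by
      rw [div_le_iff₀ ht] at hL
      linarith
    have a4 : Real.log y ≤ (2 / 3 + t) * ((1 / 2 - t / 12) * Real.log X) := by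
      nlinarith [mul_nonneg (mul_nonneg ht.le (by linarith : (0 : ℝ) ≤ 1 - t)) hlog.le,
        mul_pos ht hlog]
    calc A0 * Real.log y ≤ A0 * ((2 / 3 + t) * ((1 / 2 - t / 12) * Real.log X)) :=
          mul_le_mul_of_nonneg_left a4 hA0.le
      _ = A0 * (2 / 3 + t) * ((1 / 2 - t / 12) * Real.log X) := by ring
  linarith

theorem thm_RB (A0 : ℝ) (hA0 : 0 < A0) (h0 : CH.St_LinU A0) (h1 : St_BBV) (h2 : CH.St_Gen)
    (h3 : CH.St_VLow) (h4 : CH.St_Dens) (h5 : CH.St_BMass) (h6 : CH.St_VR) : St_RB A0 := by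
  classical
  intro η hη ε hε
  obtain ⟨t, ht, ht1, hft⟩ := rb_choose A0 ε hε
  obtain ⟨δ₀, C, hδ₀, hL⟩ := h0 (t / 24) (by positivity)
  obtain ⟨c₀, k, hc₀, hV⟩ := h3
  obtain ⟨hI1, hI2, hI3⟩ := sa_int η hη
  have hR := sa_wt η hη
  refine ⟨min δ₀ (1 / 16), by positivity, ?_⟩
  intro δ hδ hδ1 A₀
  have hδa : δ ≤ δ₀ := hδ1.trans (min_le_left _ _)
  have hδb : δ ≤ 1 / 16 := hδ1.trans (min_le_right _ _)
  have hM := h5 (etaR η) hR t ht
  rw [hI3] at hM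
  filter_upwards [rb_ev _ (hL δ hδ hδa ⌈2 / δ⌉₊),
    h1 η hη (1 / 2 - t / 24) (by linarith) (by linarith) (k + 2) A₀ (3 * C),
    rb_ev _ hM, rb_ev _ (h6 ⌈2 / δ⌉₊ δ t hδ (by linarith) ht), rb_ev _ rb_num,
    sa_log_pow A₀ δ 1 hδ one_pos, sa_log_pow A₀ (1 / 4) 1 (by norm_num) one_pos,
    rb_ev _ (sa_log_large (12 * Real.log 2 / t)),
    sa_log_large ((C : ℝ) / (ε * c₀ / (4 * 2 ^ (k + 1)))), eventually_ge_atTop 16]
    with N g1 g2 g3 g4 g5 g6 g6' g7 g8 hN16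
  intro m n' hS
  obtain ⟨s1, s2, s3, s4, s5, s6⟩ := hS
  have g1 := g1 m s1
  have g3 := g3 m s1
  have g4 := g4 m s1
  have g5 := g5 m s1
  have g7 := g7 m s1
  rw [one_mul] at g6 g6'
  obtain ⟨E, E1, E2, E3⟩ := g2 m n' s1 s2 s3 s5 s6
  have hNX : N ≤ m * N := Nat.le_mul_of_pos_left N s1
  have hmR : (1 : ℝ) ≤ m := by exact_mod_cast s1
  have hNR : (16 : ℝ) ≤ N := by exact_mod_cast hN16
  have hcast : ((m * N : ℕ) : ℝ) = m * N := by push_cast; ring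
  unfold UR
  set X := m * N with hXdef
  have hX16 : 16 ≤ X := hN16.trans hNX
  have hNXR : (N : ℝ) ≤ X := by exact_mod_cast hNX
  have hX0 : (0 : ℝ) < X := by linarith
  have hX1 : (1 : ℝ) < X := by linarith
  have hN0 : (0 : ℝ) < N := by linarith
  obtain ⟨hPar, hz2, hy1, -⟩ := g5
  have hlogX : 0 < Real.log X := Real.log_pos hX1
  have hlogN : 0 < Real.log N := Real.log_pos (by linarith)
  -- the size of m
  have hm4 : (m : ℝ) ≤ (N : ℝ) ^ (1 / 4 : ℝ) := s2.trans g6'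
  have hmδN : (m : ℝ) ≤ (N : ℝ) ^ δ := s2.trans g6
  have hmδ : (m : ℝ) ≤ (X : ℝ) ^ δ :=
    hmδN.trans (Real.rpow_le_rpow hN0.le hNXR hδ.le)
  have hmw : m ≤ wN δ X := Nat.le_floor hmδ
  have hwz : wN δ X ≤ zN X := by
    apply Nat.floor_le_floor
    exact Real.rpow_le_rpow_of_exponent_le hX1.le (by linarith)
  have hXN : (X : ℝ) ≤ (N : ℝ) ^ (5 / 4 : ℝ) := by
    rw [hcast]
    calc (m : ℝ) * N ≤ (N : ℝ) ^ (1 / 4 : ℝ) * N := mul_le_mul_of_nonneg_right hm4 hN0.le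
      _ = (N : ℝ) ^ (1 / 4 : ℝ) * (N : ℝ) ^ (1 : ℝ) := by rw [Real.rpow_one]
      _ = (N : ℝ) ^ (5 / 4 : ℝ) := by
        rw [← Real.rpow_add hN0]
        norm_num
  have hlogXN : Real.log X ≤ 2 * Real.log N := by
    have := Real.log_le_log hX0 hXN
    rw [Real.log_rpow hN0] at this
    linarith
  have hn1 : 1 ≤ n' := by omega
  have hn2 : (n' : ℝ) ≤ (X : ℝ) ^ 2 := by
    have h7 : m * (N + 1) ≤ 2 * X := by
      rw [hXdef]
      nlinarith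
    have h8 : n' ≤ 2 * X := by omega
    have h9 : (n' : ℝ) ≤ 2 * X := by exact_mod_cast h8
    nlinarith
  have hDns := rb_dns h4 X m n' (yN X) δ hδ (by omega) s1 hmδ s3 s4 hn1 hn2
  obtain ⟨d1, -, d3⟩ := h4 (wN δ X) m n' s1 s3 s4
  have hVA := d3 (zN X) hmw hwz
  -- the linear sieve
  have hD1 : (yN X : ℝ) ≤ (X : ℝ) ^ (1 / 2 - t / 12 : ℝ) := by
    refine hPar.2.trans ?_
    exact Real.rpow_le_rpow_of_exponent_le hX1.le (by linarith)
  have hy3 : (X : ℝ) ^ (1 / 3 : ℝ) ≤ yN X := Nat.le_ceil _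
  have hD2 : (X : ℝ) ^ (1 / 2 - t / 12 : ℝ) ≤ (X : ℝ) := by
    calc (X : ℝ) ^ (1 / 2 - t / 12 : ℝ) ≤ (X : ℝ) ^ (1 : ℝ) :=
          Real.rpow_le_rpow_of_exponent_le hX1.le (by linarith)
      _ = X := Real.rpow_one _
  have hD3 : (X : ℝ) ^ (1 / 2 - t / 12 : ℝ) ≤ (yN X : ℝ) ^ 3 := by
    refine hD2.trans ?_
    calc (X : ℝ) = ((X : ℝ) ^ (1 / 3 : ℝ)) ^ 3 := by
          rw [← Real.rpow_natCast, ← Real.rpow_mul hX0.le]
          norm_num
      _ ≤ (yN X : ℝ) ^ 3 := pow_le_pow_left₀ (by positivity) hy3 3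
  have hy10 : (X : ℝ) ^ (1 / 10 : ℝ) ≤ yN X := by
    refine le_trans ?_ hy3
    exact Real.rpow_le_rpow_of_exponent_le hX1.le (by norm_num)
  obtain ⟨c, c1, c2, c3, c4⟩ := g1 (yN X) _ hy10 hD1 hD3 hD2 _ hDns
  have hDθ : (X : ℝ) ^ (1 / 2 - t / 12 : ℝ) * (X : ℝ) ^ (t / 24 : ℝ) ≤
      (X : ℝ) ^ (1 / 2 - t / 24 : ℝ) := by
    rw [← Real.rpow_add hX0]
    apply le_of_eq
    congr 1
    ring
  have hθN : (X : ℝ) ^ (1 / 2 - t / 24 : ℝ) ≤ N := by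
    calc (X : ℝ) ^ (1 / 2 - t / 24 : ℝ) ≤ (X : ℝ) ^ (1 / 2 : ℝ) :=
          Real.rpow_le_rpow_of_exponent_le hX1.le (by linarith)
      _ ≤ ((N : ℝ) ^ (5 / 4 : ℝ)) ^ (1 / 2 : ℝ) :=
          Real.rpow_le_rpow hX0.le hXN (by norm_num)
      _ = (N : ℝ) ^ (5 / 8 : ℝ) := by
          rw [← Real.rpow_mul hN0.le]
          norm_num
      _ ≤ (N : ℝ) ^ (1 : ℝ) := Real.rpow_le_rpow_of_exponent_le (by linarith) (by norm_num)
      _ = N := Real.rpow_one _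
  have key := rb_sieve h2 X N m n' (zN X) (yN X) C
    ((X : ℝ) ^ (1 / 2 - t / 12 : ℝ) * (X : ℝ) ^ (t / 24 : ℝ)) (1 / 2 - t / 24)
    (VV (gA (wN δ X) m n') (yN X))
    (A0 * Real.log (yN X) / Real.log ((X : ℝ) ^ (1 / 2 - t / 12 : ℝ)) + t / 24)
    (N / Real.log N ^ (k + 2)) η hη (wN δ X) c E s1 (by omega) s5 (by linarith)
    (fun l hl => (d1 l hl).1) hDθ hθN c1 c2 c3 c4 E1 E2 E3
  refine key.trans ?_
  -- numerical estimates
  have hVV : ∀ (g : ℕ → ℝ) (z : ℕ), (∀ l : ℕ, l.Prime → g l ≤ 1 / 2) → 0 ≤ VV g z := by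
    intro g z h
    unfold VV
    apply Finset.prod_nonneg
    intro l hl
    have hlp : l.Prime := by unfold pr at hl; exact (Finset.mem_filter.1 hl).2
    have := h l hlp
    linarith
  have hVy : 0 ≤ VV (gA (wN δ X) m n') (yN X) :=
    hVV _ _ (fun l hl => (d1 l hl).2.2.2.1)
  have hVb : 0 ≤ VV (gB (wN δ X) m n') (zN X) :=
    hVV _ _ (fun l hl => (d1 l hl).2.2.2.2.2.2.1)
  have hyz := g4 _ hDns
  have hF := rb_F A0 t X (yN X) hA0 ht ht1 hX1 hy3 hy1 g7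
  have hF' : 0 ≤ A0 * (2 / 3 + t) + t := by positivity
  have hB0 : 0 ≤ B0 (etaR η) X (zN X) (yN X) := rb_B0 _ hR _ _ _
  have htot : (0 : ℝ) < (m.totient : ℝ) := by exact_mod_cast Nat.totient_pos.2 s1
  rw [hcast] at g3
  set I := ∫ t in (0 : ℝ)..1, η t with hIdef
  have m1 := rb_main A0 ε t (B0 (etaR η) X (zN X) (yN X)) (m.totient : ℝ) m N I (Real.log X)
    (VV (gA (wN δ X) m n') (yN X)) (VV (gA (wN δ X) m n') (zN X)) (VV (gB (wN δ X) m n') (zN X))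
    _ (A0 * (2 / 3 + t) + t) cB hB0 htot (by linarith) (by linarith) hN0.le hlogX hVy hVb hF hF'
    (by
      refine g3.trans (le_of_eq ?_)
      rw [← hcast]) hyz hVA hft
  have v1 : c₀ / Real.log X ^ k ≤ VV (gB (wN δ X) m n') (zN X) := by
    refine le_trans ?_ (hV (zN X) (gB (wN δ X) m n') hz2
      (fun l hl => ⟨(d1 l hl).2.2.2.2.2.1, (d1 l hl).2.2.2.2.2.2.1, (d1 l hl).2.2.2.2.2.2.2⟩))
    have hzp : (1 : ℝ) < zN X := by exact_mod_cast (by omega : 1 < zN X)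
    have hzl : 0 < Real.log (zN X) := Real.log_pos hzp
    apply div_le_div_of_nonneg_left hc₀.le (by positivity)
    apply pow_le_pow_left₀ hzl.le
    apply Real.log_le_log (by linarith)
    have : (zN X : ℝ) ≤ (X : ℝ) ^ (1 / 8 : ℝ) := Nat.floor_le (by positivity)
    refine this.trans ?_
    calc (X : ℝ) ^ (1 / 8 : ℝ) ≤ (X : ℝ) ^ (1 : ℝ) :=
          Real.rpow_le_rpow_of_exponent_le hX1.le (by norm_num)
      _ = X := Real.rpow_one _
  have m2 := rb_error C k ε c₀ N I (Real.log X) (Real.log N) (VV (gB (wN δ X) m n') (zN X)) hε hc₀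
    hN0 hI1 hlogN hlogX hlogXN v1 g8
  have e : (A0 * (cB / 4) + ε) * (I * N * VV (gB (wN δ X) m n') (zN X)) / Real.log X =
      (A0 * (cB / 4) + ε / 2) * (I * N * VV (gB (wN δ X) m n') (zN X)) / Real.log X +
      (ε / 2) * (I * N * VV (gB (wN δ X) m n') (zN X)) / Real.log X := by ring
  rw [e]
  exact add_le_add m1 m2

end Pool.Agent.RVC
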