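import Pool.Agent.RVC.Stmts
import Pool.Agent.CAE.RobC

/-!
# RVC [RC3]: small `m`, robust form
-/

set_option autoImplicit false
set_option linter.unusedVariables false

namespace Pool.Agent.RVC

open Finset Filter Pool.Agent.MT Pool.Agent.CH Pool.Agent.CU Pool.Agent.CV Pool.Agent.CAE Pool.Agent.CAE.Rob

/-- [RC3] -/
theorem thm_RC3 (h0 : St_RFinE) (h1 : Pool.Agent.CAE.St_RedM) : St_RC3 := by
  obtain ⟨R, c₃, hc₃, hR⟩ := h0
  obtain ⟨cR, hcR, hRed⟩ := h1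
  refine ⟨R, c₃ * cR / 3, by positivity, fun A₀ => ?_⟩
  obtain ⟨N₀, hN₀⟩ := eventually_atTop.1 (hR (A₀ + 1))
  filter_upwards [fin_log_pow 2 A₀ (show (0 : ℝ) < 1 / 4 by norm_num),
    fin_log_pow ((N₀ : ℝ) + 6) 0 (show (0 : ℝ) < 1 / 4 by norm_num),
    fin_log_pow (2 * Real.exp (2 ^ A₀)) 0 (show (0 : ℝ) < 1 / 4 by norm_num),
    (Real.tendsto_log_atTop.comp tendsto_natCast_atTop_atTop).eventually_ge_atTop 3,
    eventually_ge_atTop 100] with n hE1 hE2 hE3 hE4 hn100 m hadm hmlog E hE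
  have hE4 : (3 : ℝ) ≤ Real.log n := hE4
  rw [pow_zero, mul_one] at hE2 hE3
  have hnr : (100 : ℝ) ≤ n := by exact_mod_cast hn100
  have hn0 : (0 : ℝ) < n := by linarith
  have hn1 : (1 : ℝ) ≤ n := by linarith
  have hm1 : 1 ≤ m := hadm.1
  have hφ0 : (0 : ℝ) < m.totient := by exact_mod_cast Nat.totient_pos.2 (by omega)
  obtain ⟨G, hGdef⟩ : ∃ G : Finset ℕ,
      G = (range m).filter (fun r => (n - r).Coprime m ∧ (n - r + m) % 2 = 1) := ⟨_, rfl⟩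
  have hGc := hRed m n hadm
  rw [← hGdef] at hGc
  have hGpos : 0 < (G.card : ℝ) := lt_of_lt_of_le (by positivity) hGc
  have hGm : ∀ r ∈ G, r < m := fun r hr => by
    rw [hGdef] at hr
    exact mem_range.1 (mem_filter.1 hr).1
  have hGn : ∀ r ∈ G, r ≤ n := fun r hr => by
    have := hGm r hr
    have := hadm.2.1
    omega
  obtain ⟨r, hrG, hrE⟩ := pigeon hm1 G E hGm hGn (card_pos.1 (by exact_mod_cast hGpos))
  have hrm : r < m := hGm r hrG
  have hrn : r < n := by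
    have := hadm.2.1
    omega
  obtain ⟨hcop, hpar⟩ : (n - r).Coprime m ∧ (n - r + m) % 2 = 1 := by
    rw [hGdef] at hrG
    exact (mem_filter.1 hrG).2
  set n' := n - r with hn'
  set N := n' / m with hN
  have hmN : m * N ≤ n' := Nat.mul_div_le n' m
  have hmN1 : n' < m * (N + 1) := Nat.lt_mul_div_succ n' (by omega)
  -- size of N
  have hmr : (m : ℝ) ≤ (n : ℝ) ^ (1 / 4 : ℝ) := by
    have : 0 ≤ Real.log n ^ A₀ := pow_nonneg (Real.log_natCast_nonneg n) _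
    linarith
  have hr0 : (1 : ℝ) ≤ (n : ℝ) ^ (1 / 4 : ℝ) := Real.one_le_rpow hn1 (by norm_num)
  have hnp : (n : ℝ) - m ≤ n' := by
    have h6 : n ≤ n' + m := by omega
    have h7 : (n : ℝ) ≤ n' + m := by exact_mod_cast h6
    linarith
  have hN2 : (n : ℝ) ≤ m * ((N : ℝ) + 2) := by
    have h6 : (n' : ℝ) < m * ((N : ℝ) + 1) := by exact_mod_cast hmN1
    linarith
  have hsplit : (n : ℝ) = (n : ℝ) ^ (1 / 4 : ℝ) * (n : ℝ) ^ (3 / 4 : ℝ) := by
    rw [← Real.rpow_add hn0]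
    norm_num
  have hN3 : (n : ℝ) ^ (3 / 4 : ℝ) ≤ (N : ℝ) + 2 := by
    have h6 : (m : ℝ) * ((N : ℝ) + 2) ≤ (n : ℝ) ^ (1 / 4 : ℝ) * ((N : ℝ) + 2) :=
      mul_le_mul_of_nonneg_right hmr (by positivity)
    have h7 : (n : ℝ) ^ (1 / 4 : ℝ) * (n : ℝ) ^ (3 / 4 : ℝ) ≤
        (n : ℝ) ^ (1 / 4 : ℝ) * ((N : ℝ) + 2) := by
      rw [← hsplit]
      linarith
    exact le_of_mul_le_mul_left h7 (by linarith)
  have hs34 : (n : ℝ) ^ (3 / 4 : ℝ) = (n : ℝ) ^ (1 / 4 : ℝ) * (n : ℝ) ^ (1 / 2 : ℝ) := by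
    rw [← Real.rpow_add hn0]
    norm_num
  have hh0 : (1 : ℝ) ≤ (n : ℝ) ^ (1 / 2 : ℝ) := Real.one_le_rpow hn1 (by norm_num)
  have hNhalf : (n : ℝ) ^ (1 / 2 : ℝ) ≤ N := by
    have hN06 : (6 : ℝ) < (n : ℝ) ^ (1 / 4 : ℝ) := by
      have : (0 : ℝ) ≤ N₀ := Nat.cast_nonneg _
      linarith
    rw [hs34] at hN3
    nlinarith
  have hNN0 : N₀ ≤ N := by
    have h6 : (N₀ : ℝ) ≤ N := by
      have h7 : (n : ℝ) ^ (1 / 4 : ℝ) ≤ (n : ℝ) ^ (1 / 2 : ℝ) :=
        Real.rpow_le_rpow_of_exponent_le hn1 (by norm_num)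
      linarith
    exact_mod_cast h6
  have hlogN : Real.log n ≤ 2 * Real.log N := by
    have h6 : Real.log ((n : ℝ) ^ (1 / 2 : ℝ)) ≤ Real.log N :=
      Real.log_le_log (by linarith) hNhalf
    rw [Real.log_rpow hn0] at h6
    linarith
  have hlogN2 : (2 : ℝ) ^ A₀ ≤ Real.log N := by
    have h6 : Real.exp (2 ^ A₀) ≤ N := by
      have h7 : (n : ℝ) ^ (1 / 4 : ℝ) ≤ (n : ℝ) ^ (1 / 2 : ℝ) :=
        Real.rpow_le_rpow_of_exponent_le hn1 (by norm_num)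
      have h8 : 0 < Real.exp (2 ^ A₀) := Real.exp_pos _
      linarith
    rw [Real.le_log_iff_exp_le (by linarith)]
    exact h6
  have hlog0 : 0 ≤ Real.log n := Real.log_natCast_nonneg n
  have hlogN0 : 0 ≤ Real.log N := Real.log_natCast_nonneg N
  have hmlogN : (m : ℝ) ≤ Real.log N ^ (A₀ + 1) := by
    calc (m : ℝ) ≤ Real.log n ^ A₀ := hmlog
      _ ≤ (2 * Real.log N) ^ A₀ := pow_le_pow_left₀ hlog0 hlogN A₀
      _ = 2 ^ A₀ * Real.log N ^ A₀ := mul_pow _ _ _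
      _ ≤ Real.log N * Real.log N ^ A₀ :=
          mul_le_mul_of_nonneg_right hlogN2 (pow_nonneg hlogN0 _)
      _ = Real.log N ^ (A₀ + 1) := by ring
  -- the exceptional set of `q`
  obtain ⟨F, hF⟩ : ∃ F : Finset ℕ, F = (Ioc 0 N).filter (fun q => n' - m * q ∈ E) := ⟨_, rfl⟩
  have hFc : (F.card : ℝ) * (cR * m.totient) ≤ E.card := by
    have h6 : (F.card : ℝ) * G.card ≤ E.card := by
      rw [hF]
      exact_mod_cast hrE
    exact (mul_le_mul_of_nonneg_left hGc (Nat.cast_nonneg _)).trans h6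
  have hFN : (F.card : ℝ) ≤ c₃ * ((m : ℝ) / m.totient * N / Real.log N ^ 3) := by
    have hN6 : (6 : ℝ) < N := by
      have h6 : (0 : ℝ) ≤ N₀ := Nat.cast_nonneg _
      have h7 : (n : ℝ) ^ (1 / 4 : ℝ) ≤ (n : ℝ) ^ (1 / 2 : ℝ) :=
        Real.rpow_le_rpow_of_exponent_le hn1 (by norm_num)
      linarith
    have hNpos : (1 : ℝ) ≤ N := by linarith
    have hNn : (N : ℝ) ≤ n := by
      have h6 : N ≤ n := (Nat.div_le_self _ _).trans (by omega)
      exact_mod_cast h6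
    have hNone : (1 : ℝ) < N := by linarith
    have hl0 : 0 < Real.log N := Real.log_pos hNone
    have hl1 : Real.log N ≤ Real.log n := Real.log_le_log (by linarith) hNn
    have hm0 : (0 : ℝ) < m := by exact_mod_cast hm1
    have hn2 : (n : ℝ) ≤ 3 * (m * N) := by
      have h6 := mul_le_mul_of_nonneg_left (show (N : ℝ) + 2 ≤ 3 * N by linarith) hm0.le
      linarith
    have h7 : (n : ℝ) / Real.log n ^ 3 ≤ 3 * (m * N) / Real.log N ^ 3 :=
      div_le_div₀ (by positivity) hn2 (pow_pos hl0 3) (pow_le_pow_left₀ hl0.le hl1 3)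
    have h8 := mul_le_mul_of_nonneg_left h7 (show 0 ≤ c₃ * cR / 3 by positivity)
    have h9 : (F.card : ℝ) * (cR * m.totient) ≤ c₃ * cR / 3 * (3 * (m * N) / Real.log N ^ 3) :=
      hFc.trans (hE.trans h8)
    have h10 : c₃ * cR / 3 * (3 * (m * N) / Real.log N ^ 3) =
        c₃ * ((m : ℝ) / m.totient * N / Real.log N ^ 3) * (cR * m.totient) := by
      field_simp
    rw [h10] at h9
    exact le_of_mul_le_mul_right h9 (by positivity)
  obtain ⟨q, hqp, hqN, hqF, hO2, hOR⟩ :=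
    hN₀ N hNN0 m n' ⟨hm1, hmlogN, hcop, hpar, hmN, hmN1⟩ F hFN
  have hq1 : 0 < q := hqp.pos
  have hmq : m * q ≤ n' := (Nat.mul_le_mul_left m hqN).trans hmN
  have hmq1 : 1 ≤ m * q := Nat.one_le_iff_ne_zero.2 (Nat.mul_ne_zero (by omega) (by omega))
  have hdiv : (n - (n' - m * q)) / m = q := by
    have h6 : n - (n' - m * q) = r + m * q := by omega
    rw [h6, Nat.add_mul_div_left _ _ (by omega), Nat.div_eq_of_lt hrm, zero_add]
  refine ⟨n' - m * q, ?_, by omega, hO2, ?_, ?_⟩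
  · intro h
    apply hqF
    rw [hF, mem_filter, mem_Ioc]
    exact ⟨⟨by omega, hqN⟩, h⟩
  · rw [hdiv]
    exact hqp
  · rw [hdiv]
    exact hOR

end Pool.Agent.RVC
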