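import Mathlib
import Pool.Agent.RVC.Stmts
import Pool.Agent.CH.Fin
import Pool.Agent.CAE.RobC

set_option autoImplicit false

/-!
# RVC / RFinE

The final step of the reversed theorem of Chen type, with an exceptional set of `q`.
-/

namespace Pool.Agent.RVC

open Finset Filter Pool.Agent.MT Pool.Agent.CH Pool.Agent.CAE

/-- double counting -/
theorem rfin_double {N : ℕ} (A : ℕ → Prop) [DecidablePred A] (B : ℕ → ℕ → Prop)
    [∀ p, DecidablePred (B p)] (P : Finset ℕ) (f : ℕ → ℝ) :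
    ∑ p ∈ P, ∑ q ∈ (range (N + 1)).filter (fun q => A q ∧ B p q), f q =
      ∑ q ∈ (range (N + 1)).filter A, f q * ((P.filter (fun p => B p q)).card : ℝ) := by
  have h1 : ∀ p ∈ P, ∑ q ∈ (range (N + 1)).filter (fun q => A q ∧ B p q), f q =
      ∑ q ∈ (range (N + 1)).filter A, if B p q then f q else 0 := by
    intro p _
    rw [← filter_filter, sum_filter]
  rw [sum_congr rfl h1, sum_comm]
  apply sum_congr rfl
  intro q _
  rw [← sum_filter, sum_const, nsmul_eq_mul, mul_comm]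

/-- number of `q ≤ N` for which `q` is a proper prime power -/
theorem rfin_card_pp {N : ℕ} (hN : 1 ≤ N) :
    (((range (N + 1)).filter (fun q => lam q ≠ 0 ∧ ¬ q.Prime)).card : ℝ) ≤
      3 * (Real.sqrt N * Real.log N) := by
  refine le_trans ?_ (GBQ.bad_card_pp hN)
  norm_cast
  apply card_le_card
  intro q hq
  obtain ⟨hq1, hq2, hq3⟩ := mem_filter.1 hq
  unfold GBQ.badPP
  rw [mem_filter, mem_Ioc]
  refine ⟨⟨?_, Nat.lt_succ_iff.1 (mem_range.1 hq1)⟩, hq3, hq2⟩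
  rcases Nat.eq_zero_or_pos q with h | h
  · exfalso
    apply hq2
    rw [h]
    simp [lam]
  · exact h

/-- one modulus: `p ^ 2 ∣ n' - m q` is one class -/
theorem rfin_card_one {N m n' d : ℕ} (hmd : d.Coprime m) (hmN : m * N ≤ n') :
    ((Ioc 0 N).filter (fun q => d ∣ n' - m * q)).card ≤ N / d + 1 := by
  have h1 : ((Ioc 0 N).filter (fun q => d ∣ n' - m * q)).card ≤ (range (N / d + 1)).card := by
    apply card_le_card_of_injOn (fun q => q / d)
    · intro q hq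
      obtain ⟨hq1, -⟩ := mem_filter.1 (mem_coe.1 hq)
      have hq3 := (mem_Ioc.1 hq1).2
      rw [mem_coe, mem_range]
      exact Nat.lt_succ_of_le (Nat.div_le_div_right hq3)
    · intro a ha b hb hab
      obtain ⟨ha1, ha2⟩ := mem_filter.1 (mem_coe.1 ha)
      obtain ⟨hb1, hb2⟩ := mem_filter.1 (mem_coe.1 hb)
      have ha3 : m * a ≤ n' := (Nat.mul_le_mul_left m (mem_Ioc.1 ha1).2).trans hmN
      have hb3 : m * b ≤ n' := (Nat.mul_le_mul_left m (mem_Ioc.1 hb1).2).trans hmN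
      have ha4 : m * a ≡ n' [MOD d] := (Nat.modEq_iff_dvd' ha3).2 ha2
      have hb4 : m * b ≡ n' [MOD d] := (Nat.modEq_iff_dvd' hb3).2 hb2
      have h5 : a ≡ b [MOD d] :=
        Nat.ModEq.cancel_left_of_coprime (Nat.coprime_iff_gcd_eq_one.1 hmd)
          (ha4.trans hb4.symm)
      have hab' : a / d = b / d := hab
      have h6 := Nat.div_add_mod a d
      have h7 := Nat.div_add_mod b d
      have h8 : a % d = b % d := h5
      rw [← h6, ← h7, hab', h8]
  rwa [card_range] at h1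

/-- number of `q ≤ N` with `n' - m q` divisible by the square of a prime `> z` -/
theorem rfin_card_sq {N m n' z y : ℕ} (hm : 1 ≤ m) (hmz : m ≤ z) (hmN : m * N ≤ n') :
    (((Ioc 0 N).filter (fun q => ∃ p ∈ (pr y).filter (fun p => z < p ∧ ¬ p ∣ n'),
      p ^ 2 ∣ n' - m * q)).card : ℝ) ≤ (N : ℝ) / z + y := by
  have hz : 1 ≤ z := hm.trans hmz
  have hsub : (Ioc 0 N).filter (fun q => ∃ p ∈ (pr y).filter (fun p => z < p ∧ ¬ p ∣ n'),
      p ^ 2 ∣ n' - m * q) ⊆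
      ((pr y).filter (fun p => z < p)).biUnion
        (fun p => (Ioc 0 N).filter (fun q => p ^ 2 ∣ n' - m * q)) := by
    intro q hq
    obtain ⟨hq1, p, hp, hq2⟩ := mem_filter.1 hq
    obtain ⟨hp1, hp2, -⟩ := mem_filter.1 hp
    exact mem_biUnion.2 ⟨p, mem_filter.2 ⟨hp1, hp2⟩, mem_filter.2 ⟨hq1, hq2⟩⟩
  have h1 : (((Ioc 0 N).filter (fun q => ∃ p ∈ (pr y).filter (fun p => z < p ∧ ¬ p ∣ n'),
      p ^ 2 ∣ n' - m * q)).card : ℝ)
      ≤ ∑ p ∈ (pr y).filter (fun p => z < p),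
        (((Ioc 0 N).filter (fun q => p ^ 2 ∣ n' - m * q)).card : ℝ) := by
    exact_mod_cast (card_le_card hsub).trans card_biUnion_le
  have h2 : ∑ p ∈ (pr y).filter (fun p => z < p),
      (((Ioc 0 N).filter (fun q => p ^ 2 ∣ n' - m * q)).card : ℝ)
      ≤ ∑ p ∈ (pr y).filter (fun p => z < p), ((N : ℝ) * ((p : ℝ) ^ 2)⁻¹ + 1) := by
    apply sum_le_sum
    intro p hp
    obtain ⟨hp1, hp2⟩ := mem_filter.1 hp
    have hpp := (fin_mem_pr.1 hp1).2
    have hpm : (p ^ 2).Coprime m := by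
      apply Nat.Coprime.pow_left
      rw [hpp.coprime_iff_not_dvd]
      intro hd
      have := Nat.le_of_dvd (by omega) hd
      omega
    have h3 := rfin_card_one (N := N) hpm hmN
    have h4 : (((Ioc 0 N).filter (fun q => p ^ 2 ∣ n' - m * q)).card : ℝ) ≤
        ((N / p ^ 2 : ℕ) : ℝ) + 1 := by exact_mod_cast h3
    have h5 := @Nat.cast_div_le ℝ _ _ _ N (p ^ 2)
    push_cast at h5
    rw [div_eq_mul_inv] at h5
    linarith
  have h3 : ∑ p ∈ (pr y).filter (fun p => z < p), ((N : ℝ) * ((p : ℝ) ^ 2)⁻¹ + 1) ≤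
      (N : ℝ) / z + y := by
    rw [sum_add_distrib, sum_const, nsmul_eq_mul, mul_one]
    have hc : ((((pr y).filter (fun p => z < p)).card : ℕ) : ℝ) ≤ y := by
      have h4 : (pr y).filter (fun p => z < p) ⊆ Ioc 0 y := by
        intro p hp
        obtain ⟨hp1, hp2⟩ := mem_filter.1 hp
        have := (fin_mem_pr.1 hp1).1
        rw [mem_Ioc]
        omega
      have h5 := card_le_card h4
      rw [Nat.card_Ioc] at h5
      exact_mod_cast h5
    have hs : ∑ p ∈ (pr y).filter (fun p => z < p), (N : ℝ) * ((p : ℝ) ^ 2)⁻¹ ≤ (N : ℝ) / z := by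
      rw [← mul_sum, div_eq_mul_inv]
      apply mul_le_mul_of_nonneg_left _ (Nat.cast_nonneg N)
      rcases le_total z y with hzy | hzy
      · have h4 : ∑ p ∈ (pr y).filter (fun p => z < p), ((p : ℝ) ^ 2)⁻¹ ≤
            ∑ p ∈ Ioc z y, ((p : ℝ) ^ 2)⁻¹ := by
          apply sum_le_sum_of_subset_of_nonneg
          · intro p hp
            obtain ⟨hp1, hp2⟩ := mem_filter.1 hp
            have := (fin_mem_pr.1 hp1).1
            rw [mem_Ioc]
            omega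
          · intro p _ _
            positivity
        have h5 := @sum_Ioc_inv_sq_le_sub ℝ _ _ _ z y (by omega) hzy
        have h6 : (0 : ℝ) ≤ (y : ℝ)⁻¹ := by positivity
        linarith
      · have h4 : (pr y).filter (fun p => z < p) = ∅ := by
          rw [filter_eq_empty_iff]
          intro p hp
          have := (fin_mem_pr.1 hp).1
          omega
        rw [h4, sum_empty]
        positivity
    linarith
  exact h1.trans (h2.trans h3)

/-- the switched sifting conditions -/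
theorem rfin_OmA {m n' w z y q : ℕ} (hwz : w ≤ z) (hq : q.Prime) (hyq : y < q)
    (hA : ∀ l ∈ pr z, q % l ∉ OmB w m n' l) : ∀ l ∈ pr y, q % l ∉ OmA w m n' l := by
  intro l hl hc
  obtain ⟨hl1, hl2⟩ := fin_mem_pr.1 hl
  have hne : q % l ≠ 0 := by
    intro h
    have hd := Nat.dvd_of_mod_eq_zero h
    rcases (Nat.dvd_prime hq).1 hd with h2 | h2
    · exact hl2.one_lt.ne' h2
    · omega
  unfold OmA at hc
  rw [mem_filter] at hc
  obtain ⟨hc1, hc2, hc3⟩ := hc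
  rcases hc2 with h3 | ⟨h3, h4⟩
  · exact hne h3
  · apply hA l (fin_mem_pr.2 ⟨h3.trans hwz, hl2⟩)
    unfold OmB
    rw [mem_filter]
    exact ⟨hc1, hne, Or.inl ⟨h3, h4⟩⟩

/-- `a = n' - m q` is free of small prime factors -/
theorem rfin_rough {m n' w z q : ℕ} (hmq : m * q ≤ n') (hq : q.Prime) (hzq : z < q)
    (hA : ∀ l ∈ pr z, q % l ∉ OmB w m n' l) : ∀ l ∈ pr z, ¬ l ∣ n' - m * q := by
  intro l hl hd
  obtain ⟨hl1, hl2⟩ := fin_mem_pr.1 hl
  have hne : q % l ≠ 0 := by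
    intro h
    have hd := Nat.dvd_of_mod_eq_zero h
    rcases (Nat.dvd_prime hq).1 hd with h2 | h2
    · exact hl2.one_lt.ne' h2
    · omega
  apply hA l hl
  unfold OmB
  rw [mem_filter, mem_range]
  refine ⟨Nat.mod_lt _ hl2.pos, hne, Or.inr ?_⟩
  rw [Nat.mul_mod_mod]
  exact (Nat.modEq_iff_dvd' hmq).2 hd

/-- `q^2 - 2` is free of small prime factors -/
theorem rfin_rough2 {m n' w z q : ℕ} (hwz : w ≤ z) (hq : q.Prime) (hzq : z < q)
    (hA : ∀ l ∈ pr z, q % l ∉ OmB w m n' l) : ∀ l ∈ pr w, ¬ l ∣ q ^ 2 - 2 := by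
  intro l hl hd
  obtain ⟨hl1, hl2⟩ := fin_mem_pr.1 hl
  have hne : q % l ≠ 0 := by
    intro h
    have hd := Nat.dvd_of_mod_eq_zero h
    rcases (Nat.dvd_prime hq).1 hd with h2 | h2
    · exact hl2.one_lt.ne' h2
    · omega
  apply hA l (fin_mem_pr.2 ⟨hl1.trans hwz, hl2⟩)
  unfold OmB
  rw [mem_filter, mem_range]
  have hq2 := hq.two_le
  have h4 : 2 ≤ q ^ 2 := by nlinarith
  refine ⟨Nat.mod_lt _ hl2.pos, hne, Or.inl ⟨hl1, ?_⟩⟩
  rw [← Nat.pow_mod]
  exact ((Nat.modEq_iff_dvd' h4).2 hd).symm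

/-- the inequality between the three sums if there is no good `q` outside of `E` -/
theorem rfin_ineqE {η : ℝ → ℝ} (hη : IsWt η) {N m n' w z y : ℕ} (E : Finset ℕ) (hm : 1 ≤ m)
    (hmN : m * N ≤ n') (hmz : m ≤ z) (hwz : w ≤ z) (hy : 8 * (y + 1) < N)
    (hno : ∀ q ∈ range (N + 1), q ∉ E → (∀ l ∈ pr z, q % l ∉ OmB w m n' l) →
      η ((q : ℝ) / N) ≠ 0 → q.Prime →
      (∀ p ∈ (pr y).filter (fun p => z < p ∧ ¬ p ∣ n'), ¬ p ^ 2 ∣ n' - m * q) →
      1 - (1 / 2) * ((((pr y).filter (fun p => z < p ∧ ¬ p ∣ n')).filter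
        (fun p => (m * q) % p = n' % p)).card : ℝ) - (1 / 2) * bt z y (n' - m * q) ≤ 0) :
    ∑ q ∈ (range (N + 1)).filter (fun q => ∀ l ∈ pr z, q % l ∉ OmB w m n' l),
        lam q * η ((q : ℝ) / N) -
      (1 / 2) * ∑ p ∈ (pr y).filter (fun p => z < p ∧ ¬ p ∣ n'), ∑ q ∈ (range (N + 1)).filter
        (fun q => (∀ l ∈ pr z, q % l ∉ OmB w m n' l) ∧ (m * q) % p = n' % p),
          lam q * η ((q : ℝ) / N) ≤
      (1 / 2) * (Real.log N * ∑ q ∈ (range (N + 1)).filter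
        (fun q => ∀ l ∈ pr y, q % l ∉ OmA w m n' l), bt z y (n' - m * q) * η ((q : ℝ) / N)) +
      (3 / 2) * (Real.log N * (((N : ℝ) / z + y) + 3 * (Real.sqrt N * Real.log N)) +
        Real.log N * E.card) := by
  have hN0 : 0 < N := by omega
  have hL : 0 ≤ Real.log N := Real.log_natCast_nonneg N
  set Q := (range (N + 1)).filter (fun q => ∀ l ∈ pr z, q % l ∉ OmB w m n' l) with hQ
  set f : ℕ → ℝ := fun q => lam q * η ((q : ℝ) / N) with hf
  set P := (pr y).filter (fun p => z < p ∧ ¬ p ∣ n') with hP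
  set SQ := (Ioc 0 N).filter (fun q => ∃ p ∈ P, p ^ 2 ∣ n' - m * q) with hSQ
  set PP := (range (N + 1)).filter (fun q => lam q ≠ 0 ∧ ¬ q.Prime) with hPP
  rw [rfin_double (fun q => ∀ l ∈ pr z, q % l ∉ OmB w m n' l)
    (fun p q => (m * q) % p = n' % p) P f, ← hQ]
  have hqN : ∀ q ∈ range (N + 1), q ≤ N := fun q hq => Nat.lt_succ_iff.1 (mem_range.1 hq)
  have hf0 : ∀ q, 0 ≤ f q := fun q => mul_nonneg (fin_lam_nonneg _) (hη.nonneg _)
  have hfL : ∀ q ∈ range (N + 1), f q ≤ Real.log N := fun q hq => by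
    have h1 := fin_lam_le (hqN q hq)
    have h2 := hη.le_one ((q : ℝ) / N)
    have h3 := hη.nonneg ((q : ℝ) / N)
    have h4 := fin_lam_nonneg q
    calc f q = lam q * η ((q : ℝ) / N) := rfl
      _ ≤ Real.log N * 1 := mul_le_mul h1 h2 h3 hL
      _ = Real.log N := mul_one _
  have hbig : ∀ q ∈ range (N + 1), η ((q : ℝ) / N) ≠ 0 → y < q := by
    intro q hq hq2
    have h1 := (hη.supp _ hq2).1
    have hNr : (0 : ℝ) < N := by exact_mod_cast hN0
    rw [lt_div_iff₀ hNr] at h1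
    have h2 : N < 8 * q := by
      have : (N : ℝ) < 8 * q := by linarith
      exact_mod_cast this
    omega
  -- the weights
  have hW : ∀ q ∈ Q, f q * (1 - (1 / 2) * ((P.filter (fun p => (m * q) % p = n' % p)).card : ℝ) -
      (1 / 2) * bt z y (n' - m * q)) ≤ Real.log N * ((if q ∈ SQ then (1 : ℝ) else 0) +
        (if q ∈ PP then (1 : ℝ) else 0) + (if q ∈ E then (1 : ℝ) else 0)) := by
    intro q hq
    obtain ⟨hq1, hq2⟩ := mem_filter.1 hq
    have hrhs : 0 ≤ Real.log N * ((if q ∈ SQ then (1 : ℝ) else 0) +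
        (if q ∈ PP then (1 : ℝ) else 0) + (if q ∈ E then (1 : ℝ) else 0)) := by
      apply mul_nonneg hL
      split_ifs <;> norm_num
    have hW1 : (1 - (1 / 2) * ((P.filter (fun p => (m * q) % p = n' % p)).card : ℝ) -
      (1 / 2) * bt z y (n' - m * q)) ≤ 1 := by
      have := fin_bt_nonneg z y (n' - m * q)
      have h2 : (0 : ℝ) ≤ ((P.filter (fun p => (m * q) % p = n' % p)).card : ℝ) :=
        Nat.cast_nonneg _
      linarith
    have hfull : f q * (1 - (1 / 2) * ((P.filter (fun p => (m * q) % p = n' % p)).card : ℝ) -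
      (1 / 2) * bt z y (n' - m * q)) ≤ Real.log N := by
      calc f q * (1 - (1 / 2) * ((P.filter (fun p => (m * q) % p = n' % p)).card : ℝ) -
            (1 / 2) * bt z y (n' - m * q))
          ≤ f q * 1 := mul_le_mul_of_nonneg_left hW1 (hf0 q)
        _ ≤ Real.log N := by rw [mul_one]; exact hfL q hq1
    by_cases h0 : f q = 0
    · rw [h0, zero_mul]
      exact hrhs
    have hη0 : η ((q : ℝ) / N) ≠ 0 := by
      intro h
      apply h0
      simp only [hf, h, mul_zero]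
    have hlam0 : lam q ≠ 0 := by
      intro h
      apply h0
      simp only [hf, h, zero_mul]
    have hE0 : (0 : ℝ) ≤ (if q ∈ E then (1 : ℝ) else 0) := by split_ifs <;> norm_num
    by_cases h1 : q ∈ SQ
    · refine hfull.trans ?_
      rw [if_pos h1]
      have : (0 : ℝ) ≤ (if q ∈ PP then (1 : ℝ) else 0) := by split_ifs <;> norm_num
      nlinarith
    by_cases h2 : q ∈ PP
    · refine hfull.trans ?_
      rw [if_pos h2, if_neg h1]
      nlinarith
    by_cases hqE : q ∈ E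
    · refine hfull.trans ?_
      rw [if_pos hqE, if_neg h1, if_neg h2]
      linarith
    have hpr : q.Prime := by
      by_contra hcon
      exact h2 (mem_filter.2 ⟨hq1, hlam0, hcon⟩)
    have hsq : ∀ p ∈ P, ¬ p ^ 2 ∣ n' - m * q := by
      intro p hp hd
      apply h1
      rw [hSQ, mem_filter, mem_Ioc]
      exact ⟨⟨hpr.pos, hqN q hq1⟩, p, hp, hd⟩
    have h3 := hno q hq1 hqE hq2 hη0 hpr hsq
    exact (mul_nonpos_of_nonneg_of_nonpos (hf0 q) h3).trans hrhs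
  -- the switched part
  have hB : ∀ q ∈ Q, f q * bt z y (n' - m * q) ≤ Real.log N *
      (if ∀ l ∈ pr y, q % l ∉ OmA w m n' l then bt z y (n' - m * q) * η ((q : ℝ) / N) else 0) +
      Real.log N * (if q ∈ PP then (1 : ℝ) else 0) := by
    intro q hq
    obtain ⟨hq1, hq2⟩ := mem_filter.1 hq
    have hb0 := fin_bt_nonneg z y (n' - m * q)
    have hη1 := hη.nonneg ((q : ℝ) / N)
    have hr1 : 0 ≤ Real.log N *
      (if ∀ l ∈ pr y, q % l ∉ OmA w m n' l then bt z y (n' - m * q) * η ((q : ℝ) / N) else 0) := by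
      apply mul_nonneg hL
      split_ifs
      · exact mul_nonneg hb0 hη1
      · exact le_refl 0
    have hr2 : 0 ≤ Real.log N * (if q ∈ PP then (1 : ℝ) else 0) := by
      apply mul_nonneg hL
      split_ifs <;> norm_num
    by_cases h0 : f q = 0
    · rw [h0, zero_mul]
      linarith
    have hη0 : η ((q : ℝ) / N) ≠ 0 := by
      intro h
      apply h0
      simp only [hf, h, mul_zero]
    have hlam0 : lam q ≠ 0 := by
      intro h
      apply h0
      simp only [hf, h, zero_mul]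
    by_cases h2 : q ∈ PP
    · rw [if_pos h2, mul_one]
      have h3 : f q * bt z y (n' - m * q) ≤ Real.log N * 1 :=
        mul_le_mul (hfL q hq1) (fin_bt_le_one z y _) hb0 hL
      linarith
    have hpr : q.Prime := by
      by_contra hcon
      exact h2 (mem_filter.2 ⟨hq1, hlam0, hcon⟩)
    have hyx := hbig q hq1 hη0
    rw [if_pos (rfin_OmA hwz hpr hyx hq2)]
    have h3 : f q * bt z y (n' - m * q) ≤
        Real.log N * (bt z y (n' - m * q) * η ((q : ℝ) / N)) := by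
      have h4 := fin_lam_le (hqN q hq1)
      calc f q * bt z y (n' - m * q) = lam q * (bt z y (n' - m * q) * η ((q : ℝ) / N)) := by
            simp only [hf]
            ring
        _ ≤ Real.log N * (bt z y (n' - m * q) * η ((q : ℝ) / N)) :=
            mul_le_mul_of_nonneg_right h4 (mul_nonneg hb0 hη1)
    linarith
  have hsumSQ : ∑ q ∈ Q, (if q ∈ SQ then (1 : ℝ) else 0) ≤ (N : ℝ) / z + y := by
    refine le_trans ?_ (rfin_card_sq (N := N) (z := z) (y := y) hm hmz hmN)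
    rw [← sum_filter, sum_const, nsmul_eq_mul, mul_one]
    exact_mod_cast card_le_card (fun q hq => (mem_filter.1 hq).2)
  have hsumPP : ∑ q ∈ Q, (if q ∈ PP then (1 : ℝ) else 0) ≤
      3 * (Real.sqrt N * Real.log N) := by
    refine le_trans ?_ (rfin_card_pp (by omega : 1 ≤ N))
    rw [← sum_filter, sum_const, nsmul_eq_mul, mul_one]
    exact_mod_cast card_le_card (fun q hq => (mem_filter.1 hq).2)
  have hsumE : ∑ q ∈ Q, (if q ∈ E then (1 : ℝ) else 0) ≤ (E.card : ℝ) := by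
    rw [← sum_filter, sum_const, nsmul_eq_mul, mul_one]
    exact_mod_cast card_le_card (fun q hq => (mem_filter.1 hq).2)
  have hBsum : ∑ q ∈ Q, (if ∀ l ∈ pr y, q % l ∉ OmA w m n' l then
      bt z y (n' - m * q) * η ((q : ℝ) / N) else 0) ≤
      ∑ q ∈ (range (N + 1)).filter (fun q => ∀ l ∈ pr y, q % l ∉ OmA w m n' l),
        bt z y (n' - m * q) * η ((q : ℝ) / N) := by
    rw [← sum_filter]
    apply sum_le_sum_of_subset_of_nonneg
    · intro q hq
      obtain ⟨hq1, hq2⟩ := mem_filter.1 hq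
      exact mem_filter.2 ⟨(mem_filter.1 hq1).1, hq2⟩
    · intro q _ _
      exact mul_nonneg (fin_bt_nonneg z y _) (hη.nonneg _)
  have hS1 := sum_le_sum hW
  have hS2 := sum_le_sum hB
  rw [← mul_sum, sum_add_distrib, sum_add_distrib] at hS1
  rw [sum_add_distrib, ← mul_sum, ← mul_sum] at hS2
  have hS3 : ∑ q ∈ Q, f q * (1 - (1 / 2) * ((P.filter (fun p => (m * q) % p = n' % p)).card : ℝ) -
      (1 / 2) * bt z y (n' - m * q)) = ∑ q ∈ Q, f q -
        (1 / 2) * ∑ q ∈ Q, f q * ((P.filter (fun p => (m * q) % p = n' % p)).card : ℝ) -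
        (1 / 2) * ∑ q ∈ Q, f q * bt z y (n' - m * q) := by
    rw [mul_sum, mul_sum, ← sum_sub_distrib, ← sum_sub_distrib]
    apply sum_congr rfl
    intro q _
    ring
  rw [hS3] at hS1
  have hm1 := mul_le_mul_of_nonneg_left hsumSQ hL
  have hm2 := mul_le_mul_of_nonneg_left hsumPP hL
  have hm3 := mul_le_mul_of_nonneg_left hBsum hL
  have hm4 := mul_le_mul_of_nonneg_left hsumE hL
  have hnn4 : 0 ≤ Real.log N * (E.card : ℝ) := by positivity
  have hnn : 0 ≤ Real.log N * ((N : ℝ) / z + y) := by positivity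
  nlinarith [hS1, hS2, hm1, hm2, hm3, hm4, hnn, hnn4]

/-- a `q` outside of `E` of positive weight is good -/
theorem rfin_goodE (h2 : St_Wt) {η : ℝ → ℝ} (hη : IsWt η) {N m n' w z y : ℕ} {δ : ℝ} {X : ℕ}
    (hX : X = m * N) (hm : 1 ≤ m)
    (hmN : m * N ≤ n') (hmN1 : n' < m * (N + 1)) (hN100 : 100 ≤ N) (hmz : m ≤ z) (hwz : w ≤ z)
    (hzy : z ≤ y) (hy8 : 8 * (y + 1) < N)
    (hy3 : X ≤ y ^ 3) (hδ : 0 < δ) (hwδ : (X : ℝ) ^ δ ≤ (w : ℝ) + 1)
    (E : Finset ℕ)
    (hcon : ∀ q : ℕ, q.Prime → q ≤ N → q ∉ E → Nat.IsAtMostAlmostPrime 2 (n' - m * q) →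
      ¬ Nat.IsAtMostAlmostPrime ⌈2 / δ⌉₊ (q ^ 2 - 2)) :
    ∀ q ∈ range (N + 1), q ∉ E → (∀ l ∈ pr z, q % l ∉ OmB w m n' l) →
      η ((q : ℝ) / N) ≠ 0 → q.Prime →
      (∀ p ∈ (pr y).filter (fun p => z < p ∧ ¬ p ∣ n'), ¬ p ^ 2 ∣ n' - m * q) →
      1 - (1 / 2) * ((((pr y).filter (fun p => z < p ∧ ¬ p ∣ n')).filter
        (fun p => (m * q) % p = n' % p)).card : ℝ) - (1 / 2) * bt z y (n' - m * q) ≤ 0 := by
  intro q hq hqE hA hη0 hpr hsq
  by_contra hW
  have hN0 : (0 : ℝ) < N := by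
    have : (100 : ℝ) ≤ N := by exact_mod_cast hN100
    linarith
  have hq1 : q ≤ N := Nat.lt_succ_iff.1 (mem_range.1 hq)
  have hmq : m * q ≤ n' := (Nat.mul_le_mul_left m hq1).trans hmN
  obtain ⟨hs1, hs2⟩ := hη.supp _ hη0
  rw [lt_div_iff₀ hN0] at hs1
  rw [div_lt_iff₀ hN0] at hs2
  have hq2 : 8 * q < 7 * N := by
    have : (8 : ℝ) * q < 7 * N := by linarith
    exact_mod_cast this
  have hq3 : N < 8 * q := by
    have : (N : ℝ) < 8 * q := by linarith
    exact_mod_cast this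
  have hyq : y < q := by omega
  have hzq : z < q := by omega
  have ha1 : 1 ≤ n' - m * q := by
    have h5 : m * (N - q) ≤ n' - m * q := by
      rw [Nat.mul_sub]
      omega
    have h6 : N - q ≤ m * (N - q) := Nat.le_mul_of_pos_left _ (by omega)
    omega
  have haX : n' - m * q < X := by
    have h5 : m * (N + 1) = m * N + m := by ring
    have h6 : m ≤ m * q := Nat.le_mul_of_pos_right _ hpr.pos
    omega
  have hNX : N ≤ X := by
    rw [hX]
    exact Nat.le_mul_of_pos_left _ (by omega)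
  have hX1 : (1 : ℝ) < X := by
    have h5 : (N : ℝ) ≤ X := by exact_mod_cast hNX
    have : (100 : ℝ) ≤ N := by exact_mod_cast hN100
    linarith
  have hr := rfin_rough hmq hpr hzq hA
  have hr2 := rfin_rough2 hwz hpr hzq hA
  have hpz : ∀ p : ℕ, p.Prime → p ∣ n' - m * q → z < p := by
    intro p hp hd
    by_contra h5
    exact hr p (fin_mem_pr.2 ⟨by omega, hp⟩) hd
  have hpn : ∀ p : ℕ, p.Prime → p ≤ y → p ∣ n' - m * q → ¬ p ∣ n' := by
    intro p hp hpy hd hn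
    have h5 := hpz p hp hd
    have h6 : p ∣ m * q := by
      have h7 := Nat.dvd_sub hn hd
      have h8 : n' - (n' - m * q) = m * q := by omega
      rwa [h8] at h7
    rcases (Nat.Prime.dvd_mul hp).1 h6 with h7 | h7
    · have := Nat.le_of_dvd (by omega) h7
      omega
    · rcases (Nat.dvd_prime hpr).1 h7 with h8 | h8
      · exact hp.one_lt.ne' h8
      · omega
  have hfe : ((pr y).filter (fun p => z < p ∧ ¬ p ∣ n')).filter (fun p => (m * q) % p = n' % p) =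
      (pr y).filter (fun p => p ∣ n' - m * q) := by
    rw [filter_filter]
    apply filter_congr
    intro p hp
    obtain ⟨hp1, hp2⟩ := fin_mem_pr.1 hp
    constructor
    · rintro ⟨-, h5⟩
      exact (Nat.modEq_iff_dvd' hmq).1 h5
    · intro h5
      exact ⟨⟨hpz p hp2 h5, hpn p hp2 hp1 h5⟩, (Nat.modEq_iff_dvd' hmq).2 h5⟩
  rw [hfe, not_le] at hW
  have hO := h2 z y (n' - m * q) ha1 (by omega) hpz ?_ hW
  · refine hcon q hpr hq1 hqE hO ?_
    have h4q : 4 ≤ q := by omega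
    have h5 : 2 < q ^ 2 := by nlinarith
    have h6 : q ^ 2 - 2 ≤ X ^ 2 := (Nat.sub_le _ _).trans (Nat.pow_le_pow_left (hq1.trans hNX) 2)
    have h7 : ((q ^ 2 - 2 : ℕ) : ℝ) ≤ (X : ℝ) ^ (2 : ℝ) := by
      rw [Real.rpow_two]
      exact_mod_cast h6
    exact fin_Omega hX1 hδ (by omega) h7 hwδ (Nat.le_ceil _) hr2
  · intro p hp hpy hd
    have h5 : p ∣ n' - m * q := (dvd_pow_self p (by norm_num)).trans hd
    exact hsq p (mem_filter.2 ⟨fin_mem_pr.2 ⟨hpy, hp⟩, hpz p hp h5, hpn p hp hpy h5⟩) hd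

/-- the switched sum is not negative -/
theorem rfin_SB_nonneg {η : ℝ → ℝ} (hη : IsWt η) (N z y w m n' : ℕ) :
    0 ≤ ∑ q ∈ (range (N + 1)).filter (fun q => ∀ l ∈ pr y, q % l ∉ OmA w m n' l),
      bt z y (n' - m * q) * η ((q : ℝ) / N) :=
  sum_nonneg (fun _ _ => mul_nonneg (fin_bt_nonneg _ _ _) (hη.nonneg _))

/-- the main argument with an exceptional set -/
theorem thm_RFinE (h0 : ∃ A0 : ℝ, 0 < A0 ∧ St_RA A0 ∧ St_RP A0 ∧ St_RB A0) (h1 : CH.St_cB)
    (h2 : CH.St_Wt) (h3 : CAE.St_V2A) (h4 : CH.St_Dens) : St_RFinE := by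
  obtain ⟨A0, hA0, hSA, hSP, hSB⟩ := h0
  obtain ⟨η, hη⟩ := exists_wt
  obtain ⟨κ, hκdef⟩ : ∃ κ : ℝ, κ = A0 * (Real.log 3 / 4) - A0 * (Real.log 6 / 4) / 2 -
    A0 * (cB / 4) / 2 := ⟨_, rfl⟩
  have hκ : 0 < κ := hκdef ▸ fin_kappa hA0 h1
  obtain ⟨ε, hεdef⟩ : ∃ ε : ℝ, ε = min (1 / 10) (κ / (2 * (3 + A0))) := ⟨_, rfl⟩
  have hε : 0 < ε := hεdef ▸ lt_min (by norm_num) (by positivity)
  have hε1 : ε ≤ 1 / 10 := hεdef ▸ min_le_left _ _
  have hε2 : ε * (3 + A0) ≤ κ / 2 := by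
    have h5 : ε ≤ κ / (2 * (3 + A0)) := hεdef ▸ min_le_right _ _
    rw [le_div_iff₀ (by positivity)] at h5
    linarith
  obtain ⟨δa, hδa, hSA⟩ := hSA η hη ε hε
  obtain ⟨δp, hδp, hSP⟩ := hSP η hη ε hε
  obtain ⟨δb, hδb, hSB⟩ := hSB η hη ε hε
  obtain ⟨δ, hδ, hδ1, hδ2, hδ3, hδ4⟩ : ∃ δ : ℝ, 0 < δ ∧ δ ≤ δa ∧ δ ≤ δp ∧ δ ≤ δb ∧
      δ ≤ 1 / 20 := ⟨min (min δa δp) (min δb (1 / 20)),
    lt_min (lt_min hδa hδp) (lt_min hδb (by norm_num)),
    (min_le_left _ _).trans (min_le_left _ _), (min_le_left _ _).trans (min_le_right _ _),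
    (min_le_right _ _).trans (min_le_left _ _), (min_le_right _ _).trans (min_le_right _ _)⟩
  obtain ⟨c₀, hc₀, hVL⟩ := h3
  obtain ⟨k, hk⟩ : ∃ k : ℕ, k = 2 := ⟨2, rfl⟩
  obtain ⟨c, hcdef⟩ : ∃ c : ℝ, c = c₀ / 4 := ⟨_, rfl⟩
  have hc : 0 < c := by rw [hcdef]; positivity
  refine ⟨⌈2 / δ⌉₊, κ * c / 24, by positivity, fun A₀ => ?_⟩
  filter_upwards [hSA δ hδ hδ1 A₀, hSP δ hδ hδ2 A₀, hSB δ hδ hδ3 A₀, fin_log_pow 2 A₀ hε,
    fin_log_pow 2 0 (show (0 : ℝ) < 1 / 8 by norm_num),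
    fin_log_pow 24 0 (show (0 : ℝ) < 3 / 8 by norm_num),
    fin_log_pow (96 / (κ / 2 * c)) (k + 2) (show (0 : ℝ) < 1 / 8 by norm_num),
    fin_log_pow 1 A₀ hδ,
    eventually_ge_atTop 100] with N hSA hSP hSB hE1 hE2 hE3 hE4 hE5 hN100 m n' hSit E hE
  have hSA := hSA m n' hSit
  have hSP := hSP m n' hSit
  have hSB := hSB m n' hSit
  obtain ⟨hm, hmlog, hcop, hpar, hmN, hmN1⟩ := hSit
  obtain ⟨X, hX⟩ : ∃ X : ℕ, X = m * N := ⟨_, rfl⟩
  rw [← hX] at hSA hSP hSB
  have hNr : (100 : ℝ) ≤ N := by exact_mod_cast hN100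
  have hN0 : (0 : ℝ) < N := by linarith
  have hN1 : (1 : ℝ) ≤ N := by linarith
  rw [pow_zero, mul_one] at hE2 hE3
  have hLg : 1 ≤ Real.log N := by
    rw [Real.le_log_iff_exp_le hN0]
    have := Real.exp_one_lt_d9
    linarith
  have hm0 : (1 : ℝ) ≤ m := by exact_mod_cast hm
  -- size of X
  have hXr : (X : ℝ) = m * N := by
    rw [hX]
    push_cast
    ring
  have hNX : (N : ℝ) ≤ X := by
    rw [hXr]
    exact le_mul_of_one_le_left hN0.le hm0
  have hX0 : (0 : ℝ) < X := by linarith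
  have hX1 : (1 : ℝ) ≤ X := by linarith
  have hXN : (X : ℝ) ≤ (N : ℝ) ^ (1 + ε) := by
    rw [hXr, add_comm, Real.rpow_add hN0, Real.rpow_one]
    apply mul_le_mul_of_nonneg_right _ hN0.le
    have h5 : 0 ≤ Real.log N ^ A₀ := by positivity
    linarith
  have hXN32 : (X : ℝ) ≤ (N : ℝ) ^ (3 / 2 : ℝ) :=
    hXN.trans (Real.rpow_le_rpow_of_exponent_le hN1 (by linarith))
  have hlogNX : Real.log N ≤ Real.log X := Real.log_le_log hN0 hNX
  have hlogX : Real.log X ≤ 2 * Real.log N := by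
    have h5 : Real.log X ≤ Real.log ((N : ℝ) ^ (3 / 2 : ℝ)) := Real.log_le_log hX0 hXN32
    rw [Real.log_rpow hN0] at h5
    linarith
  have hLX : Real.log N ≤ (1 + ε) * Real.log X :=
    hlogNX.trans (le_mul_of_one_le_left (by linarith) (by linarith))
  have hX3 : (X : ℝ) ^ (1 / 3 : ℝ) ≤ (N : ℝ) ^ (1 / 2 : ℝ) := by
    have h5 : (X : ℝ) ^ (1 / 3 : ℝ) ≤ ((N : ℝ) ^ (3 / 2 : ℝ)) ^ (1 / 3 : ℝ) :=
      Real.rpow_le_rpow hX0.le hXN32 (by norm_num)
    rw [← Real.rpow_mul hN0.le] at h5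
    norm_num at h5 ⊢
    exact h5
  -- the parameters
  have hN8X : (N : ℝ) ^ (1 / 8 : ℝ) ≤ (X : ℝ) ^ (1 / 8 : ℝ) :=
    Real.rpow_le_rpow hN0.le hNX (by norm_num)
  have hz2 : 2 ≤ zN X := by
    unfold zN
    apply Nat.le_floor
    push_cast
    linarith
  have hzT : (N : ℝ) ^ (1 / 8 : ℝ) ≤ 2 * (zN X : ℝ) := by
    have h5 : (X : ℝ) ^ (1 / 8 : ℝ) < (zN X : ℝ) + 1 := Nat.lt_floor_add_one _
    have h6 : (2 : ℝ) ≤ zN X := by exact_mod_cast hz2
    linarith
  have hzN : (zN X : ℝ) ≤ (X : ℝ) ^ (1 / 8 : ℝ) := Nat.floor_le (Real.rpow_nonneg hX0.le _)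
  have hyge : (X : ℝ) ^ (1 / 3 : ℝ) ≤ yN X := Nat.le_ceil _
  have hylt : (yN X : ℝ) < (X : ℝ) ^ (1 / 3 : ℝ) + 1 :=
    Nat.ceil_lt_add_one (Real.rpow_nonneg hX0.le _)
  have hT1 : 1 ≤ (X : ℝ) ^ (1 / 3 : ℝ) := Real.one_le_rpow hX1 (by norm_num)
  have hh0 : (24 : ℝ) < (N : ℝ) ^ (1 / 2 : ℝ) :=
    hE3.trans_le (Real.rpow_le_rpow_of_exponent_le hN1 (by norm_num))
  have hhh : (N : ℝ) ^ (1 / 2 : ℝ) * (N : ℝ) ^ (1 / 2 : ℝ) = N := by
    rw [← Real.rpow_add hN0]
    norm_num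
  have hy8 : 8 * (yN X + 1) < N := by
    have h5 : (N : ℝ) ^ (1 / 2 : ℝ) * 24 < N := by
      calc (N : ℝ) ^ (1 / 2 : ℝ) * 24 < (N : ℝ) ^ (1 / 2 : ℝ) * (N : ℝ) ^ (1 / 2 : ℝ) :=
            mul_lt_mul_of_pos_left hh0 (by linarith)
        _ = N := hhh
    have h6 : (8 : ℝ) * (yN X + 1) < N := by linarith
    exact_mod_cast h6
  have hzy : zN X ≤ yN X := by
    have h5 : (X : ℝ) ^ (1 / 8 : ℝ) ≤ (X : ℝ) ^ (1 / 3 : ℝ) :=
      Real.rpow_le_rpow_of_exponent_le hX1 (by norm_num)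
    have h6 : (zN X : ℝ) ≤ yN X := by linarith
    exact_mod_cast h6
  have hwz : wN δ X ≤ zN X := by
    unfold wN zN
    exact Nat.floor_le_floor (Real.rpow_le_rpow_of_exponent_le hX1 (by linarith))
  have hwδ : (X : ℝ) ^ δ ≤ (wN δ X : ℝ) + 1 := (Nat.lt_floor_add_one _).le
  have hy3 : X ≤ yN X ^ 3 := by
    have h5 : ((X : ℝ) ^ (1 / 3 : ℝ)) ^ 3 = X := by
      rw [← Real.rpow_natCast, ← Real.rpow_mul hX0.le]
      norm_num
    have h6 : ((X : ℝ) ^ (1 / 3 : ℝ)) ^ 3 ≤ (yN X : ℝ) ^ 3 :=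
      pow_le_pow_left₀ (by linarith) hyge 3
    rw [h5] at h6
    exact_mod_cast h6
  have hsn : Real.sqrt N + yN X ≤ (N : ℝ) ^ (7 / 8 : ℝ) := by
    have h5 : Real.sqrt N = (N : ℝ) ^ (1 / 2 : ℝ) := Real.sqrt_eq_rpow _
    have h6 : (N : ℝ) ^ (7 / 8 : ℝ) = (N : ℝ) ^ (1 / 2 : ℝ) * (N : ℝ) ^ (3 / 8 : ℝ) := by
      rw [← Real.rpow_add hN0]
      norm_num
    rw [h5, h6]
    have h7 : (N : ℝ) ^ (1 / 2 : ℝ) * 24 ≤ (N : ℝ) ^ (1 / 2 : ℝ) * (N : ℝ) ^ (3 / 8 : ℝ) :=
      mul_le_mul_of_nonneg_left hE3.le (by linarith)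
    linarith
  have hL0 : 0 ≤ Real.log N := by linarith
  -- the unit
  have hI := fin_int hη
  have hφ0 : (0 : ℝ) < m.totient := by exact_mod_cast Nat.totient_pos.2 (by omega)
  have hφm : (m.totient : ℝ) ≤ m := by exact_mod_cast Nat.totient_le m
  have hmφ : 1 ≤ (m : ℝ) / m.totient := by
    rw [le_div_iff₀ hφ0]
    linarith
  have hmw : m ≤ wN δ X := by
    unfold wN
    apply Nat.le_floor
    rw [one_mul] at hE5
    have h5 : (N : ℝ) ^ δ ≤ (X : ℝ) ^ δ := Real.rpow_le_rpow hN0.le hNX hδ.le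
    linarith
  have hV : (m : ℝ) / m.totient * (c / Real.log N ^ k) ≤
      VV (gB (wN δ X) m n') (zN X) := by
    have h5 : 0 < Real.log (zN X) := Real.log_pos (by exact_mod_cast hz2)
    have h6 : (zN X : ℝ) ≤ X := hzN.trans (by
      calc (X : ℝ) ^ (1 / 8 : ℝ) ≤ (X : ℝ) ^ (1 : ℝ) :=
            Real.rpow_le_rpow_of_exponent_le hX1 (by norm_num)
        _ = X := Real.rpow_one _)
    have h7 : Real.log (zN X) ≤ 2 * Real.log N :=
      (Real.log_le_log (by exact_mod_cast (by omega : 0 < zN X)) h6).trans hlogX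
    have h8 : c / Real.log N ^ k ≤ VV (gA (wN δ X) m n') (zN X) := by
      rw [hk]
      refine le_trans ?_ (hVL (wN δ X) m n' (zN X) hz2 hm hcop hpar)
      have h9 : c / Real.log N ^ 2 = c₀ / (2 * Real.log N) ^ 2 := by
        rw [hcdef, mul_pow]
        have : Real.log N ≠ 0 := by linarith
        field_simp
        norm_num
      rw [h9]
      exact div_le_div_of_nonneg_left hc₀.le (pow_pos h5 2) (pow_le_pow_left₀ h5.le h7 2)
    rw [(h4 (wN δ X) m n' hm hcop hpar).2.2 (zN X) hmw hwz] at h8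
    have h9 := mul_le_mul_of_nonneg_left h8 (le_trans zero_le_one hmφ)
    refine h9.trans (le_of_eq ?_)
    have : (m : ℝ) ≠ 0 := by linarith
    field_simp
  have hcl : 0 ≤ c / Real.log N ^ k := by positivity
  have hUU : (1 / 2) * N * ((m : ℝ) / m.totient * (c / Real.log N ^ k)) ≤ UR η δ N m n' := by
    unfold UR
    rw [← hX]
    apply mul_le_mul _ hV (by positivity) (by positivity)
    exact mul_le_mul_of_nonneg_right hI hN0.le
  have hU : (1 / 2) * N * (c / Real.log N ^ k) ≤ UR η δ N m n' := by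
    refine le_trans ?_ hUU
    apply mul_le_mul_of_nonneg_left _ (by positivity)
    exact le_mul_of_one_le_left hcl hmφ
  have hU0 : 0 ≤ UR η δ N m n' := le_trans (by positivity) hU
  by_contra hcon
  push Not at hcon
  have hno := rfin_goodE h2 hη hX hm hmN hmN1 (by omega) (hmw.trans hwz) hwz hzy hy8 hy3 hδ hwδ
    E hcon
  have hmain := rfin_ineqE hη E hm hmN (hmw.trans hwz) hwz hy8 hno
  have hSB0 := rfin_SB_nonneg hη N (zN X) (yN X) (wN δ X) m n'
  have hcB : cB ≤ 2 / 5 := h1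
  have hkey := fin_alg hA0 hκdef hε hε2 hcB (by linarith : 0 < Real.log X)
    hLX hU0 hSB0 hSA hSP hSB hmain hε1
  have hkey2 : κ / 2 / 2 * UR η δ N m n' ≤
      (3 / 2) * (Real.log N * ((N : ℝ) / zN X + 3 * ((Real.sqrt N + yN X) * Real.log N))) := by
    have hLk : 0 < Real.log N ^ k := by positivity
    have h5 : (E.card : ℝ) * Real.log N ^ k * Real.log N ≤
        κ * c / 24 * ((m : ℝ) / m.totient * N) := by
      have h6 : (E.card : ℝ) * Real.log N ^ 3 ≤ κ * c / 24 * ((m : ℝ) / m.totient * N) := by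
        have h7 : κ * c / 24 * ((m : ℝ) / m.totient * N / Real.log N ^ 3) =
            κ * c / 24 * ((m : ℝ) / m.totient * N) / Real.log N ^ 3 := by
          ring
        rw [h7, le_div_iff₀ (by positivity)] at hE
        exact hE
      rw [hk]
      refine le_trans (le_of_eq ?_) h6
      ring
    have h8 : (3 / 2) * (Real.log N * (E.card : ℝ)) ≤ κ / 2 / 2 * UR η δ N m n' := by
      have h9 : Real.log N * (E.card : ℝ) ≤ 2 * Real.log N * E.card := by
        apply mul_le_mul_of_nonneg_right _ (Nat.cast_nonneg _)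
        linarith
      have h10 : κ / 2 / 2 * ((1 / 2) * N * ((m : ℝ) / m.totient * (c / Real.log N ^ k))) ≤
          κ / 2 / 2 * UR η δ N m n' :=
        mul_le_mul_of_nonneg_left hUU (by linarith)
      refine le_trans ?_ h10
      have h11 : (3 / 2) * (2 * Real.log N * (E.card : ℝ)) * Real.log N ^ k ≤
          κ / 8 * c * ((m : ℝ) / m.totient * N) := by
        linarith
      have h12 : κ / 2 / 2 * ((1 / 2) * N * ((m : ℝ) / m.totient * (c / Real.log N ^ k))) =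
          κ / 8 * c * ((m : ℝ) / m.totient * N) / Real.log N ^ k := by
        ring
      rw [h12, le_div_iff₀ hLk]
      refine le_trans ?_ h11
      apply mul_le_mul_of_nonneg_right _ hLk.le
      linarith
    have h13 : Real.log N * (((N : ℝ) / zN X + yN X) + 3 * (Real.sqrt N * Real.log N)) ≤
        Real.log N * ((N : ℝ) / zN X + 3 * ((Real.sqrt N + yN X) * Real.log N)) := by
      apply mul_le_mul_of_nonneg_left _ hL0
      have h14 : (0 : ℝ) ≤ yN X := Nat.cast_nonneg _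
      have h15 : (yN X : ℝ) ≤ yN X * Real.log N := le_mul_of_one_le_right h14 hLg
      have h16 : (0 : ℝ) ≤ yN X * Real.log N := mul_nonneg h14 hL0
      have h17 : (Real.sqrt N + yN X) * Real.log N =
          Real.sqrt N * Real.log N + yN X * Real.log N := add_mul _ _ _
      rw [h17]
      linarith
    linarith
  refine fin_num (k := k) (N := N) (T := (N : ℝ) ^ (1 / 8 : ℝ)) (sq := (N : ℝ) ^ (7 / 8 : ℝ))
    (half_pos hκ) hc hN0 hLg hL0 (by linarith) (Real.rpow_pos_of_pos hN0 _) hzT ?_ hU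
    (add_nonneg (Real.sqrt_nonneg _) (Nat.cast_nonneg _)) hsn hE4 hkey2
  rw [← Real.rpow_add hN0]
  norm_num

end Pool.Agent.RVC
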