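import Mathlib
import Pool.Agent.RVC.Stmts
import Pool.Agent.CH.SP

set_option autoImplicit false

/-!
# RVC / RP

The upper bound for the sum over the primes `p` in `(z, y]` of the sifted sums over the primes `q`
with `p ∣ n' - m q`; adaptation of `CH/SP.lean` to the scale `m N`.
-/

namespace Pool.Agent.RVC

open Finset Filter Pool.Agent.MT Pool.Agent.CH

/-- the density of a squarefree modulus -/
theorem RP_density (w m n' d : ℕ) (hd : Squarefree d) :
    1 / (d.totient : ℝ) * ∏ l ∈ d.primeFactors, ((OmB w m n' l).card : ℝ) =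
      ∏ l ∈ d.primeFactors, gB w m n' l := by
  have h1 : d.totient = ∏ l ∈ d.primeFactors, (l - 1) := by
    have h2 := SP_totient 1 d.primeFactors fun l hl => Nat.prime_of_mem_primeFactors hl
    rw [one_mul, Nat.prod_primeFactors_of_squarefree hd, Nat.totient_one, one_mul] at h2
    rw [h2]
    refine prod_congr rfl fun l hl => ?_
    rw [if_neg]
    intro h
    exact (Nat.prime_of_mem_primeFactors hl).one_lt.ne' (Nat.dvd_one.1 h)
  have h3 : ((∏ l ∈ d.primeFactors, (l - 1) : ℕ) : ℝ) = ∏ l ∈ d.primeFactors, ((l : ℝ) - 1) := by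
    rw [Nat.cast_prod]
    refine prod_congr rfl fun l hl => ?_
    rw [Nat.cast_sub (Nat.prime_of_mem_primeFactors hl).one_le, Nat.cast_one]
  unfold gB
  rw [h1, h3, prod_div_distrib, one_div_mul_eq_div]

/-- the class modulo `p` -/
theorem RP_cls {p m : ℕ} (hp : p.Prime) (hpm : ¬ p ∣ m) (n' : ℕ) :
    ∃ c : ℕ, (m * c) % p = n' % p ∧ ∀ q : ℕ, (m * q) % p = n' % p ↔ q ≡ c [MOD p] := by
  have hcop : m.Coprime p := (Nat.Coprime.symm ((Nat.Prime.coprime_iff_not_dvd hp).2 hpm))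
  have : Fact p.Prime := ⟨hp⟩
  have hm0 : (m : ZMod p) ≠ 0 := by
    intro h
    exact hpm ((ZMod.natCast_eq_zero_iff m p).1 h)
  have h1 : (m * ((n' : ZMod p) * (m : ZMod p)⁻¹).val) % p = n' % p := by
    have h2 : ((m * ((n' : ZMod p) * (m : ZMod p)⁻¹).val : ℕ) : ZMod p) = (n' : ZMod p) := by
      rw [Nat.cast_mul, ZMod.natCast_val, ZMod.cast_id, mul_comm, mul_assoc, inv_mul_cancel₀ hm0,
        mul_one]
    exact (ZMod.natCast_eq_natCast_iff' _ _ _).1 h2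
  refine ⟨_, h1, fun q => ?_⟩
  constructor
  · intro h
    refine Nat.ModEq.cancel_left_of_coprime (c := m) (Nat.Coprime.symm hcop) ?_
    exact h.trans h1.symm
  · intro h
    exact (h.mul_left m).trans h1

/-- the Chinese remainder theorem for a prime and a coprime modulus -/
theorem RP_crt {p d a m : ℕ} (hp : p.Prime) (hpm : ¬ p ∣ m) (n' : ℕ) (hpd : p.Coprime d)
    (had : a < d) :
    ∃ c : ℕ, c < p * d ∧ c % d = a ∧ (m * c) % p = n' % p ∧
      ∀ q : ℕ, (q % d = a ∧ (m * q) % p = n' % p) ↔ q % (p * d) = c := by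
  have hd0 : 0 < d := by omega
  obtain ⟨e, he1, he2⟩ := RP_cls hp hpm n'
  obtain ⟨c, hc1, hc2⟩ := Nat.chineseRemainder hpd e a
  have hp0 : 0 < p * d := Nat.mul_pos hp.pos hd0
  have hcp : c % (p * d) ≡ e [MOD p] := by
    have h1 : c % (p * d) ≡ c [MOD p] := by
      unfold Nat.ModEq
      rw [Nat.mod_mul_right_mod]
    exact h1.trans hc1
  refine ⟨c % (p * d), Nat.mod_lt _ hp0, ?_, (he2 _).2 hcp, ?_⟩
  · rw [Nat.mod_mul_left_mod]
    exact Eq.trans hc2 (Nat.mod_eq_of_lt had)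
  · intro q
    rw [he2]
    constructor
    · rintro ⟨h1, h2⟩
      have h3 : q ≡ c [MOD p] := h2.trans hc1.symm
      have h4 : q ≡ c [MOD d] := by
        have h5 : q ≡ a [MOD d] := by
          unfold Nat.ModEq
          rw [h1, Nat.mod_eq_of_lt had]
        exact h5.trans hc2.symm
      exact (Nat.modEq_and_modEq_iff_modEq_mul hpd).1 ⟨h3, h4⟩
    · intro h
      have h1 : q ≡ c [MOD p * d] := h
      obtain ⟨h2, h3⟩ := (Nat.modEq_and_modEq_iff_modEq_mul hpd).2 h1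
      refine ⟨?_, h2.trans hc1⟩
      exact Eq.trans (Nat.ModEq.trans h3 hc2) (Nat.mod_eq_of_lt had)

theorem RP_psi0_nonneg {η : ℝ → ℝ} (hη : IsWt η) (N : ℕ) : 0 ≤ psi0 η N :=
  sum_nonneg fun _ _ => mul_nonneg ArithmeticFunction.vonMangoldt_nonneg (hη.nonneg _)

/-- the sieve bound for one prime `p` not dividing `n'` -/
theorem RP_one (h2 : St_Gen) {η : ℝ → ℝ} (hη : IsWt η) {w z N m n' p : ℕ} {θ : ℝ} (hN : 1 ≤ N)
    (hm : 1 ≤ m) (hθ : θ ≤ 1) (hp : p.Prime) (hzp : z < p) (hpm : ¬ p ∣ m) (hpn : ¬ p ∣ n')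
    (hcard : ∀ l : ℕ, l.Prime → (OmB w m n' l).card ≤ 3)
    (E : ℕ → ℝ) (hE0 : ∀ d, 0 ≤ E d)
    (hE : ∀ d c : ℕ, 1 ≤ d → (d : ℝ) ≤ ((m * N : ℕ) : ℝ) ^ θ → c < d → c.Coprime d →
      |∑ q ∈ (range (N + 1)).filter (fun q => q % d = c), lam q * η ((q : ℝ) / N) -
        psi0 η N / (d.totient : ℝ)| ≤ E d)
    (c : ℕ → ℝ)
    (hc1 : ∀ d, c d ≠ 0 → Squarefree d ∧ (∀ l ∈ d.primeFactors, l ≤ z) ∧
      ((p * d : ℕ) : ℝ) ≤ ((m * N : ℕ) : ℝ) ^ θ)
    (hc4 : ∀ S : Finset ℕ, S ⊆ pr z → (if S = ∅ then (1 : ℝ) else 0) ≤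
      ∑ T ∈ S.powerset, c (∏ l ∈ T, l))
    {V : ℝ} (hc3 : ∑ d ∈ Icc 1 ((m * N) ^ 2), c d * ∏ l ∈ d.primeFactors, gB w m n' l ≤ V) :
    ∑ q ∈ (range (N + 1)).filter
      (fun q => (∀ l ∈ pr z, q % l ∉ OmB w m n' l) ∧ (m * q) % p = n' % p),
      lam q * η ((q : ℝ) / N) ≤
      psi0 η N / ((p : ℝ) - 1) * V +
        ∑ d ∈ Icc 1 ((m * N) ^ 2), |c d| * ((3 : ℝ) ^ d.primeFactors.card * E (p * d)) := by
  classical
  have hX1 : 1 ≤ m * N := Nat.mul_pos hm hN
  have hN1 : (1 : ℝ) ≤ ((m * N : ℕ) : ℝ) := by exact_mod_cast hX1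
  have hNθ : ((m * N : ℕ) : ℝ) ^ θ ≤ ((m * N : ℕ) : ℝ) := by
    calc ((m * N : ℕ) : ℝ) ^ θ ≤ ((m * N : ℕ) : ℝ) ^ (1 : ℝ) :=
          Real.rpow_le_rpow_of_exponent_le hN1 hθ
      _ = ((m * N : ℕ) : ℝ) := Real.rpow_one _
  have hpd : ∀ d, c d ≠ 0 → p * d ≤ m * N ∧ 1 ≤ d ∧ p.Coprime d := by
    intro d hd
    obtain ⟨h3, h4, h5⟩ := hc1 d hd
    refine ⟨by exact_mod_cast h5.trans hNθ, Nat.pos_of_ne_zero h3.ne_zero, ?_⟩
    rw [Nat.Prime.coprime_iff_not_dvd hp]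
    intro h6
    have := h4 p (Nat.mem_primeFactors.2 ⟨hp, h6, h3.ne_zero⟩)
    omega
  set ϖ : ℕ → ℝ := fun q => if (m * q) % p = n' % p then lam q * η ((q : ℝ) / N) else 0 with hϖ
  have hterm : ∀ q : ℕ, 0 ≤ lam q * η ((q : ℝ) / N) := fun q =>
    mul_nonneg (SP_lam_nonneg _) (hη.nonneg _)
  have hstep1 : ∑ q ∈ (range (N + 1)).filter
      (fun q => (∀ l ∈ pr z, q % l ∉ OmB w m n' l) ∧ (m * q) % p = n' % p),
      lam q * η ((q : ℝ) / N) ≤ ∑ q ∈ range (N + 1), ϖ q *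
        ∑ T ∈ ((pr z).filter (fun l => q % l ∈ OmB w m n' l)).powerset, c (∏ l ∈ T, l) := by
    rw [sum_filter]
    refine sum_le_sum fun q _ => ?_
    have hS := hc4 ((pr z).filter (fun l => q % l ∈ OmB w m n' l)) (filter_subset _ _)
    simp only [hϖ]
    by_cases hpq : (m * q) % p = n' % p
    · rw [if_pos hpq]
      by_cases h3 : ∀ l ∈ pr z, q % l ∉ OmB w m n' l
      · rw [if_pos ⟨h3, hpq⟩]
        rw [if_pos (filter_eq_empty_iff.2 h3)] at hS
        exact le_mul_of_one_le_right (hterm q) hS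
      · rw [if_neg (fun h => h3 h.1)]
        refine mul_nonneg (hterm q) (le_trans ?_ hS)
        split_ifs <;> norm_num
    · rw [if_neg hpq, zero_mul, if_neg (fun h => hpq h.2)]
  have hgen := h2 ϖ c (fun d => 1 / ((p * d).totient : ℝ)) (fun d => E (p * d))
    (OmB w m n') (pr z) N ((m * N) ^ 2) 3 (psi0 η N)
    (fun l hl => (mem_filter.1 hl).2)
    (fun l hl => ⟨filter_subset _ _, hcard l (mem_filter.1 hl).2⟩)
    (by
      intro d hd
      obtain ⟨h3, h4, -⟩ := hc1 d hd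
      obtain ⟨h6, h7, -⟩ := hpd d hd
      refine ⟨h3, ?_, ?_⟩
      · intro l hl
        exact mem_filter.2 ⟨mem_range.2 (Nat.lt_succ_of_le (h4 l hl)),
          Nat.prime_of_mem_primeFactors hl⟩
      · have h8 : d ≤ p * d := Nat.le_mul_of_pos_left d hp.pos
        nlinarith)
    (fun d => hE0 _)
    (by
      intro d hd a had hal
      obtain ⟨h3, h4, h5⟩ := hc1 d hd
      obtain ⟨h6, h7, h8⟩ := hpd d hd
      obtain ⟨c', hc'1, hc'2, hc'3, hc'4⟩ := RP_crt hp hpm n' h8 had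
      have hsum : ∑ q ∈ (range (N + 1)).filter (fun q => q % d = a), ϖ q =
          ∑ q ∈ (range (N + 1)).filter (fun q => q % (p * d) = c'), lam q * η ((q : ℝ) / N) := by
        simp only [hϖ]
        rw [← sum_filter, filter_filter]
        refine sum_congr ?_ fun _ _ => rfl
        ext q
        simp only [mem_filter]
        rw [hc'4 q]
      have hcop : c'.Coprime (p * d) := by
        rw [Nat.coprime_mul_iff_right]
        constructor
        · rw [Nat.coprime_comm, Nat.Prime.coprime_iff_not_dvd hp]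
          intro h
          apply hpn
          have h9 : (m * c') % p = 0 := Nat.mod_eq_zero_of_dvd (Dvd.dvd.mul_left h m)
          rw [h9] at hc'3
          exact Nat.dvd_of_mod_eq_zero hc'3.symm
        · refine Nat.Coprime.symm (Nat.coprime_of_dvd fun l hl hld hl2 => ?_)
          have h9 := hal l (Nat.mem_primeFactors.2 ⟨hl, hld, h3.ne_zero⟩)
          have h10 := (mem_filter.1 h9).2.1
          apply h10
          have h12 : c' % d % l = a % l := by rw [hc'2]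
          rw [Nat.mod_mod_of_dvd _ hld] at h12
          rw [← h12]
          exact Nat.mod_eq_zero_of_dvd hl2
      have hE' := hE (p * d) c' (Nat.mul_pos hp.pos h7) h5 hc'1 hcop
      rw [hsum]
      simp only [mul_one_div]
      exact hE')
  have hmain : ∑ d ∈ Icc 1 ((m * N) ^ 2), c d * (1 / ((p * d).totient : ℝ) *
      ∏ l ∈ d.primeFactors, ((OmB w m n' l).card : ℝ)) =
      1 / ((p : ℝ) - 1) *
        ∑ d ∈ Icc 1 ((m * N) ^ 2), c d * ∏ l ∈ d.primeFactors, gB w m n' l := by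
    rw [mul_sum]
    refine sum_congr rfl fun d _ => ?_
    by_cases hd : c d = 0
    · rw [hd, zero_mul, zero_mul, mul_zero]
    · obtain ⟨h3, h4, h5⟩ := hc1 d hd
      obtain ⟨h6, h7, h8⟩ := hpd d hd
      have h9 : (p * d).totient = (p - 1) * d.totient :=
        Nat.totient_mul_of_prime_of_not_dvd hp ((Nat.Prime.coprime_iff_not_dvd hp).1 h8)
      have h10 := RP_density w m n' d h3
      rw [h9, Nat.cast_mul, Nat.cast_sub hp.one_le, Nat.cast_one, ← h10]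
      have h11 : 1 / (((p : ℝ) - 1) * (d.totient : ℝ)) *
          ∏ l ∈ d.primeFactors, ((OmB w m n' l).card : ℝ) = 1 / ((p : ℝ) - 1) *
          (1 / (d.totient : ℝ) * ∏ l ∈ d.primeFactors, ((OmB w m n' l).card : ℝ)) := by
        rw [← mul_assoc, one_div_mul_one_div]
      rw [h11]
      ring
  have hM := RP_psi0_nonneg hη N
  have hp1 : (0 : ℝ) < (p : ℝ) - 1 := by
    have : (2 : ℝ) ≤ p := by exact_mod_cast hp.two_le
    linarith
  have hcoef : 0 ≤ psi0 η N / ((p : ℝ) - 1) := div_nonneg hM hp1.le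
  have h3 := (abs_le.1 hgen).2
  rw [hmain] at h3
  have h4 : psi0 η N * (1 / ((p : ℝ) - 1) *
      ∑ d ∈ Icc 1 ((m * N) ^ 2), c d * ∏ l ∈ d.primeFactors, gB w m n' l) ≤
      psi0 η N / ((p : ℝ) - 1) * V := by
    rw [← mul_assoc, mul_one_div]
    exact mul_le_mul_of_nonneg_left hc3 hcoef
  have h5 : ∑ d ∈ Icc 1 ((m * N) ^ 2), |c d| *
      (((3 : ℕ) : ℝ) ^ d.primeFactors.card * E (p * d)) =
      ∑ d ∈ Icc 1 ((m * N) ^ 2), |c d| * ((3 : ℝ) ^ d.primeFactors.card * E (p * d)) := by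
    norm_num
  rw [h5] at h3
  linarith

/-- the density is admissible for the sieve -/
theorem RP_Dns (h4 : St_Dens) {X m n' z : ℕ} {δ : ℝ} (hδ : 0 < δ) (hX : 2 ≤ X) (hm : 1 ≤ m)
    (hnm : n'.Coprime m) (hpar : (n' + m) % 2 = 1) (hn0 : 0 < n')
    (hmw : m ≤ wN δ X) (hn2 : (n' : ℝ) ≤ (X : ℝ) ^ 2) :
    Dns ⌊(X : ℝ) ^ δ⌋₊ z ⌈2 / δ⌉₊ (gB (wN δ X) m n') := by
  obtain ⟨d1, d2, -⟩ := h4 (wN δ X) m n' hm hnm hpar
  have hnd : ∀ l : ℕ, wN δ X < l → ¬ l ∣ m := fun l hl h => by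
    have := Nat.le_of_dvd hm h
    omega
  refine ⟨fun l hl => ?_, fun l hl hwl _ => ?_, ?_⟩
  · obtain ⟨-, -, -, -, -, e1, e2, e3⟩ := d1 l hl
    exact ⟨e1, e2, e3⟩
  · obtain ⟨e0, e1, e2⟩ := d2 l hl hwl (hnd l hwl)
    rw [e0]
    by_cases h : l ∣ n'
    · exact Or.inl (e1 h)
    · exact Or.inr (e2 h)
  · set T := (pr z).filter (fun l => ⌊(X : ℝ) ^ δ⌋₊ < l ∧ gB (wN δ X) m n' l = 0) with hT
    have hN1 : (1 : ℝ) < X := by exact_mod_cast (by omega : 1 < X)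
    have hTp : ∀ l ∈ T, l.Prime ∧ (X : ℝ) ^ δ < l ∧ l ∣ n' := by
      intro l hl
      obtain ⟨f1, f2, f3⟩ := mem_filter.1 hl
      have hlp : l.Prime := (mem_filter.1 f1).2
      have hlN : (X : ℝ) ^ δ < l := (Nat.floor_lt (by positivity)).1 f2
      refine ⟨hlp, hlN, ?_⟩
      by_contra h
      obtain ⟨e0, -, e2⟩ := d2 l hlp f2 (hnd l f2)
      rw [e0, e2 h] at f3
      have : (2 : ℝ) ≤ l := by exact_mod_cast hlp.two_le
      have h5 : (0 : ℝ) < 1 / ((l : ℝ) - 1) := by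
        apply div_pos one_pos
        linarith
      linarith
    have hprod : ∏ l ∈ T, l ≤ n' := by
      refine Nat.le_of_dvd hn0 ?_
      exact Finset.prod_primes_dvd _ (fun l hl => (hTp l hl).1.prime) fun l hl => (hTp l hl).2.2
    have hlow : ((X : ℝ) ^ δ) ^ T.card ≤ ((∏ l ∈ T, l : ℕ) : ℝ) := by
      rw [Nat.cast_prod, ← prod_const]
      exact prod_le_prod (fun _ _ => by positivity) fun l hl => (hTp l hl).2.1.le
    have h5 : ((X : ℝ) ^ δ) ^ T.card ≤ (X : ℝ) ^ 2 :=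
      hlow.trans (le_trans (by exact_mod_cast hprod) hn2)
    rw [← Real.rpow_natCast, ← Real.rpow_natCast, ← Real.rpow_mul (by positivity),
      Real.rpow_le_rpow_left_iff hN1] at h5
    have h6 : (T.card : ℝ) ≤ 2 / δ := by
      rw [le_div_iff₀ hδ, mul_comm]
      exact_mod_cast h5
    exact Nat.cast_le.1 (h6.trans (Nat.le_ceil _))

/-- a property of all large numbers holds for `m * N` -/
theorem RP_scale {P : ℕ → Prop} (h : ∀ᶠ X : ℕ in atTop, P X) :
    ∀ᶠ N : ℕ in atTop, ∀ m : ℕ, 1 ≤ m → P (m * N) := by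
  obtain ⟨X₀, hX₀⟩ := eventually_atTop.1 h
  filter_upwards [eventually_ge_atTop X₀] with N hN m hm
  exact hX₀ _ (hN.trans (Nat.le_mul_of_pos_left N hm))

theorem thm_RP (A0 : ℝ) (hA0 : 0 < A0) (h0 : CH.St_LinU A0) (h1 : St_BVM) (h2 : CH.St_Gen)
    (h3 : CH.St_VLow) (h4 : CH.St_Dens) (h5 : CH.St_P1) (h6 : CH.St_ASum) : St_RP A0 := by
  classical
  intro η hη ε hε
  obtain ⟨L0, L1⟩ := SP_log6
  set L : ℝ := Real.log 6 / 4 with hL
  set t : ℝ := min (1 / 2) (ε / (6 * A0 + 12)) with ht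
  have ht0 : 0 < t := lt_min (by norm_num) (by positivity)
  have ht2 : t ≤ 1 / 2 := min_le_left _ _
  have ht3 : t * (6 * A0 + 12) ≤ ε := by
    have : t ≤ ε / (6 * A0 + 12) := min_le_right _ _
    rwa [le_div_iff₀ (by positivity)] at this
  obtain ⟨τ₀, hτ₀, hτall⟩ := h6 t ht0
  set τ : ℝ := min τ₀ (1 / 100) with hτd
  have hτ : 0 < τ := lt_min hτ₀ (by norm_num)
  have hτ1 : τ ≤ 1 / 100 := min_le_right _ _
  have hASum := hτall τ hτ.le (min_le_left _ _)
  set e1 : ℝ := min t (τ / 2) with he1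
  have he0 : 0 < e1 := lt_min ht0 (by linarith)
  have het : e1 ≤ t := min_le_left _ _
  have heτ : e1 ≤ τ / 2 := min_le_right _ _
  obtain ⟨δ₀, C, hδ₀, hLin⟩ := h0 e1 he0
  obtain ⟨c0, k, hc0, hVL⟩ := h3
  refine ⟨min δ₀ (1 / 8), lt_min hδ₀ (by norm_num), fun δ hδ hδ1 A₀ => ?_⟩
  have hδa : δ ≤ δ₀ := hδ1.trans (min_le_left _ _)
  have hδb : δ ≤ 1 / 8 := hδ1.trans (min_le_right _ _)
  set θ : ℝ := 1 / 2 - τ / 2 with hθ
  have hI := SP_int_ge hη
  have hP1 := h5 η hη t ht0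
  set I : ℝ := ∫ u in (0 : ℝ)..1, η u with hIdef
  have hBVM := h1 η hη θ (by linarith) (by linarith) (k + 1) A₀ (6 * C + 6)
  filter_upwards [RP_scale (SP_sizes hτ hτ1 hδ hδb A₀), RP_scale hASum,
    RP_scale (hLin δ hδ hδa ⌈2 / δ⌉₊), hBVM, hP1, SP_log 1 A₀ (s := 1) (by norm_num),
    SP_logdiv (4 * C / (ε * c0)), SP_logdiv 1, eventually_ge_atTop 3]
    with N hsz' hAS' hLU' hAB hPN hf1 hf2 hf3 hN3
  intro m n' hsit
  obtain ⟨g1, g2, g3, g4, g5, g6⟩ := hsit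
  have hsz := hsz' m g1
  have hAS := hAS' m g1
  have hLU := hLU' m g1
  set X : ℕ := m * N with hX
  obtain ⟨s1, s2, s3, s4, s5, s6, s7, s8, s9, s10⟩ := hsz
  obtain ⟨E, hE0, hE1, hE2⟩ := hAB m g1 g2
  have hN1 : (1 : ℝ) < N := by exact_mod_cast (by omega : 1 < N)
  have hN0 : (0 : ℝ) < N := by linarith
  have hlogN : 0 < Real.log N := by linarith
  have hNX : N ≤ X := Nat.le_mul_of_pos_left N g1
  have hNX' : (N : ℝ) ≤ X := by exact_mod_cast hNX
  have hX1 : (1 : ℝ) < X := by linarith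
  have hX0 : (0 : ℝ) < X := by linarith
  have hlogNX : Real.log N ≤ Real.log X := Real.log_le_log hN0 hNX'
  have hlogX : 0 < Real.log X := by linarith
  have hmN : (m : ℝ) ≤ N := by
    rw [one_mul, Real.rpow_one] at hf1
    exact g2.trans hf1
  have hXN : Real.log X ≤ 2 * Real.log N := by
    have a1 : (X : ℝ) ≤ (N : ℝ) ^ 2 := by
      rw [hX]
      push_cast
      rw [sq]
      exact mul_le_mul_of_nonneg_right hmN hN0.le
    have a2 := Real.log_le_log hX0 a1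
    rw [Real.log_pow] at a2
    exact_mod_cast a2
  have hmw : m ≤ wN δ X := by
    have a1 : Real.log N ^ A₀ ≤ Real.log X ^ A₀ := pow_le_pow_left₀ hlogN.le hlogNX A₀
    have : (m : ℝ) ≤ wN δ X := (g2.trans a1).trans s7.le
    exact_mod_cast this
  have hn0 : 0 < n' := lt_of_lt_of_le (Nat.mul_pos g1 (by omega)) g5
  have hn2 : (n' : ℝ) ≤ (X : ℝ) ^ 2 := by
    have a1 : n' ≤ 2 * X := by
      have : m * (N + 1) ≤ 2 * (m * N) := by nlinarith
      omega
    have a2 : (n' : ℝ) ≤ 2 * X := by exact_mod_cast a1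
    have a3 : (3 : ℝ) ≤ X := by exact_mod_cast s1
    nlinarith
  set z := zN X with hz
  set y := yN X with hy
  set w := wN δ X with hw
  obtain ⟨d1, d2, d3⟩ := h4 w m n' g1 g3 g4
  have hDns : Dns ⌊(X : ℝ) ^ δ⌋₊ z ⌈2 / δ⌉₊ (gB w m n') :=
    RP_Dns h4 hδ (by omega) g1 g3 g4 hn0 hmw hn2
  have hθ1 : θ ≤ 1 := by rw [hθ]; linarith
  set Q := (pr y).filter (fun p => z < p ∧ ¬ p ∣ n') with hQ
  have hQp : ∀ p ∈ Q, p.Prime ∧ z < p ∧ p ≤ y ∧ ¬ p ∣ n' := by
    intro p hp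
    obtain ⟨a1, a2, a5⟩ := mem_filter.1 hp
    obtain ⟨a3, a4⟩ := mem_filter.1 a1
    exact ⟨a4, a2, Nat.lt_succ_iff.1 (mem_range.1 a3), a5⟩
  have hzpos : (0 : ℝ) < z := by
    have : (2 : ℝ) ≤ z := by exact_mod_cast s3
    linarith
  have hlogz0 : 0 < Real.log z := Real.log_pos (by
    have : (2 : ℝ) ≤ z := by exact_mod_cast s3
    linarith)
  have hlogz : Real.log z ≤ Real.log X / 8 := by
    have a1 := Real.log_le_log hzpos s4
    rw [Real.log_rpow hX0] at a1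
    linarith
  -- sizes for a prime of `Q`
  have hpsz : ∀ p ∈ Q, (0 : ℝ) < (p : ℝ) - 1 ∧ (X : ℝ) ^ (1 / 8 : ℝ) < p ∧
      (z : ℝ) ≤ (X : ℝ) ^ (1 / 2 - τ) / p ∧ (X : ℝ) ^ (1 / 2 - τ) / p ≤ (z : ℝ) ^ 3 ∧
      (X : ℝ) ^ (1 / 2 - τ) / p ≤ X := by
    intro p hp
    obtain ⟨a1, a2, a3, -⟩ := hQp p hp
    have b0 : (0 : ℝ) < p := by exact_mod_cast a1.pos
    have b1 : (X : ℝ) ^ (1 / 8 : ℝ) < p := (Nat.floor_lt (by positivity)).1 a2
    have b2 : (p : ℝ) ≤ y := by exact_mod_cast a3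
    have b3 : (X : ℝ) ^ (1 / 2 - τ) / p ≤ (X : ℝ) ^ (3 / 8 - τ) := by
      rw [div_le_iff₀ b0]
      calc (X : ℝ) ^ (1 / 2 - τ) = (X : ℝ) ^ (3 / 8 - τ) * (X : ℝ) ^ (1 / 8 : ℝ) := by
            rw [← Real.rpow_add hX0]
            congr 1
            ring
        _ ≤ (X : ℝ) ^ (3 / 8 - τ) * p := mul_le_mul_of_nonneg_left b1.le (by positivity)
    refine ⟨?_, b1, ?_, b3.trans s6, b3.trans ?_⟩
    · have : (2 : ℝ) ≤ p := by exact_mod_cast a1.two_le
      linarith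
    · rw [le_div_iff₀ b0]
      calc (z : ℝ) * p ≤ (X : ℝ) ^ (1 / 8 : ℝ) * y :=
            mul_le_mul s4 b2 b0.le (by positivity)
        _ ≤ _ := s5
    · calc (X : ℝ) ^ (3 / 8 - τ) ≤ (X : ℝ) ^ (1 : ℝ) :=
            Real.rpow_le_rpow_of_exponent_le hX1.le (by linarith)
        _ = X := Real.rpow_one _
  have hLc : ∀ p, ∃ c : ℕ → ℝ, p ∈ Q →
      (∀ d, c d ≠ 0 → Squarefree d ∧ (∀ l ∈ d.primeFactors, l ≤ z) ∧
        (d : ℝ) ≤ (X : ℝ) ^ (1 / 2 - τ) / p * (X : ℝ) ^ e1) ∧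
      (∀ d, |c d| ≤ C * (C : ℝ) ^ d.primeFactors.card) ∧
      (∑ d ∈ Icc 1 (X ^ 2), c d * ∏ l ∈ d.primeFactors, gB w m n' l ≤
        VV (gB w m n') z * (A0 * Real.log z / Real.log ((X : ℝ) ^ (1 / 2 - τ) / p) + e1)) ∧
      ∀ S : Finset ℕ, S ⊆ pr z → (if S = ∅ then (1 : ℝ) else 0) ≤
        ∑ T ∈ S.powerset, c (∏ l ∈ T, l) := by
    intro p
    by_cases hp : p ∈ Q
    · obtain ⟨-, -, a1, a2, a3⟩ := hpsz p hp
      obtain ⟨c, hc⟩ := hLU z ((X : ℝ) ^ (1 / 2 - τ) / p) s2 a1 a2 a3 (gB w m n') hDns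
      exact ⟨c, fun _ => hc⟩
    · exact ⟨0, fun h => absurd h hp⟩
  choose c hc using hLc
  have hc1 : ∀ p ∈ Q, ∀ d, c p d ≠ 0 → Squarefree d ∧ (∀ l ∈ d.primeFactors, l ≤ z) ∧
      ((p * d : ℕ) : ℝ) ≤ (X : ℝ) ^ θ := by
    intro p hp d hd
    obtain ⟨a1, a2, a3⟩ := (hc p hp).1 d hd
    refine ⟨a1, a2, ?_⟩
    have b0 : (0 : ℝ) < p := by exact_mod_cast (hQp p hp).1.pos
    push_cast
    calc (p : ℝ) * d ≤ p * ((X : ℝ) ^ (1 / 2 - τ) / p * (X : ℝ) ^ e1) :=
          mul_le_mul_of_nonneg_left a3 b0.le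
      _ = (X : ℝ) ^ (1 / 2 - τ) * (X : ℝ) ^ e1 := by
          field_simp
      _ = (X : ℝ) ^ (1 / 2 - τ + e1) := (Real.rpow_add hX0 _ _).symm
      _ ≤ (X : ℝ) ^ θ := Real.rpow_le_rpow_of_exponent_le hX1.le (by rw [hθ]; linarith)
  have hVA0 : 0 ≤ VV (gB w m n') z := by
    refine prod_nonneg fun l hl => ?_
    obtain ⟨-, -, -, -, -, -, a1, -⟩ := d1 l (mem_filter.1 hl).2
    linarith
  have hupos : ∀ p ∈ Q, Real.log ((X : ℝ) ^ (1 / 2 - τ) / p) =
      Real.log X * (1 / 2 - τ - Real.log p / Real.log X) ∧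
      0 < 1 / 2 - τ - Real.log p / Real.log X := by
    intro p hp
    obtain ⟨b1, b2, b3, b4, b5⟩ := hpsz p hp
    have hu : Real.log ((X : ℝ) ^ (1 / 2 - τ) / p) =
        Real.log X * (1 / 2 - τ - Real.log p / Real.log X) := by
      have b0 : (p : ℝ) ≠ 0 := by exact_mod_cast (hQp p hp).1.ne_zero
      rw [Real.log_div (by positivity) b0, Real.log_rpow hX0]
      field_simp
    have e2 : 0 < Real.log ((X : ℝ) ^ (1 / 2 - τ) / p) :=
      lt_of_lt_of_le hlogz0 (Real.log_le_log hzpos b3)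
    rw [hu] at e2
    exact ⟨hu, (mul_pos_iff_of_pos_left hlogX).1 e2⟩
  -- one prime
  have hgood : ∀ p ∈ Q,
      ∑ q ∈ (range (N + 1)).filter
        (fun q => (∀ l ∈ pr z, q % l ∉ OmB w m n' l) ∧ (m * q) % p = n' % p),
        lam q * η ((q : ℝ) / N) ≤
      psi0 η N * VV (gB w m n') z *
        ((A0 + 3 * t) * (1 / (((p : ℝ) - 1) *
          (8 * (1 / 2 - τ - Real.log p / Real.log X))))) +
        ∑ d ∈ Icc 1 (X ^ 2), |c p d| * ((3 : ℝ) ^ d.primeFactors.card * E (p * d)) := by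
    intro p hpQ
    obtain ⟨a1, a2, a3, hpn⟩ := hQp p hpQ
    obtain ⟨b1, b2, b3, b4, b5⟩ := hpsz p hpQ
    obtain ⟨-, -, c3, c4⟩ := hc p hpQ
    have hpm : ¬ p ∣ m := fun h => by
      have := Nat.le_of_dvd g1 h
      omega
    have hone := RP_one h2 hη (w := w) (z := z) (N := N) (m := m) (n' := n') (θ := θ)
      (by omega) g1 hθ1 a1 a2 hpm hpn (fun l hl => (d1 l hl).2.1) E hE0 hE1 (c p)
      (hc1 p hpQ) c4 c3
    refine hone.trans (add_le_add ?_ le_rfl)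
    obtain ⟨hu, hu0⟩ := hupos p hpQ
    set u : ℝ := 1 / 2 - τ - Real.log p / Real.log X with hudef
    have hu1 : u ≤ 3 / 8 := by
      have e2 : 1 / 8 * Real.log X ≤ Real.log p := by
        have := Real.log_le_log (by positivity) b2.le
        rwa [Real.log_rpow hX0] at this
      have e3 : 1 / 8 ≤ Real.log p / Real.log X := by
        rw [le_div_iff₀ hlogX]
        exact e2
      rw [hudef]
      linarith
    rw [hu]
    have hkey : A0 * Real.log z / (Real.log X * u) + e1 ≤ (A0 + 3 * t) * (1 / (8 * u)) := by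
      have e2 : A0 * Real.log z / (Real.log X * u) ≤ A0 * (1 / (8 * u)) := by
        rw [mul_one_div, div_le_div_iff₀ (by positivity) (by positivity)]
        have : A0 * Real.log z ≤ A0 * (Real.log X / 8) := mul_le_mul_of_nonneg_left hlogz hA0.le
        nlinarith
      have e3 : e1 ≤ 3 * t * (1 / (8 * u)) := by
        rw [mul_one_div, le_div_iff₀ (by positivity)]
        nlinarith
      linarith [add_mul A0 (3 * t) (1 / (8 * u))]
    have hcoef : 0 ≤ psi0 η N / ((p : ℝ) - 1) * VV (gB w m n') z :=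
      mul_nonneg (div_nonneg (RP_psi0_nonneg hη _) b1.le) hVA0
    calc psi0 η N / ((p : ℝ) - 1) *
          (VV (gB w m n') z * (A0 * Real.log z / (Real.log X * u) + e1)) =
          psi0 η N / ((p : ℝ) - 1) * VV (gB w m n') z *
            (A0 * Real.log z / (Real.log X * u) + e1) := by ring
      _ ≤ psi0 η N / ((p : ℝ) - 1) * VV (gB w m n') z *
            ((A0 + 3 * t) * (1 / (8 * u))) := mul_le_mul_of_nonneg_left hkey hcoef
      _ = _ := by
          rw [← one_div_mul_one_div ((p : ℝ) - 1) (8 * u)]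
          ring
  have herr := SP_err (N := X) (z := z) (C := C) (θ := θ) (by omega) hθ1
    Q (fun p hp => ⟨(hQp p hp).1, (hQp p hp).2.1⟩) c hc1
    (fun p hp => (hc p hp).2.1) E hE0
  have hsplit : ∑ p ∈ Q,
      ∑ q ∈ (range (N + 1)).filter
        (fun q => (∀ l ∈ pr z, q % l ∉ OmB w m n' l) ∧ (m * q) % p = n' % p),
        lam q * η ((q : ℝ) / N) ≤
      psi0 η N * VV (gB w m n') z * ((A0 + 3 * t) * (L + t)) + C * (N / Real.log N ^ (k + 1)) := by
    refine (sum_le_sum hgood).trans ?_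
    rw [sum_add_distrib]
    have hcoef : 0 ≤ psi0 η N * VV (gB w m n') z := mul_nonneg (RP_psi0_nonneg hη _) hVA0
    refine add_le_add ?_ ?_
    · rw [← mul_sum, ← mul_sum]
      refine mul_le_mul_of_nonneg_left ?_ hcoef
      refine mul_le_mul_of_nonneg_left ?_ (by positivity)
      refine le_trans ?_ hAS
      refine sum_le_sum_of_subset_of_nonneg ?_ ?_
      · intro p hp
        obtain ⟨a1, a2, -⟩ := mem_filter.1 hp
        exact mem_filter.2 ⟨a1, a2⟩
      · intro p hp _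
        obtain ⟨a1, a2⟩ := mem_filter.1 hp
        obtain ⟨a3, a4⟩ := mem_filter.1 a1
        have b1 : (X : ℝ) ^ (1 / 8 : ℝ) < p := (Nat.floor_lt (by positivity)).1 a2
        have b0 : (0 : ℝ) < p := by exact_mod_cast a4.pos
        have b2 : (p : ℝ) ≤ y := by exact_mod_cast Nat.lt_succ_iff.1 (mem_range.1 a3)
        have b3 : (z : ℝ) ≤ (X : ℝ) ^ (1 / 2 - τ) / p := by
          rw [le_div_iff₀ b0]
          calc (z : ℝ) * p ≤ (X : ℝ) ^ (1 / 8 : ℝ) * y :=
                mul_le_mul s4 b2 b0.le (by positivity)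
            _ ≤ _ := s5
        have hu : Real.log ((X : ℝ) ^ (1 / 2 - τ) / p) =
            Real.log X * (1 / 2 - τ - Real.log p / Real.log X) := by
          rw [Real.log_div (by positivity) b0.ne', Real.log_rpow hX0]
          field_simp
        have e2 : 0 < Real.log ((X : ℝ) ^ (1 / 2 - τ) / p) :=
          lt_of_lt_of_le hlogz0 (Real.log_le_log hzpos b3)
        rw [hu] at e2
        have e3 := (mul_pos_iff_of_pos_left hlogX).1 e2
        have e4 : (0 : ℝ) < (p : ℝ) - 1 := by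
          have : (2 : ℝ) ≤ p := by exact_mod_cast a4.two_le
          linarith
        positivity
    · exact herr.trans (mul_le_mul_of_nonneg_left hE2 (Nat.cast_nonneg _))
  refine hsplit.trans ?_
  -- the main term
  have hVB0 : c0 / Real.log N ^ k ≤ VV (gB w m n') z := by
    have a1 := hVL z (gB w m n') s3 fun l hl => by
      obtain ⟨-, -, -, -, -, e2, e3, e4⟩ := d1 l hl
      exact ⟨e2, e3, e4⟩
    refine le_trans ?_ a1
    have a2 : Real.log z ≤ Real.log N := by linarith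
    exact div_le_div_of_nonneg_left hc0.le (pow_pos hlogz0 k) (pow_le_pow_left₀ hlogz0.le a2 k)
  have hVBpos : 0 < VV (gB w m n') z := lt_of_lt_of_le (by positivity) hVB0
  have hpsi : psi0 η N ≤ (1 + 2 * t) * (I * N) := by
    have a2 := (abs_le.1 hPN).2
    have a4 : t * (N : ℝ) ≤ 2 * t * (I * N) := by
      have : t * (N : ℝ) * (1 / 2) ≤ t * (N : ℝ) * I :=
        mul_le_mul_of_nonneg_left hI (by positivity)
      nlinarith
    nlinarith
  have hUU : UR η δ N m n' = I * N * VV (gB w m n') z := rfl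
  have hUU0 : 0 < UR η δ N m n' := by
    rw [hUU]
    have : 0 < I := by linarith
    positivity
  have hmain : psi0 η N * VV (gB w m n') z * ((A0 + 3 * t) * (L + t)) ≤
      (A0 * L + ε / 2) * UR η δ N m n' := by
    have a3 : psi0 η N * VV (gB w m n') z ≤ (1 + 2 * t) * UR η δ N m n' := by
      rw [hUU]
      calc psi0 η N * VV (gB w m n') z ≤ (1 + 2 * t) * (I * N) * VV (gB w m n') z :=
            mul_le_mul_of_nonneg_right hpsi hVBpos.le
        _ = _ := by ring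
    have a4 : 0 ≤ (A0 + 3 * t) * (L + t) := by positivity
    calc psi0 η N * VV (gB w m n') z * ((A0 + 3 * t) * (L + t)) ≤
          (1 + 2 * t) * UR η δ N m n' * ((A0 + 3 * t) * (L + t)) :=
          mul_le_mul_of_nonneg_right a3 a4
      _ = (1 + 2 * t) * ((A0 + 3 * t) * (L + t)) * UR η δ N m n' := by ring
      _ ≤ _ := mul_le_mul_of_nonneg_right (SP_num hA0 L0 L1 ht0.le ht2 ht3) hUU0.le
  -- the error term
  have hUlow : 1 / 2 * N * (c0 / Real.log N ^ k) ≤ UR η δ N m n' := by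
    rw [hUU]
    exact mul_le_mul (mul_le_mul_of_nonneg_right hI hN0.le) hVB0 (by positivity)
      (mul_nonneg (by linarith) hN0.le)
  have hLk : 0 < Real.log N ^ k := pow_pos hlogN k
  have hεc : 0 < ε * c0 := mul_pos hε hc0
  have herr2 : C * (N / Real.log N ^ (k + 1)) ≤ ε / 4 * (N * (c0 / Real.log N ^ k)) := by
    rw [div_le_iff₀ hεc] at hf2
    have a1 : ε / 4 * (N * (c0 / Real.log N ^ k)) = N / (4 * Real.log N ^ k) * (ε * c0) := by
      field_simp
    have a2 : C * (N / Real.log N ^ (k + 1)) = N / (4 * Real.log N ^ k) *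
        (4 * C / Real.log N) := by
      rw [pow_succ]
      field_simp
    rw [a1, a2]
    refine mul_le_mul_of_nonneg_left ?_ (by positivity)
    rw [div_le_iff₀ hlogN]
    linarith
  have herr3 : ε / 4 * (N * (c0 / Real.log N ^ k)) ≤ ε / 2 * UR η δ N m n' := by
    have := mul_le_mul_of_nonneg_left hUlow (by linarith : 0 ≤ ε / 2)
    nlinarith
  have hfin : (A0 * L + ε / 2) * UR η δ N m n' + ε / 2 * UR η δ N m n' =
      (A0 * L + ε) * UR η δ N m n' := by ring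
  linarith

end Pool.Agent.RVC
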