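import Mathlib
import Pool.Agent.CAE.Third
import Pool.Agent.RVC.BVM
import Pool.Agent.RVC.BBV
import Pool.Agent.RVC.RA
import Pool.Agent.RVC.RP
import Pool.Agent.RVC.RB
import Pool.Agent.RVC.RFinE
import Pool.Agent.RVC.RC3
import Pool.Agent.RVC.All

set_option autoImplicit false

/-! # RVC: assembly -/

namespace Pool.Agent.RVC

open Finset Filter Pool.Agent.MT Pool.Agent.CH Pool.Agent.CU Pool.Agent.CV

/-- reversed theorem of Chen type for `m ≤ (log n)^A₀`, robust form -/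
theorem rc3 (hV : CAE.St_V2A) (hR : CAE.St_RedM) : St_RC3 := by
  obtain ⟨A0, hA0, hU, hL⟩ := (thm_LinG Pool.Agent.LIN.sve Pool.Agent.LIN.thm_Cv2).2
  have hPBVW := thm_PBVW (thm_PBV thm_PRed thm_PLC thm_PSW)
  exact thm_RC3 (thm_RFinE ⟨A0, hA0, thm_RA A0 hA0 hL thm_BVM thm_Gen thm_VLow thm_Dens thm_P1,
    thm_RP A0 hA0 hU thm_BVM thm_Gen thm_VLow thm_Dens thm_P1 (thm_ASum thm_MR),
    thm_RB A0 hA0 hU (thm_BBV hPBVW) thm_Gen thm_VLow thm_Dens (thm_BMass thm_MR thm_P2) thm_VR⟩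
    thm_cB thm_Wt hV thm_Dens) hR

end Pool.Agent.RVC
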